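import Pool.Agent.Work.MP_fcea8e_co.Dom.Defs

/-!
# Module LISTCOL: minimal non-colourable sets

* `exists_crit`: a set of minimal cardinality among the non-colourable subsets of `S`.
* `crit_nonempty`: the empty set is colourable.
* `crit_deg`: colour `X.erase x`; if a colour `γ ∈ L x` is not used at the `H`-neighbours of `x` in `X`,
  then `X` is colourable; so `L x ⊆` image of the colouring on the neighbours.
* `crit_deg'`: the colours outside `Pal` are used at neighbours outside `U`.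
-/

set_option autoImplicit false

namespace Pool.Agent.Work.MP_fcea8e_co.Dom

open Finset

variable {V : Type} {H : V → V → Prop} {L : V → Finset ℕ}

theorem exists_crit {S : Finset V} (h : ¬ Col H L S) : ∃ X, X ⊆ S ∧ Crit H L X := by
  induction S using Finset.strongInduction with
  | H S ih =>
    by_cases hall : ∀ Y, Y ⊂ S → Col H L Y
    · exact ⟨S, Subset.refl _, h, hall⟩
    · push Not at hall
      obtain ⟨Y, hY, hYc⟩ := hall
      obtain ⟨X, hX, hXc⟩ := ih Y hY hYc
      exact ⟨X, hX.trans hY.subset, hXc⟩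

theorem crit_nonempty {X : Finset V} (h : Crit H L X) : X.Nonempty := by
  rw [nonempty_iff_ne_empty]
  intro h0
  apply h.1
  rw [h0]
  exact ⟨fun _ => 0, by simp, by simp⟩

theorem crit_ext (hs : ∀ x y, H x y → H y x) (hi : ∀ x, ¬ H x x) {X : Finset V} (h : Crit H L X)
    {x : V} (hx : x ∈ X) : ∃ c : V → ℕ, (∀ y ∈ X, y ≠ x → c y ∈ L y) ∧
      ∀ γ ∈ L x, ∃ y ∈ X, y ≠ x ∧ H x y ∧ c y = γ := by
  classical
  obtain ⟨c, hc1, hc2⟩ := h.2 (X.erase x) (erase_ssubset hx)
  refine ⟨c, fun y hy hyx => hc1 y (mem_erase.2 ⟨hyx, hy⟩), fun γ hγ => ?_⟩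
  by_contra hno
  push Not at hno
  apply h.1
  refine ⟨Function.update c x γ, ?_, ?_⟩
  · intro y hy
    by_cases hyx : y = x
    · rw [hyx, Function.update_self]
      exact hγ
    · rw [Function.update_of_ne hyx]
      exact hc1 y (mem_erase.2 ⟨hyx, hy⟩)
  · intro y hy z hz hyz
    by_cases hyx : y = x
    · have hzx : z ≠ x := by
        rintro rfl
        rw [hyx] at hyz
        exact hi _ hyz
      rw [hyx, Function.update_self, Function.update_of_ne hzx]
      rw [hyx] at hyz
      exact (hno z hz hzx hyz).symm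
    · by_cases hzx : z = x
      · rw [hzx, Function.update_self, Function.update_of_ne hyx]
        rw [hzx] at hyz
        exact hno y hy hyx (hs _ _ hyz)
      · rw [Function.update_of_ne hyx, Function.update_of_ne hzx]
        exact hc2 y (mem_erase.2 ⟨hyx, hy⟩) z (mem_erase.2 ⟨hzx, hz⟩) hyz

open Classical in
theorem crit_deg (hs : ∀ x y, H x y → H y x) (hi : ∀ x, ¬ H x x) {X : Finset V} (h : Crit H L X)
    {x : V} (hx : x ∈ X) : (L x).card ≤ (X.filter (fun y => H x y)).card := by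
  obtain ⟨c, _, hc⟩ := crit_ext hs hi h hx
  have h1 : L x ⊆ (X.filter (fun y => H x y)).image c := by
    intro γ hγ
    obtain ⟨y, hy, _, hxy, hcy⟩ := hc γ hγ
    exact mem_image.2 ⟨y, mem_filter.2 ⟨hy, hxy⟩, hcy⟩
  exact (card_le_card h1).trans card_image_le

open Classical in
theorem crit_deg' (hs : ∀ x y, H x y → H y x) (hi : ∀ x, ¬ H x x) {X : Finset V} (h : Crit H L X)
    {U : Finset V} {Pal : Finset ℕ} (hU : ∀ u ∈ X, u ∈ U → L u ⊆ Pal) {x : V} (hx : x ∈ X) :
    (L x \ Pal).card ≤ ((X \ U).filter (fun y => H x y)).card := by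
  obtain ⟨c, hc0, hc⟩ := crit_ext hs hi h hx
  have h1 : L x \ Pal ⊆ ((X \ U).filter (fun y => H x y)).image c := by
    intro γ hγ
    obtain ⟨hγ1, hγ2⟩ := mem_sdiff.1 hγ
    obtain ⟨y, hy, hyx, hxy, hcy⟩ := hc γ hγ1
    refine mem_image.2 ⟨y, mem_filter.2 ⟨mem_sdiff.2 ⟨hy, fun hyU => hγ2 ?_⟩, hxy⟩, hcy⟩
    rw [← hcy]
    exact hU y hy hyU (hc0 y hy hyx)
  exact (card_le_card h1).trans card_image_le

end Pool.Agent.Work.MP_fcea8e_co.Dom
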