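import Pool.Agent.Work.MP_fcea8e_co.Dom.NumDefs

/-!
# Module PATH: thresholds of the ancestor tree when it is a directed path

* `gallai_roy`: if `E` (finite, `Asym`) has no colouring with `j - 1` colours, `j ≥ 1`, then there are distinct
  `x 0, …, x (j-1)` with `E (x (i+1)) (x i)`. Proof: let `F ⊆ E` be a maximal acyclic subrelation
  (acyclic: `∀ x, ¬ Relation.TransGen F x x`; finitely many relations). Let `r x` be the greatest length
  of an `F`-path ending at `x` (well-founded recursion: `r x = sup (r y + 1)` over `F y x`). `F x y → r x < r y`;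
  if `E x y` and not `F x y` then adding `(x, y)` to `F` gives a cycle, so there is an `F`-path from `y` to `x`
  and `r y < r x`. So `r` is a proper colouring; hence `r x ≥ j - 1` for some `x`, which gives a path
  with `j` vertices ending at `x` (distinct because `r` is strictly decreasing backwards).
* `path_num`: any two ancestors different from the root with the same parent are equal. So the
  depth is injective on the ancestors, with values `0, …, j - 1`, `j` = number of ancestors (the parent of
  an ancestor of depth `i + 1` is an ancestor of depth `i`). `j ∈ cSet pA` by `gallai_roy` (`f t = x (dep t)`).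
  Lower bound: for `n < j` there is no injection of the ancestors into `Fin n`; there is a
  tournament on `Fin n` (`a < b`), without colourings with fewer than `n` colours.
-/

set_option autoImplicit false

namespace Pool.Agent.Work.MP_fcea8e_co.Dom

open Finset

private theorem path_rank {V : Type} [Fintype V] {F : V → V → Prop}
    (hF : ∀ x, ¬ Relation.TransGen F x x) :
    ∃ r : V → ℕ, (∀ x y, F x y → r x < r y) ∧ ∀ x, 1 ≤ r x → ∃ y, F y x ∧ r y = r x - 1 := by
  classical
  have hwf0 : WellFounded (Relation.TransGen F) := by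
    haveI : IsTrans V (Relation.TransGen F) := ⟨fun _ _ _ h1 h2 => h1.trans h2⟩
    haveI : Std.Irrefl (Relation.TransGen F) := ⟨hF⟩
    exact Finite.wellFounded_of_trans_of_irrefl _
  have hwf : WellFounded F :=
    Subrelation.wf (fun {x y} (h : F x y) => Relation.TransGen.single h) hwf0
  set r : V → ℕ := hwf.fix (fun x IH => (univ : Finset V).sup
    (fun y => if h : F y x then IH y h + 1 else 0)) with hr
  have hrx : ∀ x, r x = (univ : Finset V).sup (fun y => if F y x then r y + 1 else 0) := by
    intro x
    rw [hr, hwf.fix_eq]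
    refine Finset.sup_congr rfl (fun y _ => ?_)
    by_cases h : F y x
    · rw [dif_pos h, if_pos h]
    · rw [dif_neg h, if_neg h]
  refine ⟨r, fun x y hxy => ?_, fun x hx => ?_⟩
  · have h1 : (fun z => if F z y then r z + 1 else 0) x ≤
        (univ : Finset V).sup (fun z => if F z y then r z + 1 else 0) :=
      Finset.le_sup (f := fun z => if F z y then r z + 1 else 0) (mem_univ x)
    rw [← hrx y] at h1
    simp only [if_pos hxy] at h1
    omega
  · haveI : Nonempty V := ⟨x⟩
    obtain ⟨y, _, hy⟩ := Finset.exists_mem_eq_sup (univ : Finset V) univ_nonempty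
      (fun y => if F y x then r y + 1 else 0)
    rw [← hrx x] at hy
    by_cases h : F y x
    · simp only [if_pos h] at hy
      exact ⟨y, h, by omega⟩
    · simp only [if_neg h] at hy
      omega

private theorem path_trans {V : Type} {F : V → V → Prop} {x y a b : V}
    (h : Relation.TransGen (fun u w => F u w ∨ (u = x ∧ w = y)) a b) :
    Relation.TransGen F a b ∨ (Relation.ReflTransGen F a x ∧ Relation.ReflTransGen F y b) := by
  induction h with
  | single h =>
    rcases h with h | ⟨rfl, rfl⟩
    · exact Or.inl (Relation.TransGen.single h)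
    · exact Or.inr ⟨Relation.ReflTransGen.refl, Relation.ReflTransGen.refl⟩
  | tail _ h ih =>
    rcases h with h | ⟨rfl, rfl⟩
    · rcases ih with ih | ⟨ih1, ih2⟩
      · exact Or.inl (ih.tail h)
      · exact Or.inr ⟨ih1, ih2.tail h⟩
    · rcases ih with ih | ⟨ih1, _⟩
      · exact Or.inr ⟨ih.to_reflTransGen, Relation.ReflTransGen.refl⟩
      · exact Or.inr ⟨ih1, Relation.ReflTransGen.refl⟩

theorem gallai_roy {V : Type} [Fintype V] {E : V → V → Prop} (hE : Asym E) {j : ℕ} (hj : 1 ≤ j)
    (h : ¬ KC E (j - 1)) :
    ∃ x : ℕ → V, (∀ i i', i < j → i' < j → x i = x i' → i = i') ∧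
      ∀ i, i + 1 < j → E (x (i + 1)) (x i) := by
  classical
  -- a maximal acyclic subrelation
  set P : Finset (V × V) → Prop := fun S => (∀ q ∈ S, E q.1 q.2) ∧
    ∀ x, ¬ Relation.TransGen (fun a b => (a, b) ∈ S) x x with hP
  have hne : ((univ : Finset (Finset (V × V))).filter P).Nonempty := by
    refine ⟨∅, ?_⟩
    rw [Finset.mem_filter]
    refine ⟨mem_univ _, by simp, fun x hx => ?_⟩
    have hno : ∀ a b, Relation.TransGen (fun a b : V => (a, b) ∈ (∅ : Finset (V × V))) a b →
        False := by
      intro a b hab
      induction hab with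
      | single h => simp at h
      | tail _ h _ => simp at h
    exact hno x x hx
  obtain ⟨S, hS, hmax⟩ := Finset.exists_max_image _ (fun S => S.card) hne
  obtain ⟨_, hS1, hS2⟩ := Finset.mem_filter.mp hS
  set F : V → V → Prop := fun a b => (a, b) ∈ S with hF
  obtain ⟨r, hr1, hr2⟩ := path_rank hS2
  have hrt : ∀ a b, Relation.TransGen F a b → r a < r b := by
    intro a b hab
    induction hab with
    | single h => exact hr1 _ _ h
    | tail _ h ih => exact ih.trans (hr1 _ _ h)
  have hprop : ∀ x y, E x y → r x ≠ r y := by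
    intro x y hxy
    by_cases hF' : F x y
    · exact (hr1 x y hF').ne
    · have hxy' : x ≠ y := fun he => by
        subst he
        exact hE x x hxy hxy
      have hnot : ¬ P (insert (x, y) S) := by
        intro hc
        have h1 := hmax (insert (x, y) S) (Finset.mem_filter.mpr ⟨mem_univ _, hc⟩)
        rw [Finset.card_insert_of_notMem hF'] at h1
        omega
      have h2 : ∃ z, Relation.TransGen (fun a b => (a, b) ∈ insert (x, y) S) z z := by
        by_contra hcon
        push Not at hcon
        refine hnot ⟨fun q hq => ?_, hcon⟩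
        rcases Finset.mem_insert.mp hq with rfl | hq
        · exact hxy
        · exact hS1 q hq
      obtain ⟨z, hz⟩ := h2
      have hz' : Relation.TransGen (fun u w => F u w ∨ (u = x ∧ w = y)) z z := by
        refine Relation.TransGen.mono (fun a b hab => ?_) z z hz
        rcases Finset.mem_insert.mp hab with h3 | h3
        · right
          exact ⟨congrArg Prod.fst h3, congrArg Prod.snd h3⟩
        · exact Or.inl h3
      rcases path_trans hz' with h3 | ⟨h3, h4⟩
      · exact absurd h3 (hS2 z)
      · have h5 : Relation.ReflTransGen F y x := h4.trans h3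
        rcases Relation.reflTransGen_iff_eq_or_transGen.mp h5 with h6 | h6
        · exact absurd h6 hxy'
        · exact (hrt y x h6).ne'
  -- a vertex of large rank
  obtain ⟨x0, hx0⟩ : ∃ x, j - 1 ≤ r x := by
    by_contra hcon
    push Not at hcon
    exact h ⟨r, hcon, hprop⟩
  have hnext : ∀ x, ∃ y, 1 ≤ r x → (F y x ∧ r y = r x - 1) := by
    intro x
    by_cases hx : 1 ≤ r x
    · obtain ⟨y, hy⟩ := hr2 x hx
      exact ⟨y, fun _ => hy⟩
    · exact ⟨x, fun h => absurd h hx⟩
  choose nx hnx using hnext
  have hrk : ∀ i, i ≤ r x0 → r (nx^[i] x0) = r x0 - i := by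
    intro i
    induction i with
    | zero => intro _; simp
    | succ i ih =>
      intro hi
      have h1 := ih (by omega)
      have h2 : 1 ≤ r (nx^[i] x0) := by omega
      have h3 := (hnx _ h2).2
      rw [Function.iterate_succ_apply', h3, h1]
      omega
  refine ⟨fun i => nx^[i] x0, fun i i' hi hi' hii => ?_, fun i hi => ?_⟩
  · have h1 := hrk i (by omega)
    have h2 := hrk i' (by omega)
    simp only at hii
    rw [hii, h2] at h1
    omega
  · have h1 := hrk i (by omega)
    have h2 : 1 ≤ r (nx^[i] x0) := by omega
    simp only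
    rw [Function.iterate_succ_apply']
    exact hS1 _ (hnx _ h2).1

private theorem path_csub_t (P : ∀ m : ℕ, (Fin m → Fin m → Prop) → Prop) :
    cSet P ⊆ tSet P := by
  intro n hn E hE hT
  refine hn n E hE (fun k hk => ?_)
  rintro ⟨c, hc1, hc2⟩
  have hinj : Function.Injective (fun x => (⟨c x, hc1 x⟩ : Fin k)) := by
    intro a b hab
    by_contra hne
    have h1 : c a = c b := congrArg Fin.val hab
    rcases hT a b hne with h2 | h2
    · exact hc2 a b h2 h1
    · exact hc2 b a h2 h1.symm
  have := Fintype.card_le_of_injective _ hinj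
  simp at this
  omega

private theorem path_sInf {S : Set ℕ} {m : ℕ} (h1 : m ∈ S) (h2 : ∀ n ∈ S, m ≤ n) : sInf S = m :=
  le_antisymm (Nat.sInf_le h1) (le_csInf ⟨m, h1⟩ h2)

theorem path_num {κ : Type} [Fintype κ] (R : RT κ)
    (h : ∀ t t', t ≠ R.v → t' ≠ R.v → R.Anc t → R.Anc t' → R.p t = R.p t' → t = t') :
    sInf (tSet R.pA) = Nat.card {t // R.Anc t} ∧ sInf (cSet R.pA) = Nat.card {t // R.Anc t} := by
  classical
  have hpar : ∀ t, t ≠ R.v → R.Anc t → R.Anc (R.p t) := by
    intro t ht hA
    cases hA with
    | root => exact absurd rfl ht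
    | step _ _ _ h3 => exact h3
  have hdep0 : ∀ t, R.dep t = 0 → t = R.v := by
    intro t ht
    by_contra hne
    have := R.dep_p t hne
    omega
  have hinj : ∀ d t t', R.Anc t → R.Anc t' → R.dep t = d → R.dep t' = d → t = t' := by
    intro d
    induction d with
    | zero =>
      intro t t' _ _ h1 h2
      rw [hdep0 t h1, hdep0 t' h2]
    | succ d ih =>
      intro t t' hA hA' h1 h2
      have hv := R.dep_v
      have ht : t ≠ R.v := fun he => by rw [he] at h1; omega
      have ht' : t' ≠ R.v := fun he => by rw [he] at h2; omega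
      have h3 := R.dep_p t ht
      have h4 := R.dep_p t' ht'
      exact h t t' ht ht' hA hA'
        (ih _ _ (hpar t ht hA) (hpar t' ht' hA') (by omega) (by omega))
  have hdown : ∀ d t, R.Anc t → R.dep t = d → ∀ i ≤ d, ∃ t', R.Anc t' ∧ R.dep t' = i := by
    intro d
    induction d with
    | zero =>
      intro t hA h1 i hi
      exact ⟨t, hA, by omega⟩
    | succ d ih =>
      intro t hA h1 i hi
      have hv := R.dep_v
      have ht : t ≠ R.v := fun he => by rw [he] at h1; omega
      have h3 := R.dep_p t ht
      rcases Nat.lt_or_ge i (d + 1) with hlt | hge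
      · exact ih (R.p t) (hpar t ht hA) (by omega) i (by omega)
      · exact ⟨t, hA, by omega⟩
  set j := Nat.card {t // R.Anc t} with hj
  have hj1 : 1 ≤ j := by
    haveI : Nonempty {t // R.Anc t} := ⟨⟨R.v, RT.Anc.root⟩⟩
    exact Nat.card_pos
  have hlt : ∀ t, R.Anc t → R.dep t < j := by
    intro t hA
    have h1 : ∀ i : Fin (R.dep t + 1), ∃ t' : {t // R.Anc t}, R.dep t'.1 = i := by
      intro i
      obtain ⟨t', h2, h3⟩ := hdown (R.dep t) t hA rfl i (by omega)
      exact ⟨⟨t', h2⟩, h3⟩
    choose g hg using h1
    have hgi : Function.Injective g := by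
      intro a b hab
      have h2 := hg a
      rw [hab, hg b] at h2
      exact Fin.ext h2.symm
    have h3 := Nat.card_le_card_of_injective g hgi
    rw [Nat.card_eq_fintype_card, Fintype.card_fin, ← hj] at h3
    omega
  have hc : j ∈ cSet R.pA := by
    intro mm E hE hk
    obtain ⟨x, hx1, hx2⟩ := gallai_roy hE hj1 (hk (j - 1) (by omega))
    refine ⟨fun t => x (R.dep t), ?_, ?_⟩
    · intro t ht t' ht' htt
      have hA : R.Anc t := ht
      have hA' : R.Anc t' := ht'
      have h1 := hx1 _ _ (hlt t hA) (hlt t' hA') htt
      exact hinj _ t t' hA hA' h1 rfl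
    · intro t ht hA
      have h1 := R.dep_p t ht
      have h2 := hx2 (R.dep (R.p t)) (by rw [h1]; exact hlt t hA)
      rw [h1] at h2
      exact h2
  have hlow : ∀ n ∈ tSet R.pA, j ≤ n := by
    intro n hn
    obtain ⟨f, hf1, _⟩ := hn (fun a b => a < b) (fun a b h1 h2 => lt_asymm h1 h2)
      (fun a b hab => lt_or_gt_of_ne hab)
    have hfi : Function.Injective (fun t : {t // R.Anc t} => f t.1) := by
      intro t t' htt
      exact Subtype.ext (hf1 t.2 t'.2 htt)
    have h3 := Nat.card_le_card_of_injective _ hfi
    rw [← hj, Nat.card_eq_fintype_card, Fintype.card_fin] at h3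
    exact h3
  exact ⟨path_sInf (path_csub_t _ hc) hlow,
    path_sInf hc (fun n hn => hlow n (path_csub_t _ hn))⟩

end Pool.Agent.Work.MP_fcea8e_co.Dom
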