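import Pool.Agent.Work.MP_fcea8e_co.Dom.Defs

/-!
Definitions of the thresholds (fixed, do not change).
-/

set_option autoImplicit false

namespace Pool.Agent.Work.MP_fcea8e_co.Dom

open Finset

/-- `E` has a proper colouring with `k` colours -/
def KC {V : Type} (E : V → V → Prop) (k : ℕ) : Prop :=
  ∃ c : V → ℕ, (∀ x, c x < k) ∧ ∀ x y, E x y → c x ≠ c y

/-- every two different vertices are joined -/
def Tour {V : Type} (E : V → V → Prop) : Prop := ∀ a b, a ≠ b → E a b ∨ E b a

/-- the sets of numbers of which the thresholds are the infima; `P m E` says that the digraph `E` on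
`Fin m` contains the wanted digraph -/
def tSet (P : ∀ m : ℕ, (Fin m → Fin m → Prop) → Prop) : Set ℕ :=
  {n | ∀ E : Fin n → Fin n → Prop, Asym E → Tour E → P n E}

/-- the same for the chromatic number -/
def cSet (P : ∀ m : ℕ, (Fin m → Fin m → Prop) → Prop) : Set ℕ :=
  {n | ∀ (m : ℕ) (E : Fin m → Fin m → Prop), Asym E → (∀ k, k < n → ¬ KC E k) → P m E}

namespace RT

variable {κ : Type} (R : RT κ)

/-- containing the tree -/
def pC : ∀ m : ℕ, (Fin m → Fin m → Prop) → Prop := fun _ E => ∃ f, R.Copy E f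

/-- containing the tree of the ancestors of the root -/
def pA : ∀ m : ℕ, (Fin m → Fin m → Prop) → Prop := fun _ E => ∃ f, R.AncCopy E f

end RT

/-- the conclusion of the main proposition for the tree `R` -/
def Main {κ : Type} [Fintype κ] (R : RT κ) : Prop :=
  ∀ (V : Type) [Fintype V] (E : V → V → Prop), Asym E → (¬ ∃ f : κ → V, R.Copy E f) →
    ∃ Top : Finset V, (¬ ∃ f : κ → V, R.AncCopy E f ∧ ∀ t, R.Anc t → f t ∈ Top) ∧
      ∃ c : V → ℕ, (∀ x, x ∉ Top → c x < 2 * R.outCh.card - 1) ∧
        ∀ x y, x ∉ Top → y ∉ Top → E x y → c x ≠ c y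

/-- the digraph `E0` above the digraph `E1`: all arcs from the first part to the second -/
def stk {V0 V1 : Type} (E0 : V0 → V0 → Prop) (E1 : V1 → V1 → Prop) : V0 ⊕ V1 → V0 ⊕ V1 → Prop
  | .inl a, .inl b => E0 a b
  | .inl _, .inr _ => True
  | .inr _, .inl _ => False
  | .inr a, .inr b => E1 a b

section digraph

variable {κ : Type}

/-- no loops, no pairs of opposite arcs -/
def Oriented {V : Type} (G : Digraph V) : Prop := ∀ a b, G.Adj a b → ¬ G.Adj b a

/-- `G` has a subdigraph isomorphic to `T` -/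
def Contains {V : Type} (T : Digraph κ) (G : Digraph V) : Prop :=
  ∃ f : κ → V, Function.Injective f ∧ ∀ a b, T.Adj a b → G.Adj (f a) (f b)

/-- least `n` such that all tournaments of order `n` contain `T` -/
noncomputable def tNum (T : Digraph κ) : ℕ :=
  sInf {n : ℕ | ∀ G : Digraph (Fin n), Oriented G → (∀ a b, a ≠ b → G.Adj a b ∨ G.Adj b a) →
    Contains T G}

/-- least `n` such that all oriented graphs of chromatic number at least `n` contain `T` -/
noncomputable def cNum (T : Digraph κ) : ℕ :=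
  sInf {n : ℕ | ∀ (m : ℕ) (G : Digraph (Fin m)), Oriented G →
    (n : ℕ∞) ≤ (SimpleGraph.fromRel G.Adj).chromaticNumber → Contains T G}

/-- the subdigraph of the vertices with a directed path to `v` -/
def anc (T : Digraph κ) (v : κ) : Digraph {x : κ // Relation.ReflTransGen T.Adj x v} :=
  ⟨fun a b => T.Adj a b⟩

/-- `R` describes `T` with root `v` -/
def Describes (R : RT κ) (T : Digraph κ) (v : κ) : Prop :=
  R.v = v ∧ ∀ a b, T.Adj a b ↔ (a ≠ v ∧ R.p a = b ∧ R.dir a = false) ∨
    (b ≠ v ∧ R.p b = a ∧ R.dir b = true)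

end digraph

end Pool.Agent.Work.MP_fcea8e_co.Dom
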