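import Pool.Agent.Work.MP_fcea8e_co.Dom.Facts
import Pool.Agent.Work.MP_fcea8e_co.Dom.NumDefs

/-!
# Module PULL: transfer along maps, small facts on the thresholds
-/

set_option autoImplicit false

namespace Pool.Agent.Work.MP_fcea8e_co.Dom

open Finset

theorem asym_pull {U V : Type} {E : V → V → Prop} (e : U → V) (h : Asym E) :
    Asym (fun a b => E (e a) (e b)) := fun _ _ h1 h2 => h _ _ h1 h2

theorem tour_pull {U V : Type} {E : V → V → Prop} {e : U → V} (he : Function.Injective e)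
    (h : Tour E) : Tour (fun a b => E (e a) (e b)) :=
  fun _ _ hab => h _ _ (fun h1 => hab (he h1))

theorem kc_pull {U V : Type} {E : V → V → Prop} (e : U ≃ V) {k : ℕ}
    (h : KC (fun a b => E (e a) (e b)) k) : KC E k := by
  obtain ⟨c, hc1, hc2⟩ := h
  refine ⟨fun x => c (e.symm x), fun x => hc1 _, fun x y hxy => hc2 _ _ ?_⟩
  have h1 : E (e (e.symm x)) (e (e.symm y)) := by
    rw [e.apply_symm_apply, e.apply_symm_apply]
    exact hxy
  exact h1

theorem copy_pull {κ U V : Type} (R : RT κ) {E : V → V → Prop} {e : U → V}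
    (he : Function.Injective e) {f : κ → U} (h : R.Copy (fun a b => E (e a) (e b)) f) :
    R.Copy E (fun t => e (f t)) :=
  ⟨fun _ _ hab => h.1 (he hab), fun t ht => ⟨(h.2 t ht).1, (h.2 t ht).2⟩⟩

theorem ancCopy_pull {κ U V : Type} (R : RT κ) {E : V → V → Prop} {e : U → V}
    (he : Function.Injective e) {f : κ → U} (h : R.AncCopy (fun a b => E (e a) (e b)) f) :
    R.AncCopy E (fun t => e (f t)) :=
  ⟨fun _ ha _ hb hab => h.1 ha hb (he hab), fun t ht hta => h.2 t ht hta⟩

theorem outs_pull {U V : Type} [Fintype U] [Fintype V] {E : V → V → Prop} {e : U → V}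
    (he : Function.Injective e) (a : U) :
    (outs (fun a b => E (e a) (e b)) univ a).card ≤ (outs E univ (e a)).card := by
  classical
  rw [← card_image_of_injective _ he]
  refine card_le_card ?_
  intro y hy
  obtain ⟨b, hb, rfl⟩ := mem_image.1 hy
  rw [outs, mem_filter] at hb ⊢
  exact ⟨mem_univ _, hb.2⟩

theorem ins_pull {U V : Type} [Fintype U] [Fintype V] {E : V → V → Prop} {e : U → V}
    (he : Function.Injective e) (a : U) :
    (ins (fun a b => E (e a) (e b)) univ a).card ≤ (ins E univ (e a)).card := by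
  classical
  rw [← card_image_of_injective _ he]
  refine card_le_card ?_
  intro y hy
  obtain ⟨b, hb, rfl⟩ := mem_image.1 hy
  rw [ins, mem_filter] at hb ⊢
  exact ⟨mem_univ _, hb.2⟩

theorem copy_out {κ V : Type} [Fintype κ] [Fintype V] (R : RT κ) {E : V → V → Prop} {f : κ → V}
    (h : R.Copy E f) : R.outCh.card ≤ (outs E univ (f R.v)).card := by
  classical
  rw [← card_image_of_injective _ h.1]
  refine card_le_card ?_
  intro y hy
  obtain ⟨t, ht, rfl⟩ := mem_image.1 hy
  rw [RT.outCh, mem_filter] at ht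
  rw [outs, mem_filter]
  have h1 := (h.2 t ht.2.1).1 ht.2.2.2
  rw [ht.2.2.1] at h1
  exact ⟨mem_univ _, h1⟩

theorem tour_inj {V : Type} {E : V → V → Prop} (h : Tour E) {c : V → ℕ}
    (hc : ∀ x y, E x y → c x ≠ c y) : Function.Injective c := by
  intro a b hab
  by_contra hne
  rcases h a b hne with h1 | h1
  · exact hc _ _ h1 hab
  · exact hc _ _ h1 hab.symm

theorem tour_kc {V : Type} [Fintype V] {E : V → V → Prop} (h : Tour E) {k : ℕ} (hk : KC E k) :
    Fintype.card V ≤ k := by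
  classical
  obtain ⟨c, hc1, hc2⟩ := hk
  have h1 := tour_inj h hc2
  have h2 : (univ : Finset V).image c ⊆ range k := by
    intro y hy
    obtain ⟨x, _, rfl⟩ := mem_image.1 hy
    exact mem_range.2 (hc1 x)
  have h3 := card_le_card h2
  rw [card_image_of_injective _ h1, card_univ, card_range] at h3
  exact h3

theorem cSet_sub_tSet (P : ∀ m : ℕ, (Fin m → Fin m → Prop) → Prop) : cSet P ⊆ tSet P := by
  intro n hn E hE hT
  refine hn n E hE (fun k hk hkc => ?_)
  have h1 := tour_kc hT hkc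
  rw [Fintype.card_fin] at h1
  omega

theorem num_eq (P : ∀ m : ℕ, (Fin m → Fin m → Prop) → Prop) {m : ℕ} (h1 : m ∈ cSet P)
    (h2 : ∀ n ∈ tSet P, m ≤ n) : sInf (tSet P) = m ∧ sInf (cSet P) = m := by
  have h3 := cSet_sub_tSet P
  constructor
  · exact le_antisymm (Nat.sInf_le (h3 h1)) (h2 _ (Nat.sInf_mem ⟨m, h3 h1⟩))
  · exact le_antisymm (Nat.sInf_le h1) (h2 _ (h3 (Nat.sInf_mem ⟨m, h1⟩)))

theorem kc_zero {V : Type} {E : V → V → Prop} (h : ¬ KC E 0) : Nonempty V := by
  by_contra hne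
  rw [not_nonempty_iff] at hne
  exact h ⟨fun x => hne.elim x, fun x => hne.elim x, fun x => hne.elim x⟩

theorem kc_union {V : Type} {E : V → V → Prop} {B : Finset V} {n k : ℕ} (c : V → ℕ)
    (hc1 : ∀ x ∈ B, c x < k) (hc2 : ∀ x ∈ B, ∀ y ∈ B, E x y → c x ≠ c y)
    (h : KC (fun a b : {x : V // x ∉ B} => E a b) n) : KC E (n + k) := by
  classical
  obtain ⟨c0, h1, h2⟩ := h
  obtain ⟨d, hd⟩ : ∃ d : V → ℕ, d = fun x => if hx : x ∈ B then c x else k + c0 ⟨x, hx⟩ :=
    ⟨_, rfl⟩
  have hdB : ∀ x, x ∈ B → d x = c x := by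
    intro x hx
    rw [hd]
    simp only [hx, dite_true]
  have hdN : ∀ x (hx : x ∉ B), d x = k + c0 ⟨x, hx⟩ := by
    intro x hx
    rw [hd]
    simp only [hx, dite_false]
  refine ⟨d, fun x => ?_, fun x y hxy => ?_⟩
  · by_cases hx : x ∈ B
    · rw [hdB x hx]
      have := hc1 x hx
      omega
    · rw [hdN x hx]
      have := h1 ⟨x, hx⟩
      omega
  · by_cases hx : x ∈ B
    · by_cases hy : y ∈ B
      · rw [hdB x hx, hdB y hy]
        exact hc2 x hx y hy hxy
      · rw [hdB x hx, hdN y hy]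
        have := hc1 x hx
        omega
    · by_cases hy : y ∈ B
      · rw [hdN x hx, hdB y hy]
        have := hc1 y hy
        omega
      · rw [hdN x hx, hdN y hy]
        have := h2 ⟨x, hx⟩ ⟨y, hy⟩ hxy
        omega

end Pool.Agent.Work.MP_fcea8e_co.Dom
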