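import Pool.Agent.Work.MP_fcea8e_co.Dom.Count
import Pool.Agent.Work.MP_fcea8e_co.Dom.NumDefs

/-!
# Module DEGEN: small out-degrees give a colouring; regular tournaments

* `degen_out`: induction on `|S|`. The sums of `|outs S x|` and `|ins S x|` over `S` are equal (`sum_outs_eq`),
  so some `x ∈ S` has `|ins S x| ≤ |outs S x| < k`, so at most `2k - 2` neighbours in `S`; colour `S.erase x`
  and give `x` a free colour among `2k - 1`. `degen_in`: apply it to the reversed relation.
* `reg_tour`: on `Fin (2k - 1)`: `a → b` iff (`a < b` and `b - a` odd) or (`b < a` and `a - b` even). The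
  out-degree of `a` is `⌈(2k - 2 - a)/2⌉ + ⌊a/2⌋ = k - 1`. (Any other construction is fine, e.g. `ZMod (2k-1)`
  and differences `1, …, k - 1`.)
-/

set_option autoImplicit false

namespace Pool.Agent.Work.MP_fcea8e_co.Dom

open Finset

theorem degen_out {V : Type} {E : V → V → Prop} (hE : Asym E) {k : ℕ} {S : Finset V}
    (h : ∀ x ∈ S, (outs E S x).card < k) :
    ∃ c : V → ℕ, (∀ x ∈ S, c x < 2 * k - 1) ∧ ∀ x ∈ S, ∀ y ∈ S, E x y → c x ≠ c y := by
  classical
  induction S using Finset.strongInduction with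
  | H S ih =>
    rcases S.eq_empty_or_nonempty with h0 | hne
    · subst h0
      exact ⟨fun _ => 0, by simp, by simp⟩
    · have hx : ∃ x ∈ S, (ins E S x).card ≤ (outs E S x).card := by
        by_contra hno
        push Not at hno
        have h1 := sum_lt_sum_of_nonempty hne hno
        rw [sum_outs_eq S S] at h1
        exact lt_irrefl _ h1
      obtain ⟨x, hxS, hx⟩ := hx
      have hk := h x hxS
      obtain ⟨c, hc1, hc2⟩ := ih (S.erase x) (erase_ssubset hxS) (fun y hy =>
        lt_of_le_of_lt (card_le_card (filter_subset_filter _ (erase_subset _ _)))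
          (h y (mem_of_mem_erase hy)))
      have hused : (((outs E S x) ∪ (ins E S x)).image c).card < (range (2 * k - 1)).card := by
        have k1 := card_image_le (s := (outs E S x) ∪ (ins E S x)) (f := c)
        have k2 := card_union_le (outs E S x) (ins E S x)
        rw [card_range]
        omega
      obtain ⟨γ, hγ1, hγ2⟩ := exists_mem_notMem_of_card_lt_card hused
      rw [mem_range] at hγ1
      refine ⟨Function.update c x γ, ?_, ?_⟩
      · intro y hy
        by_cases hyx : y = x
        · rw [hyx, Function.update_self]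
          exact hγ1
        · rw [Function.update_of_ne hyx]
          exact hc1 y (mem_erase.2 ⟨hyx, hy⟩)
      · intro y hy z hz hyz
        by_cases hyx : y = x
        · have hzx : z ≠ x := by
            intro hzx
            rw [hyx, hzx] at hyz
            exact hE _ _ hyz hyz
          rw [hyx, Function.update_self, Function.update_of_ne hzx]
          rw [hyx] at hyz
          intro h2
          refine hγ2 (mem_image.2 ⟨z, ?_, h2.symm⟩)
          rw [mem_union, outs, mem_filter]
          exact Or.inl ⟨hz, hyz⟩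
        · by_cases hzx : z = x
          · rw [hzx, Function.update_self, Function.update_of_ne hyx]
            rw [hzx] at hyz
            intro h2
            refine hγ2 (mem_image.2 ⟨y, ?_, h2⟩)
            rw [mem_union]
            right
            rw [ins, mem_filter]
            exact ⟨hy, hyz⟩
          · rw [Function.update_of_ne hyx, Function.update_of_ne hzx]
            exact hc2 y (mem_erase.2 ⟨hyx, hy⟩) z (mem_erase.2 ⟨hzx, hz⟩) hyz

theorem degen_in {V : Type} {E : V → V → Prop} (hE : Asym E) {k : ℕ} {S : Finset V}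
    (h : ∀ x ∈ S, (ins E S x).card < k) :
    ∃ c : V → ℕ, (∀ x ∈ S, c x < 2 * k - 1) ∧ ∀ x ∈ S, ∀ y ∈ S, E x y → c x ≠ c y := by
  obtain ⟨c, hc1, hc2⟩ := degen_out (E := fun a b => E b a) (fun a b h1 h2 => hE _ _ h1 h2) h
  exact ⟨c, hc1, fun x hx y hy hxy => (hc2 y hy x hx hxy).symm⟩

theorem reg_tour (k : ℕ) (hk : 1 ≤ k) : ∃ E : Fin (2 * k - 1) → Fin (2 * k - 1) → Prop,
    Asym E ∧ Tour E ∧ (∀ a, (outs E univ a).card < k) ∧ ∀ a, (ins E univ a).card < k := by
  classical
  refine ⟨fun a b => ∃ d : ℕ, 1 ≤ d ∧ d ≤ k - 1 ∧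
    ((a : ℕ) + d = b ∨ (a : ℕ) + d = b + (2 * k - 1)), ?_, ?_, ?_, ?_⟩
  · rintro a b ⟨d, h1, h2, h3⟩ ⟨d', h4, h5, h6⟩
    have ha := a.2
    have hb := b.2
    rcases h3 with h3 | h3 <;> rcases h6 with h6 | h6 <;> omega
  · intro a b hab
    have ha := a.2
    have hb := b.2
    have hab' : (a : ℕ) ≠ b := fun h => hab (Fin.ext h)
    rcases Nat.lt_or_gt_of_ne hab' with h | h
    · by_cases h1 : (b : ℕ) - a ≤ k - 1
      · exact Or.inl ⟨b - a, by omega, h1, Or.inl (by omega)⟩
      · exact Or.inr ⟨a + (2 * k - 1) - b, by omega, by omega, Or.inr (by omega)⟩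
    · by_cases h1 : (a : ℕ) - b ≤ k - 1
      · exact Or.inr ⟨a - b, by omega, h1, Or.inl (by omega)⟩
      · exact Or.inl ⟨b + (2 * k - 1) - a, by omega, by omega, Or.inr (by omega)⟩
  · intro a
    have h1 : outs (fun a b : Fin (2 * k - 1) => ∃ d : ℕ, 1 ≤ d ∧ d ≤ k - 1 ∧
        ((a : ℕ) + d = b ∨ (a : ℕ) + d = b + (2 * k - 1))) univ a ⊆
        (Icc 1 (k - 1)).image (fun d => (⟨((a : ℕ) + d) % (2 * k - 1),
          Nat.mod_lt _ (by omega)⟩ : Fin (2 * k - 1))) := by
      intro b hb
      rw [outs, mem_filter] at hb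
      obtain ⟨_, d, h2, h3, h4⟩ := hb
      refine mem_image.2 ⟨d, mem_Icc.2 ⟨h2, h3⟩, Fin.ext ?_⟩
      rcases h4 with h4 | h4
      · simp only [h4]
        exact Nat.mod_eq_of_lt b.2
      · simp only [h4, Nat.add_mod_right]
        exact Nat.mod_eq_of_lt b.2
    have h2 := (card_le_card h1).trans card_image_le
    rw [Nat.card_Icc] at h2
    omega
  · intro a
    have h1 : ins (fun a b : Fin (2 * k - 1) => ∃ d : ℕ, 1 ≤ d ∧ d ≤ k - 1 ∧
        ((a : ℕ) + d = b ∨ (a : ℕ) + d = b + (2 * k - 1))) univ a ⊆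
        (Icc 1 (k - 1)).image (fun d => (⟨((a : ℕ) + (2 * k - 1) - d) % (2 * k - 1),
          Nat.mod_lt _ (by omega)⟩ : Fin (2 * k - 1))) := by
      intro b hb
      rw [ins, mem_filter] at hb
      obtain ⟨_, d, h2, h3, h4⟩ := hb
      refine mem_image.2 ⟨d, mem_Icc.2 ⟨h2, h3⟩, Fin.ext ?_⟩
      rcases h4 with h4 | h4
      · have h5 : (a : ℕ) + (2 * k - 1) - d = b + (2 * k - 1) := by omega
        simp only [h5, Nat.add_mod_right]
        exact Nat.mod_eq_of_lt b.2
      · have h5 : (a : ℕ) + (2 * k - 1) - d = b := by omega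
        simp only [h5]
        exact Nat.mod_eq_of_lt b.2
    have h2 := (card_le_card h1).trans card_image_le
    rw [Nat.card_Icc] at h2
    omega

end Pool.Agent.Work.MP_fcea8e_co.Dom
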