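import Pool.Agent.Work.MP_fcea8e_co.Dom.Defs

/-!
# Module FACTS: elementary facts on rooted trees (`RT`)

`s` bounds the number of vertices which are neither the root nor out-neighbours of the root.
* `core_p`: if `t` is in the core and `t ≠ v` then `p t` is not a leaf in the sense of `leaves`
  (it has the child `t`), so it is in the core.
* `card_core`: the core is `{v}`, the vertices of `outCh` with a child, and the vertices `≠ v` outside
  `outCh` (at most `s`). Choosing a child for each vertex of `outCh` with a child is an injection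
  into the last class (`p` of the child is not `v`; a vertex `t ≠ v` with `p t = v` has depth 1;
  use `dep`), so the middle class has at most `s` elements.
* `dep_le`: for `t` of depth `i ≥ 2` the iterates `p^j t`, `j ≤ i - 2`, have depths `i - j ≥ 2`, so they are
  distinct and outside `outCh ∪ {v}`; hence `i - 1 ≤ s`.
* `card_outCh`: `outCh` is the disjoint union of `leaves` and `core ∩ outCh`.
* `anc_*`: cases on `Anc`; a vertex of `leaves` has `dir = true` and is not the root.
-/

set_option autoImplicit false

namespace Pool.Agent.Work.MP_fcea8e_co.Dom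

open Finset

namespace RT

variable {κ : Type} [Fintype κ] (R : RT κ)

open Classical in
/-- the vertices which are neither the root nor out-neighbours of the root -/
noncomputable def rest : Finset κ := univ.filter (fun t => t ≠ R.v ∧ t ∉ R.outCh)

theorem card_rest {s : ℕ} (h : Fintype.card κ ≤ R.outCh.card + 1 + s) : R.rest.card ≤ s := by
  classical
  have h1 : (univ : Finset κ) = insert R.v (R.outCh ∪ R.rest) := by
    ext t
    simp only [mem_univ, mem_insert, mem_union, rest, mem_filter, true_and, true_iff]
    by_cases h1 : t = R.v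
    · exact Or.inl h1
    · by_cases h2 : t ∈ R.outCh
      · exact Or.inr (Or.inl h2)
      · exact Or.inr (Or.inr ⟨h1, h2⟩)
  have h2 : R.v ∉ R.outCh ∪ R.rest := by
    rw [mem_union, outCh, rest, mem_filter, mem_filter]
    rintro (h2 | h2)
    · exact h2.2.1 rfl
    · exact h2.2.1 rfl
  have h3 : Disjoint R.outCh R.rest := by
    rw [Finset.disjoint_left]
    intro t h4 h5
    rw [rest, mem_filter] at h5
    exact h5.2.2 h4
  have h4 : Fintype.card κ = R.outCh.card + R.rest.card + 1 := by
    rw [← card_univ]
    conv_lhs => rw [h1]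
    rw [card_insert_of_notMem h2, card_union_of_disjoint h3]
  omega

theorem v_mem_core : R.v ∈ R.core := by
  classical
  rw [core, mem_filter, leaves, mem_filter]
  exact ⟨mem_univ _, fun h => h.2.1 rfl⟩

theorem core_p {t : κ} (ht : t ∈ R.core) (hv : t ≠ R.v) : R.p t ∈ R.core := by
  classical
  rw [core, mem_filter, leaves, mem_filter]
  exact ⟨mem_univ _, fun h => h.2.2.2.2 t hv rfl⟩

theorem card_core_add : R.core.card + R.leaves.card = Fintype.card κ := by
  classical
  rw [core]
  have h := card_filter_add_card_filter_not (s := (univ : Finset κ)) (fun t => t ∉ R.leaves)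
  rw [← card_univ, ← h]
  congr 2
  · ext t
    simp

open Classical in
theorem card_outCh : R.leaves.card + (R.core.filter (fun t => t ∈ R.outCh)).card = R.outCh.card := by
  have h1 : R.outCh = R.leaves ∪ R.core.filter (fun t => t ∈ R.outCh) := by
    ext t
    rw [mem_union, mem_filter, core, mem_filter]
    constructor
    · intro h
      by_cases hl : t ∈ R.leaves
      · exact Or.inl hl
      · exact Or.inr ⟨⟨mem_univ _, hl⟩, h⟩
    · rintro (h | h)
      · rw [leaves, mem_filter] at h
        rw [outCh, mem_filter]
        exact ⟨h.1, h.2.1, h.2.2.1, h.2.2.2.1⟩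
      · exact h.2
  have h2 : Disjoint R.leaves (R.core.filter (fun t => t ∈ R.outCh)) := by
    rw [Finset.disjoint_left]
    intro t ht hc
    rw [mem_filter, core, mem_filter] at hc
    exact hc.1.2 ht
  conv_rhs => rw [h1, card_union_of_disjoint h2]

theorem card_core {s : ℕ} (h : Fintype.card κ ≤ R.outCh.card + 1 + s) : R.core.card ≤ 2 * s + 1 := by
  classical
  have h1 : R.core ⊆ insert R.v (R.rest ∪ R.rest.image R.p) := by
    intro t ht
    rw [mem_insert, mem_union, mem_image]
    by_cases htv : t = R.v
    · exact Or.inl htv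
    · right
      by_cases hto : t ∈ R.outCh
      · right
        rw [core, mem_filter, leaves, mem_filter] at ht
        rw [outCh, mem_filter] at hto
        have h2 : ∃ t', t' ≠ R.v ∧ R.p t' = t := by
          by_contra hno
          push Not at hno
          exact ht.2 ⟨mem_univ _, hto.2.1, hto.2.2.1, hto.2.2.2, hno⟩
        obtain ⟨t', h3, h4⟩ := h2
        refine ⟨t', ?_, h4⟩
        rw [rest, mem_filter, outCh, mem_filter]
        refine ⟨mem_univ _, h3, fun h5 => htv ?_⟩
        rw [← h4]
        exact h5.2.2.1
      · left
        rw [rest, mem_filter]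
        exact ⟨mem_univ _, htv, hto⟩
  have h2 := card_le_card h1
  have h3 := card_insert_le R.v (R.rest ∪ R.rest.image R.p)
  have h4 := card_union_le R.rest (R.rest.image R.p)
  have h5 := card_image_le (s := R.rest) (f := R.p)
  have h6 := R.card_rest h
  omega

theorem dep_le {s : ℕ} (h : Fintype.card κ ≤ R.outCh.card + 1 + s) (t : κ) : R.dep t ≤ s + 1 := by
  classical
  have hex : ∀ n : ℕ, ∀ t : κ, R.dep t = n → ∀ j, j ≤ n → ∃ t', R.dep t' = j := by
    intro n
    induction n with
    | zero => intro t ht j hj; exact ⟨t, by omega⟩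
    | succ n ih =>
      intro t ht j hj
      rcases Nat.lt_or_eq_of_le hj with h1 | h1
      · have htv : t ≠ R.v := by
          intro h2
          rw [h2, R.dep_v] at ht
          omega
        have h3 := R.dep_p t htv
        exact ih (R.p t) (by omega) j (by omega)
      · exact ⟨t, by omega⟩
  have h1 : Icc 2 (R.dep t) ⊆ R.rest.image R.dep := by
    intro j hj
    rw [mem_Icc] at hj
    obtain ⟨t', ht'⟩ := hex _ t rfl j hj.2
    refine mem_image.2 ⟨t', ?_, ht'⟩
    rw [rest, mem_filter, outCh, mem_filter]
    have h3 : t' ≠ R.v := by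
      intro h2
      rw [h2, R.dep_v] at ht'
      omega
    refine ⟨mem_univ _, h3, fun h4 => ?_⟩
    have h5 := R.dep_p t' h3
    rw [h4.2.2.1, R.dep_v] at h5
    omega
  have h2 := (card_le_card h1).trans card_image_le
  rw [Nat.card_Icc] at h2
  have h3 := R.card_rest h
  omega

omit [Fintype κ] in
theorem anc_p {t : κ} (ht : R.Anc t) (hv : t ≠ R.v) : R.dir t = false ∧ R.Anc (R.p t) := by
  cases ht with
  | root => exact absurd rfl hv
  | step t h1 h2 h3 => exact ⟨h2, h3⟩

omit [Fintype κ] in
theorem dir_of_not_anc {t : κ} (ht : ¬ R.Anc t) (hv : t ≠ R.v) (hp : R.Anc (R.p t)) :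
    R.dir t = true := by
  by_contra h
  rw [Bool.not_eq_true] at h
  exact ht (Anc.step t hv h hp)

theorem anc_mem_core {t : κ} (ht : R.Anc t) : t ∈ R.core := by
  classical
  rw [core, mem_filter, leaves, mem_filter]
  refine ⟨mem_univ _, fun h => ?_⟩
  have h1 := (R.anc_p ht h.2.1).1
  rw [h.2.2.2.1] at h1
  exact Bool.noConfusion h1

end RT

end Pool.Agent.Work.MP_fcea8e_co.Dom
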