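import Pool.Agent.Work.MP_fcea8e_co.Dom.NumDefs
import Pool.Agent.Work.MP_fcea8e_co.Dom.Facts

/-!
# Module DESC: dictionary between `T` and `R`

* `contains_iff`: unfold; the arcs of `T` are the edges above the vertices `t ≠ v`.
* `anc_iff`: `Anc t → ReflTransGen` by induction (`ReflTransGen.head`); conversely
  `Relation.ReflTransGen.head_induction_on`: `T.Adj t b`, `Anc b`: either `t ≠ v`, `p t = b`, `dir t = false`
  (`Anc.step`), or `b ≠ v`, `p b = t`, `dir b = true`, impossible because `Anc b`, `b ≠ v` gives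
  `dir b = false`.
* `outCh_card`: `T.Adj v x ↔ x ∈ outCh` (the other alternative has `v ≠ v`).
* `contains_anc_iff`: restrict / extend (by the value at the root outside).
* `chi_iff`: `chromaticNumber_le_iff_colorable`; a colouring with `k` colours is a map to `Fin k`, `KC` is
  the same with values in `ℕ`. For `n = 0` both sides hold.
* `tNum_eq` etc.: rewrite the sets (`Digraph (Fin n)` and `Fin n → Fin n → Prop`).
-/

set_option autoImplicit false

namespace Pool.Agent.Work.MP_fcea8e_co.Dom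

variable {κ : Type} {R : RT κ} {T : Digraph κ} {v : κ}

theorem contains_iff (h : Describes R T v) {V : Type} (G : Digraph V) :
    Contains T G ↔ ∃ f, R.Copy G.Adj f := by
  obtain ⟨hv, hadj⟩ := h
  constructor
  · rintro ⟨f, hf, hG⟩
    refine ⟨f, hf, fun t ht => ⟨fun hd => ?_, fun hd => ?_⟩⟩
    · exact hG _ _ ((hadj _ _).2 (Or.inr ⟨hv ▸ ht, rfl, hd⟩))
    · exact hG _ _ ((hadj _ _).2 (Or.inl ⟨hv ▸ ht, rfl, hd⟩))
  · rintro ⟨f, hf, hG⟩
    refine ⟨f, hf, fun a b hab => ?_⟩
    rcases (hadj a b).1 hab with ⟨h1, h2, h3⟩ | ⟨h1, h2, h3⟩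
    · rw [← h2]
      exact (hG a (hv ▸ h1)).2 h3
    · rw [← h2]
      exact (hG b (hv ▸ h1)).1 h3

theorem anc_iff (h : Describes R T v) (t : κ) :
    R.Anc t ↔ Relation.ReflTransGen T.Adj t v := by
  obtain ⟨hv, hadj⟩ := h
  constructor
  · intro ha
    induction ha with
    | root => rw [hv]
    | step t h1 h2 _ ih =>
      exact Relation.ReflTransGen.head ((hadj _ _).2 (Or.inl ⟨hv ▸ h1, rfl, h2⟩)) ih
  · intro ha
    induction ha using Relation.ReflTransGen.head_induction_on with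
    | refl => rw [← hv]; exact RT.Anc.root
    | @head a b hab _ ih =>
      rcases (hadj a b).1 hab with ⟨h1, h2, h3⟩ | ⟨h1, h2, h3⟩
      · exact RT.Anc.step a (hv ▸ h1) h3 (h2 ▸ ih)
      · exfalso
        have h4 := (R.anc_p ih (hv ▸ h1)).1
        rw [h3] at h4
        exact Bool.noConfusion h4

theorem outCh_card [Fintype κ] (h : Describes R T v) : R.outCh.card = Nat.card {x // T.Adj v x} := by
  classical
  obtain ⟨hv, hadj⟩ := h
  symm
  refine Nat.subtype_card _ (fun x => ?_)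
  rw [RT.outCh, Finset.mem_filter, hadj]
  constructor
  · rintro ⟨_, h1, h2, h3⟩
    exact Or.inr ⟨hv ▸ h1, hv ▸ h2, h3⟩
  · rintro (⟨h1, _⟩ | ⟨h1, h2, h3⟩)
    · exact absurd rfl h1
    · exact ⟨Finset.mem_univ _, hv ▸ h1, hv ▸ h2, h3⟩

theorem contains_anc_iff (h : Describes R T v) {V : Type} (G : Digraph V) :
    Contains (anc T v) G ↔ ∃ f, R.AncCopy G.Adj f := by
  classical
  constructor
  · rintro ⟨f, hf, hG⟩
    refine ⟨fun t => if ht : Relation.ReflTransGen T.Adj t v then f ⟨t, ht⟩ else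
      f ⟨v, Relation.ReflTransGen.refl⟩, ?_, ?_⟩
    · intro a ha b hb hab
      have ha' := (anc_iff h a).1 ha
      have hb' := (anc_iff h b).1 hb
      simp only [ha', hb', dite_true] at hab
      exact congrArg Subtype.val (hf hab)
    · intro t ht hta
      have ha' := (anc_iff h t).1 hta
      obtain ⟨h1, h2⟩ := R.anc_p hta ht
      have hb' := (anc_iff h _).1 h2
      simp only [ha', hb', dite_true]
      refine hG _ _ ?_
      exact (h.2 _ _).2 (Or.inl ⟨h.1 ▸ ht, rfl, h1⟩)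
  · rintro ⟨f, hf, hG⟩
    refine ⟨fun t => f t, ?_, ?_⟩
    · intro a b hab
      exact Subtype.ext (hf ((anc_iff h _).2 a.2) ((anc_iff h _).2 b.2) hab)
    · intro a b hab
      rcases (h.2 a b).1 hab with ⟨h1, h2, h3⟩ | ⟨h1, h2, h3⟩
      · have h4 := hG a (h.1 ▸ h1) ((anc_iff h _).2 a.2)
        rw [h2] at h4
        exact h4
      · exfalso
        have h4 := (R.anc_p ((anc_iff h _).2 b.2) (h.1 ▸ h1)).1
        rw [h3] at h4
        exact Bool.noConfusion h4

theorem chi_iff {m : ℕ} (E : Fin m → Fin m → Prop) (hE : Asym E) (n : ℕ) :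
    (n : ℕ∞) ≤ (SimpleGraph.fromRel E).chromaticNumber ↔ ∀ k, k < n → ¬ KC E k := by
  have hkc : ∀ k, KC E k ↔ (SimpleGraph.fromRel E).Colorable k := by
    intro k
    constructor
    · rintro ⟨c, hc1, hc2⟩
      refine ⟨SimpleGraph.Coloring.mk (fun x => (⟨c x, hc1 x⟩ : Fin k)) ?_⟩
      intro a b hab h
      rw [SimpleGraph.fromRel_adj] at hab
      have h' : c a = c b := congrArg Fin.val h
      rcases hab.2 with h1 | h1
      · exact hc2 _ _ h1 h'
      · exact hc2 _ _ h1 h'.symm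
    · rintro ⟨C⟩
      refine ⟨fun x => (C x : ℕ), fun x => (C x).2, fun x y hxy h => ?_⟩
      have h1 : (SimpleGraph.fromRel E).Adj x y := by
        rw [SimpleGraph.fromRel_adj]
        exact ⟨fun h2 => hE _ _ hxy (h2 ▸ hxy), Or.inl hxy⟩
      exact C.valid h1 (Fin.ext h)
  constructor
  · intro h k hk hkc'
    rw [hkc, ← SimpleGraph.chromaticNumber_le_iff_colorable] at hkc'
    have h1 : (n : ℕ∞) ≤ (k : ℕ∞) := h.trans hkc'
    exact absurd (ENat.natCast_le_natCast.1 h1) (not_le.2 hk)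
  · intro h
    by_contra hlt
    rw [not_le] at hlt
    obtain ⟨k, hk⟩ := ENat.ne_top_iff_exists.1 (ne_top_of_lt hlt)
    rw [← hk] at hlt
    refine h k (ENat.natCast_lt_natCast.1 hlt) ?_
    rw [hkc, ← SimpleGraph.chromaticNumber_le_iff_colorable, hk]

theorem tNum_eq (h : Describes R T v) : tNum T = sInf (tSet R.pC) := by
  rw [tNum, tSet]
  congr 1
  ext n
  simp only [Set.mem_ofPred_eq]
  constructor
  · intro h1 E hE hT
    exact (contains_iff h ⟨E⟩).1 (h1 ⟨E⟩ hE hT)
  · intro h1 G hG hT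
    exact (contains_iff h G).2 (h1 G.Adj hG hT)

theorem cNum_eq (h : Describes R T v) : cNum T = sInf (cSet R.pC) := by
  rw [cNum, cSet]
  congr 1
  ext n
  simp only [Set.mem_ofPred_eq]
  constructor
  · intro h1 m E hE hT
    exact (contains_iff h ⟨E⟩).1 (h1 m ⟨E⟩ hE ((chi_iff E hE n).2 hT))
  · intro h1 m G hG hT
    exact (contains_iff h G).2 (h1 m G.Adj hG ((chi_iff G.Adj hG n).1 hT))

theorem tNum_anc_eq (h : Describes R T v) : tNum (anc T v) = sInf (tSet R.pA) := by
  rw [tNum, tSet]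
  congr 1
  ext n
  simp only [Set.mem_ofPred_eq]
  constructor
  · intro h1 E hE hT
    exact (contains_anc_iff h ⟨E⟩).1 (h1 ⟨E⟩ hE hT)
  · intro h1 G hG hT
    exact (contains_anc_iff h G).2 (h1 G.Adj hG hT)

theorem cNum_anc_eq (h : Describes R T v) : cNum (anc T v) = sInf (cSet R.pA) := by
  rw [cNum, cSet]
  congr 1
  ext n
  simp only [Set.mem_ofPred_eq]
  constructor
  · intro h1 m E hE hT
    exact (contains_anc_iff h ⟨E⟩).1 (h1 m ⟨E⟩ hE ((chi_iff E hE n).2 hT))
  · intro h1 m G hG hT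
    exact (contains_anc_iff h G).2 (h1 m G.Adj hG ((chi_iff G.Adj hG n).1 hT))

end Pool.Agent.Work.MP_fcea8e_co.Dom
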