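import Pool.Agent.Work.MP_fcea8e_co.Dom.Degen
import Pool.Agent.Work.MP_fcea8e_co.Dom.Pull

/-!
# Module STACK: lower bounds

* `stk_asym`, `stk_tour`: cases.
* `stk_no_copy`: let `f` be a copy of the tree in the stack. If `f v = inr a` then the images of `outCh` are
  different out-neighbours of `a` in the second part, too many. So `f v` is in the first part; the
  ancestors too (induction on `Anc`: an arc into the first part starts in the first part); so
  there is a copy of the ancestor tree in `E0` (outside the ancestors take the value at the root).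
* `stk_kc`: in a colouring of the stack with `k` colours the vertices of the second part have different
  colours, which are not used in the first part; recolour the first part with the remaining
  `k - |V1|` colours (order-embedding of the complement of the image; or: the image of the first
  part has at most `k - |V1|` elements, compose with an injection of it into `range (k - |V1|)`).
* `lower_t`: let `n ∈ tSet pC`. `n ≤ 2Δ - 1`: the restriction of the regular tournament of `reg_tour` to the
  first `n` vertices has out-degrees `< Δ`, so no copy. `n = 2Δ - 1 + j` with `j < sInf (tSet pA)`: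
  `j ∉ tSet pA` (`Nat.notMem_of_lt_sInf`) gives a tournament of order `j`, put it above the regular
  tournament, transfer to `Fin n` by an equivalence. So `n ≥ 2Δ - 1 + sInf (tSet pA)`; use
  `le_csInf` and `tSet pC` nonempty (hypothesis).
* `lower_c`: in the same way; `n ≤ 2Δ - 1`: the regular tournament itself is not colourable with fewer than
  `2Δ - 1` colours.
-/

set_option autoImplicit false

namespace Pool.Agent.Work.MP_fcea8e_co.Dom

open Finset

theorem stk_asym {V0 V1 : Type} {E0 : V0 → V0 → Prop} {E1 : V1 → V1 → Prop} (h0 : Asym E0)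
    (h1 : Asym E1) : Asym (stk E0 E1) := by
  rintro (a | a) (b | b) h2 h3
  · exact h0 _ _ h2 h3
  · exact h3
  · exact h2
  · exact h1 _ _ h2 h3

theorem stk_tour {V0 V1 : Type} {E0 : V0 → V0 → Prop} {E1 : V1 → V1 → Prop} (h0 : Tour E0)
    (h1 : Tour E1) : Tour (stk E0 E1) := by
  rintro (a | a) (b | b) hab
  · exact h0 a b (fun h => hab (by rw [h]))
  · exact Or.inl trivial
  · exact Or.inr trivial
  · exact h1 a b (fun h => hab (by rw [h]))

theorem stk_no_copy {κ V0 V1 : Type} [Fintype κ] [Fintype V1] (R : RT κ) {E0 : V0 → V0 → Prop}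
    {E1 : V1 → V1 → Prop} (h0 : ¬ ∃ f : κ → V0, R.AncCopy E0 f)
    (h1 : ∀ a, (outs E1 univ a).card < R.outCh.card) : ¬ ∃ f, R.Copy (stk E0 E1) f := by
  classical
  rintro ⟨f, hf, harc⟩
  rcases hv : f R.v with a | a
  · apply h0
    have hanc : ∀ t, R.Anc t → ∃ b, f t = Sum.inl b := by
      intro t ht
      induction ht with
      | root => exact ⟨a, hv⟩
      | step t h2 h3 _ ih =>
        obtain ⟨b, hb⟩ := ih
        have h5 := (harc t h2).2 h3
        rw [hb] at h5
        rcases h6 : f t with c | c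
        · exact ⟨c, rfl⟩
        · rw [h6] at h5
          exact h5.elim
    refine ⟨fun t => Sum.elim id (fun _ => a) (f t), ?_, ?_⟩
    · intro t ht t' ht' htt
      obtain ⟨b, hb⟩ := hanc t ht
      obtain ⟨b', hb'⟩ := hanc t' ht'
      simp only [hb, hb', Sum.elim_inl, id] at htt
      apply hf
      rw [hb, hb', htt]
    · intro t ht hta
      obtain ⟨h2, h3⟩ := R.anc_p hta ht
      obtain ⟨b, hb⟩ := hanc t hta
      obtain ⟨b', hb'⟩ := hanc _ h3
      have h5 := (harc t ht).2 h2
      rw [hb, hb'] at h5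
      simp only [hb, hb', Sum.elim_inl, id]
      exact h5
  · have h2 : R.outCh.image f ⊆ (outs E1 univ a).image Sum.inr := by
      intro y hy
      obtain ⟨t, ht, rfl⟩ := mem_image.1 hy
      rw [RT.outCh, mem_filter] at ht
      have h3 := (harc t ht.2.1).1 ht.2.2.2
      rw [ht.2.2.1, hv] at h3
      rcases h4 : f t with c | c
      · rw [h4] at h3
        exact h3.elim
      · rw [h4] at h3
        refine mem_image.2 ⟨c, ?_, rfl⟩
        rw [outs, mem_filter]
        exact ⟨mem_univ _, h3⟩
    have h3 := (card_le_card h2).trans card_image_le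
    rw [card_image_of_injective _ hf] at h3
    exact absurd (h1 a) (not_lt.2 h3)

theorem stk_kc {V0 V1 : Type} [Fintype V1] {E0 : V0 → V0 → Prop} {E1 : V1 → V1 → Prop}
    (h1 : Tour E1) {k : ℕ} (h : KC (stk E0 E1) k) :
    Fintype.card V1 ≤ k ∧ KC E0 (k - Fintype.card V1) := by
  classical
  obtain ⟨c, hc1, hc2⟩ := h
  have hinj : Function.Injective (fun x : V1 => c (Sum.inr x)) :=
    tour_inj h1 (fun x y hxy => hc2 (Sum.inr x) (Sum.inr y) hxy)
  obtain ⟨I, hI⟩ : ∃ I, I = (univ : Finset V1).image (fun x => c (Sum.inr x)) := ⟨_, rfl⟩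
  have hIc : I.card = Fintype.card V1 := by
    rw [hI, card_image_of_injective _ hinj, card_univ]
  have hIr : I ⊆ range k := by
    intro y hy
    rw [hI] at hy
    obtain ⟨x, _, rfl⟩ := mem_image.1 hy
    exact mem_range.2 (hc1 _)
  have hle : Fintype.card V1 ≤ k := by
    rw [← hIc]
    have := card_le_card hIr
    rw [card_range] at this
    exact this
  refine ⟨hle, ?_⟩
  have hcard : (range k \ I).card = k - Fintype.card V1 := by
    rw [card_sdiff_of_subset hIr, card_range, hIc]
  have hmem : ∀ x : V0, c (Sum.inl x) ∈ range k \ I := by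
    intro x
    rw [mem_sdiff, mem_range]
    refine ⟨hc1 _, fun h => ?_⟩
    rw [hI] at h
    obtain ⟨y, _, hy⟩ := mem_image.1 h
    exact hc2 (Sum.inl x) (Sum.inr y) trivial hy.symm
  refine ⟨fun x => ((range k \ I).equivFinOfCardEq hcard ⟨c (Sum.inl x), hmem x⟩ : ℕ),
    fun x => Fin.is_lt _, fun x y hxy h => ?_⟩
  have h2 := ((range k \ I).equivFinOfCardEq hcard).injective (Fin.ext h)
  exact hc2 (Sum.inl x) (Sum.inl y) hxy (congrArg Subtype.val h2)

theorem lower_t {κ : Type} [Fintype κ] (R : RT κ) (hΔ : 1 ≤ R.outCh.card)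
    (hne : (tSet R.pC).Nonempty) :
    2 * R.outCh.card - 1 + sInf (tSet R.pA) ≤ sInf (tSet R.pC) := by
  have hmem := Nat.sInf_mem hne
  by_contra hlt
  rw [not_le] at hlt
  obtain ⟨n, hn⟩ : ∃ n, n = sInf (tSet R.pC) := ⟨_, rfl⟩
  rw [← hn] at hmem hlt
  obtain ⟨E1, hA, hT, ho, _⟩ := reg_tour R.outCh.card hΔ
  rcases Nat.lt_or_ge n (2 * R.outCh.card - 1) with h1 | h1
  · have hinj : Function.Injective (Fin.castLE h1.le) := Fin.castLE_injective _
    obtain ⟨f, hf⟩ := hmem _ (asym_pull _ hA) (tour_pull hinj hT)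
    have h2 := copy_out R (copy_pull R hinj hf)
    exact absurd (ho _) (not_lt.2 h2)
  · obtain ⟨j, rfl⟩ := Nat.exists_eq_add_of_le' h1
    have hj : j ∉ tSet R.pA := Nat.notMem_of_lt_sInf (by omega)
    rw [tSet, Set.mem_ofPred_eq] at hj
    push Not at hj
    obtain ⟨E0, hA0, hT0, hP0⟩ := hj
    have hinj : Function.Injective (finSumFinEquiv (m := j) (n := 2 * R.outCh.card - 1)).symm :=
      Equiv.injective _
    obtain ⟨f, hf⟩ := hmem _ (asym_pull _ (stk_asym hA0 hA)) (tour_pull hinj (stk_tour hT0 hT))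
    exact stk_no_copy R hP0 ho ⟨_, copy_pull R hinj hf⟩

theorem lower_c {κ : Type} [Fintype κ] (R : RT κ) (hΔ : 1 ≤ R.outCh.card)
    (hne : (cSet R.pC).Nonempty) :
    2 * R.outCh.card - 1 + sInf (cSet R.pA) ≤ sInf (cSet R.pC) := by
  have hmem := Nat.sInf_mem hne
  by_contra hlt
  rw [not_le] at hlt
  obtain ⟨n, hn⟩ : ∃ n, n = sInf (cSet R.pC) := ⟨_, rfl⟩
  rw [← hn] at hmem hlt
  obtain ⟨E1, hA, hT, ho, _⟩ := reg_tour R.outCh.card hΔ
  rcases Nat.lt_or_ge n (2 * R.outCh.card - 1) with h1 | h1
  · obtain ⟨f, hf⟩ := hmem _ E1 hA (fun k hk hkc => by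
      have h2 := tour_kc hT hkc
      rw [Fintype.card_fin] at h2
      omega)
    have h2 := copy_out R hf
    exact absurd (ho _) (not_lt.2 h2)
  · obtain ⟨j, rfl⟩ := Nat.exists_eq_add_of_le' h1
    have hj : j ∉ cSet R.pA := Nat.notMem_of_lt_sInf (by omega)
    rw [cSet, Set.mem_ofPred_eq] at hj
    push Not at hj
    obtain ⟨m, E0, hA0, hK0, hP0⟩ := hj
    have hinj : Function.Injective (finSumFinEquiv (m := m) (n := 2 * R.outCh.card - 1)).symm :=
      Equiv.injective _
    obtain ⟨f, hf⟩ := hmem _ _ (asym_pull (finSumFinEquiv (m := m)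
      (n := 2 * R.outCh.card - 1)).symm (stk_asym hA0 hA)) (fun k hk hkc => by
        obtain ⟨h2, h3⟩ := stk_kc hT (kc_pull _ hkc)
        rw [Fintype.card_fin] at h2 h3
        exact hK0 _ (by omega) h3)
    exact stk_no_copy R hP0 ho ⟨_, copy_pull R hinj hf⟩

end Pool.Agent.Work.MP_fcea8e_co.Dom
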