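import Pool.Agent.Work.MP_fcea8e_co.Dom.NumDefs

/-!
# Module REV: reversing all arcs does not change the thresholds

`G ↦` reversed `G` is a bijection of the digraphs on `Fin n` which preserves `Oriented`, the tournament
condition and `fromRel` (so the chromatic number), and `Contains (rev T) (rev G) ↔ Contains T G`.
-/

set_option autoImplicit false

namespace Pool.Agent.Work.MP_fcea8e_co.Dom

/-- all arcs reversed -/
def rev {κ : Type} (T : Digraph κ) : Digraph κ := ⟨fun a b => T.Adj b a⟩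

theorem tNum_rev {κ : Type} (T : Digraph κ) : tNum (rev T) = tNum T := by
  rw [tNum, tNum]
  congr 1
  ext n
  simp only [Set.mem_ofPred_eq]
  constructor
  · intro h1 G hG hT
    obtain ⟨f, hf, hfG⟩ := h1 (rev G) (fun a b h2 h3 => hG _ _ h2 h3)
      (fun a b hab => (hT a b hab).symm)
    exact ⟨f, hf, fun a b hab => hfG b a hab⟩
  · intro h1 G hG hT
    obtain ⟨f, hf, hfG⟩ := h1 (rev G) (fun a b h2 h3 => hG _ _ h2 h3)
      (fun a b hab => (hT a b hab).symm)
    exact ⟨f, hf, fun a b hab => hfG b a hab⟩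

theorem cNum_rev {κ : Type} (T : Digraph κ) : cNum (rev T) = cNum T := by
  have hrel : ∀ {m : ℕ} (G : Digraph (Fin m)), SimpleGraph.fromRel (rev G).Adj =
      SimpleGraph.fromRel G.Adj := by
    intro m G
    ext a b
    rw [SimpleGraph.fromRel_adj, SimpleGraph.fromRel_adj]
    exact ⟨fun h => ⟨h.1, h.2.symm⟩, fun h => ⟨h.1, h.2.symm⟩⟩
  rw [cNum, cNum]
  congr 1
  ext n
  simp only [Set.mem_ofPred_eq]
  constructor
  · intro h1 m G hG hT
    obtain ⟨f, hf, hfG⟩ := h1 m (rev G) (fun a b h2 h3 => hG _ _ h2 h3) (by rw [hrel]; exact hT)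
    exact ⟨f, hf, fun a b hab => hfG b a hab⟩
  · intro h1 m G hG hT
    obtain ⟨f, hf, hfG⟩ := h1 m (rev G) (fun a b h2 h3 => hG _ _ h2 h3) (by rw [hrel]; exact hT)
    exact ⟨f, hf, fun a b hab => hfG b a hab⟩

end Pool.Agent.Work.MP_fcea8e_co.Dom
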