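import Pool.Agent.Work.MP_fcea8e_co.Dom.Degen

/-!
# Module STAR: thresholds of the ancestor tree when it is a star

All ancestors are the root or have parent the root; `b` = number of ancestors other than the root.
The ancestor tree is contained in a digraph iff some vertex has at least `b` in-neighbours.
Both numbers are `max 1 (2 b)`.
* `max 1 (2b) ∈ cSet pA`: no colouring with `0` colours: there is a vertex (this settles `b = 0`);
  `b ≥ 1`: no colouring with `2b - 1` colours, so by `degen_in` some vertex has `b` in-neighbours.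
  `cSet ⊆ tSet`: a tournament of order `n` has no colouring with fewer than `n` colours.
* lower bound: `n = 0`: the empty digraph contains nothing. `1 ≤ n ≤ 2b - 1`: the restriction of the
  tournament `reg_tour b` to the first `n` vertices has in-degrees `< b`. For `cSet`: the same
  tournament on `Fin n` has no colouring with fewer than `n` colours.
`sInf S = m` from `m ∈ S` and `∀ n ∈ S, m ≤ n`.
-/

set_option autoImplicit false

namespace Pool.Agent.Work.MP_fcea8e_co.Dom

open Finset

open Classical in
private theorem star_iff {κ : Type} [Fintype κ] (R : RT κ)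
    (h : ∀ t, R.Anc t → t = R.v ∨ R.p t = R.v) {b : ℕ}
    (hb : (univ.filter (fun t => t ≠ R.v ∧ R.p t = R.v ∧ R.dir t = false)).card = b)
    {n : ℕ} {E : Fin n → Fin n → Prop} (hE : Asym E) :
    R.pA n E ↔ ∃ x, b ≤ (ins E univ x).card := by
  set C : Finset κ := univ.filter (fun t => t ≠ R.v ∧ R.p t = R.v ∧ R.dir t = false) with hC
  have hmemC : ∀ t, t ∈ C ↔ t ≠ R.v ∧ R.p t = R.v ∧ R.dir t = false := fun t => by simp [hC]
  have hAncC : ∀ t, R.Anc t ↔ t = R.v ∨ t ∈ C := by
    intro t
    constructor
    · intro ht
      by_cases htv : t = R.v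
      · exact Or.inl htv
      · right
        rw [hmemC]
        refine ⟨htv, (h t ht).resolve_left htv, ?_⟩
        cases ht with
        | root => exact absurd rfl htv
        | step _ _ h2 _ => exact h2
    · rintro (rfl | ht)
      · exact RT.Anc.root
      · rw [hmemC] at ht
        exact RT.Anc.step t ht.1 ht.2.2 (by rw [ht.2.1]; exact RT.Anc.root)
  constructor
  · rintro ⟨f, hf1, hf2⟩
    refine ⟨f R.v, ?_⟩
    rw [← hb, ← Finset.card_image_of_injOn (f := f) (s := C)
      (fun a ha b hb' hab => hf1 ((hAncC a).mpr (Or.inr (by simpa using ha)))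
        ((hAncC b).mpr (Or.inr (by simpa using hb'))) hab)]
    refine Finset.card_le_card (fun y hy => ?_)
    obtain ⟨t, ht, rfl⟩ := Finset.mem_image.mp hy
    have ht' := (hmemC t).mp ht
    have h1 := hf2 t ht'.1 ((hAncC t).mpr (Or.inr ht))
    rw [ht'.2.1] at h1
    simp [ins, h1]
  · rintro ⟨x, hx⟩
    have hcard : C.card ≤ (ins E univ x).card := by rw [hb]; exact hx
    obtain ⟨e, he1, he2⟩ : ∃ e : κ → Fin n, (∀ t ∈ C, e t ∈ ins E univ x) ∧
        Set.InjOn e (C : Set κ) := by
      have h1 : Nonempty (C ↪ (ins E univ x)) := by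
        rw [Function.Embedding.nonempty_iff_card_le]
        simpa using hcard
      obtain ⟨g⟩ := h1
      refine ⟨fun t => if ht : t ∈ C then (g ⟨t, ht⟩ : Fin n) else x, ?_, ?_⟩
      · intro t ht
        simp only [dif_pos ht]
        exact (g ⟨t, ht⟩).2
      · intro t ht t' ht' htt
        have ht1 : t ∈ C := ht
        have ht2 : t' ∈ C := ht'
        simp only [dif_pos ht1, dif_pos ht2] at htt
        have h2 := g.injective (Subtype.ext htt)
        exact congrArg Subtype.val h2
    have hxins : x ∉ ins E univ x := by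
      intro hxx
      have : E x x := by simpa [ins] using hxx
      exact hE x x this this
    refine ⟨fun t => if t = R.v then x else e t, ?_, ?_⟩
    · intro t ht t' ht' htt
      have ht1 : t = R.v ∨ t ∈ C := (hAncC t).mp ht
      have ht2 : t' = R.v ∨ t' ∈ C := (hAncC t').mp ht'
      simp only at htt
      by_cases h1 : t = R.v
      · by_cases h2 : t' = R.v
        · rw [h1, h2]
        · rw [if_pos h1, if_neg h2] at htt
          exact absurd (htt ▸ he1 t' (ht2.resolve_left h2)) hxins
      · by_cases h2 : t' = R.v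
        · rw [if_neg h1, if_pos h2] at htt
          exact absurd (htt ▸ he1 t (ht1.resolve_left h1)) hxins
        · rw [if_neg h1, if_neg h2] at htt
          exact he2 (ht1.resolve_left h1) (ht2.resolve_left h2) htt
    · intro t htv ht
      have ht1 : t ∈ C := ((hAncC t).mp ht).resolve_left htv
      have h3 := ((hmemC t).mp ht1).2.1
      simp only
      rw [if_neg htv, if_pos h3]
      have := he1 t ht1
      simpa [ins] using this

private theorem star_csub_t (P : ∀ m : ℕ, (Fin m → Fin m → Prop) → Prop) :
    cSet P ⊆ tSet P := by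
  intro n hn E hE hT
  refine hn n E hE (fun k hk => ?_)
  rintro ⟨c, hc1, hc2⟩
  have hinj : Function.Injective (fun x => (⟨c x, hc1 x⟩ : Fin k)) := by
    intro a b hab
    by_contra hne
    have h1 : c a = c b := congrArg Fin.val hab
    rcases hT a b hne with h2 | h2
    · exact hc2 a b h2 h1
    · exact hc2 b a h2 h1.symm
  have := Fintype.card_le_of_injective _ hinj
  simp at this
  omega

private theorem star_sInf {S : Set ℕ} {m : ℕ} (h1 : m ∈ S) (h2 : ∀ n ∈ S, m ≤ n) : sInf S = m :=
  le_antisymm (Nat.sInf_le h1) (le_csInf ⟨m, h1⟩ h2)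

open Classical in
theorem star_num {κ : Type} [Fintype κ] (R : RT κ) (h : ∀ t, R.Anc t → t = R.v ∨ R.p t = R.v)
    {b : ℕ} (hb : (univ.filter (fun t => t ≠ R.v ∧ R.p t = R.v ∧ R.dir t = false)).card = b) :
    sInf (tSet R.pA) = max 1 (2 * b) ∧ sInf (cSet R.pA) = max 1 (2 * b) := by
  have hc : max 1 (2 * b) ∈ cSet R.pA := by
    intro mm E hE hk
    rw [star_iff R h hb hE]
    have h0 : ¬ KC E 0 := hk 0 (by omega)
    have hne : Nonempty (Fin mm) := by
      by_contra hemp
      rw [not_nonempty_iff] at hemp
      exact h0 ⟨fun _ => 0, fun x => hemp.elim x, fun x => hemp.elim x⟩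
    by_cases hb0 : b = 0
    · exact ⟨hne.some, by omega⟩
    · by_contra hcon
      push Not at hcon
      obtain ⟨c, hc1, hc2⟩ := degen_in hE (k := b) (S := univ) (fun x _ => hcon x)
      refine hk (2 * b - 1) (by omega) ⟨c, fun x => hc1 x (mem_univ x), fun x y hxy =>
        hc2 x (mem_univ x) y (mem_univ y) hxy⟩
  have hlow : ∀ n ∈ tSet R.pA, max 1 (2 * b) ≤ n := by
    intro n hn
    by_contra hlt
    push Not at hlt
    rcases Nat.eq_zero_or_pos n with rfl | hpos
    · obtain ⟨f, _⟩ := hn (fun _ _ => False) (fun _ _ h => h.elim)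
        (fun a => a.elim0)
      exact (f R.v).elim0
    · have hb1 : 1 ≤ b := by omega
      have hle : n ≤ 2 * b - 1 := by omega
      obtain ⟨E, hE1, hE2, _, hE4⟩ := reg_tour b hb1
      have hA : Asym (fun a c : Fin n => E (Fin.castLE hle a) (Fin.castLE hle c)) :=
        fun a c h1 h2 => hE1 _ _ h1 h2
      have hT : Tour (fun a c : Fin n => E (Fin.castLE hle a) (Fin.castLE hle c)) :=
        fun a c hac => hE2 _ _ (fun h1 => hac (Fin.castLE_injective hle h1))
      have h1 := hn _ hA hT
      rw [star_iff R h hb hA] at h1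
      obtain ⟨x, hx⟩ := h1
      have h2 : (ins (fun a c : Fin n => E (Fin.castLE hle a) (Fin.castLE hle c)) univ x).card ≤
          (ins E univ (Fin.castLE hle x)).card := by
        refine Finset.card_le_card_of_injOn (Fin.castLE hle) ?_
          (Fin.castLE_injective hle).injOn
        intro y hy
        simp [ins] at hy ⊢
        exact hy
      have h3 := hE4 (Fin.castLE hle x)
      omega
  exact ⟨star_sInf (star_csub_t _ hc) hlow,
    star_sInf hc (fun n hn => hlow n (star_csub_t _ hn))⟩

end Pool.Agent.Work.MP_fcea8e_co.Dom
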