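import Pool.Agent.Work.MP_fcea8e_co.Dom.NumDefs

/-!
# Module TREE: an oriented tree as a rooted tree

`G = SimpleGraph.fromRel T.Adj`, `dep t = G.dist v t`; for `t ≠ v` choose a neighbour `p t` with
`dist v (p t) + 1 = dist v t` (connectedness: the last vertex before `t` on a shortest walk; e.g.
`SimpleGraph.Reachable.exists_walk_length_eq_dist`, `Adj.diff_dist_adj`, or look for a lemma on
`dist`); `p v = v`; `dir t = true` iff `T.Adj (p t) t` (`decide`, classical). The map
`t ↦ s(t, p t)` from `{t ≠ v}` to the edge set is injective (if `s(t, p t) = s(t', p t')`, `t ≠ t'`, then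
`t = p t'`, `t' = p t`, contradiction for the depths) and the edge set has `|κ| - 1` elements
(`SimpleGraph.IsTree.card_edgeFinset`), so it is surjective: every arc `a → b` of `T` has `b = p a` or `a = p b`.
`ho`: `T` has no loops and no opposite arcs, so the direction is determined.
-/

set_option autoImplicit false

namespace Pool.Agent.Work.MP_fcea8e_co.Dom

theorem exists_rt {κ : Type} [Fintype κ] (T : Digraph κ) (ho : Oriented T)
    (ht : (SimpleGraph.fromRel T.Adj).IsTree) (v : κ) : ∃ R : RT κ, Describes R T v := by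
  classical
  obtain ⟨G, hG⟩ : ∃ G : SimpleGraph κ, G = SimpleGraph.fromRel T.Adj := ⟨_, rfl⟩
  rw [← hG] at ht
  have hGadj : ∀ a b, G.Adj a b ↔ a ≠ b ∧ (T.Adj a b ∨ T.Adj b a) := by
    intro a b
    rw [hG, SimpleGraph.fromRel_adj]
  have hex : ∀ t, t ≠ v → ∃ u, G.Adj t u ∧ G.dist u v + 1 = G.dist t v := by
    intro t htv
    obtain ⟨w, hw⟩ := ht.connected.exists_walk_length_eq_dist t v
    cases w with
    | nil => exact absurd rfl htv
    | cons h q =>
      rename_i u
      refine ⟨u, h, ?_⟩
      rw [SimpleGraph.Walk.length_cons] at hw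
      have h1 : G.dist u v ≤ q.length := SimpleGraph.dist_le q
      obtain ⟨q', hq'⟩ := ht.connected.exists_walk_length_eq_dist u v
      have h2 : G.dist t v ≤ (SimpleGraph.Walk.cons h q').length := SimpleGraph.dist_le _
      rw [SimpleGraph.Walk.length_cons] at h2
      omega
  choose! p hp1 hp2 using hex
  have himg : (Finset.univ.erase v).image (fun t => s(t, p t)) = G.edgeFinset := by
    apply Finset.eq_of_subset_of_card_le
    · intro e he
      obtain ⟨t, ht1, ht2⟩ := Finset.mem_image.1 he
      rw [← ht2, SimpleGraph.mem_edgeFinset, SimpleGraph.mem_edgeSet]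
      exact hp1 t (Finset.ne_of_mem_erase ht1)
    · rw [Finset.card_image_of_injOn]
      · rw [Finset.card_erase_of_mem (Finset.mem_univ _), Finset.card_univ]
        have := ht.card_edgeFinset
        omega
      · intro a ha b hb hab
        have ha' := Finset.ne_of_mem_erase (Finset.mem_coe.1 ha)
        have hb' := Finset.ne_of_mem_erase (Finset.mem_coe.1 hb)
        simp only [Sym2.eq_iff] at hab
        rcases hab with h | h
        · exact h.1
        · exfalso
          have h1 := hp2 a ha'
          have h2 := hp2 b hb'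
          rw [h.2] at h1
          rw [← h.1] at h2
          omega
  refine ⟨{ v := v, p := p, dir := fun t => decide (T.Adj (p t) t), dep := fun t => G.dist t v,
            dep_v := by simp, dep_p := hp2 }, rfl, ?_⟩
  intro a b
  simp only [decide_eq_false_iff_not, decide_eq_true_eq]
  constructor
  · intro hab
    have hne : a ≠ b := fun h => ho _ _ hab (h ▸ hab)
    have h1 : s(a, b) ∈ G.edgeFinset := by
      rw [SimpleGraph.mem_edgeFinset, SimpleGraph.mem_edgeSet, hGadj]
      exact ⟨hne, Or.inl hab⟩
    rw [← himg] at h1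
    obtain ⟨t, ht1, ht2⟩ := Finset.mem_image.1 h1
    have ht3 := Finset.ne_of_mem_erase ht1
    simp only [Sym2.eq_iff] at ht2
    rcases ht2 with h | h
    · left
      obtain ⟨h2, h3⟩ := h
      subst h2
      exact ⟨ht3, h3, fun h4 => ho _ _ hab (h3 ▸ h4)⟩
    · right
      obtain ⟨h2, h3⟩ := h
      subst h2
      exact ⟨ht3, h3, h3 ▸ hab⟩
  · rintro (⟨h1, h2, h3⟩ | ⟨h1, h2, h3⟩)
    · have h4 := (hGadj _ _).1 (hp1 a h1)
      rcases h4.2 with h5 | h5
      · exact h2 ▸ h5
      · exact absurd h5 h3
    · rw [← h2]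
      exact h3

end Pool.Agent.Work.MP_fcea8e_co.Dom
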