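import Pool.Agent.Work.MP_fcea8e_co.Dom.Degen
import Pool.Agent.Work.MP_fcea8e_co.Dom.Pull

/-!
# Module UPPER: finiteness and upper bounds from the main proposition

* `finite_sub`: induction on `|S|`. `S = {v}`: `n = 0`, a digraph without a colouring with 0 colours has a
  vertex. Step: `t ∈ S` of maximal depth, `t ≠ v` (otherwise `S = {v}`), no vertex of `S` has parent `t`
  (among those `≠ v`), `S' = S.erase t`, `n = n' + (2 |S| - 1)`. Let `B` = vertices of out-degree `< |S|` (if
  `dir t = true`; in-degree otherwise); it has a colouring with `2|S| - 1` colours (`degen_out`), so the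
  rest (as a subtype) has none with `n'` colours and contains a copy `f` of `S'`; `f (p t)` has at least
  `|S|` out-neighbours in the whole digraph, one of them is not in `f '' S'`.
* `tSet_ne`, `cSet_ne`: from `finite_sub` with `S = univ` or `S` = the ancestors; a tournament of order `n`
  has no colouring with fewer than `n` colours. (If `n ∈ cSet P` then `n ∈ tSet P`.)
* `upper_c`: `n = 2Δ - 1 + a`, `a = sInf (cSet pA) ∈ cSet pA`, `a ≥ 1` (the empty digraph contains nothing). Let
  `E` on `Fin m` have no colouring with fewer than `n` colours, and suppose there is no copy. `Main`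
  gives `Top` and `c`. The digraph on `Top` (transferred to `Fin m'` by `Fintype.equivFin`) contains no
  copy of the ancestor tree, so it has a colouring with `k < a` colours. Together: a colouring with
  `k + (2Δ - 1) < n` colours (shift by `2Δ - 1` on `Top`).
* `upper_t`: `E` a tournament on `Fin n`, `n = 2Δ - 1 + a`, `a = sInf (tSet pA)`. If `|Top| ≥ a`, a subset with `a`
  elements contains a copy of the ancestor tree. So `|Top| < a` and at least `2Δ` vertices are
  coloured with `2Δ - 1` colours, two of them have the same colour and are joined.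
-/

set_option autoImplicit false

namespace Pool.Agent.Work.MP_fcea8e_co.Dom

open Finset

theorem finite_sub {κ : Type} (R : RT κ) (S : Finset κ) (hv : R.v ∈ S)
    (hp : ∀ t ∈ S, t ≠ R.v → R.p t ∈ S) :
    ∃ n, ∀ (V : Type) [Fintype V] (E : V → V → Prop), Asym E → ¬ KC E n →
      ∃ f : κ → V, Set.InjOn f S ∧ ∀ t ∈ S, t ≠ R.v → R.arc E t (f (R.p t)) (f t) := by
  classical
  induction S using Finset.strongInduction with
  | H S ih =>
    by_cases hS : ∃ t ∈ S, t ≠ R.v
    · have hne : (S.erase R.v).Nonempty := by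
        obtain ⟨t, ht, htv⟩ := hS
        exact ⟨t, mem_erase.2 ⟨htv, ht⟩⟩
      obtain ⟨t, ht, hmax⟩ := exists_max_image (S.erase R.v) R.dep hne
      rw [mem_erase] at ht
      obtain ⟨htv, htS⟩ := ht
      have hvS' : R.v ∈ S.erase t := mem_erase.2 ⟨htv.symm, hv⟩
      have hpS' : ∀ t' ∈ S.erase t, t' ≠ R.v → R.p t' ∈ S.erase t := by
        intro t' ht' ht'v
        have h1 := mem_of_mem_erase ht'
        refine mem_erase.2 ⟨fun h => ?_, hp t' h1 ht'v⟩
        have h2 := R.dep_p t' ht'v
        have h3 := hmax t' (mem_erase.2 ⟨ht'v, h1⟩)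
        rw [h] at h2
        omega
      obtain ⟨n, hn⟩ := ih (S.erase t) (erase_ssubset htS) hvS' hpS'
      refine ⟨n + (2 * S.card - 1), fun V _ E hE hKC => ?_⟩
      obtain ⟨B, hB⟩ : ∃ B : Finset V, B = univ.filter (fun x =>
          (R.dir t = true → (outs E univ x).card < S.card) ∧
          (R.dir t = false → (ins E univ x).card < S.card)) := ⟨_, rfl⟩
      have hBm : ∀ x, x ∈ B ↔ ((R.dir t = true → (outs E univ x).card < S.card) ∧
          (R.dir t = false → (ins E univ x).card < S.card)) := by
        intro x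
        rw [hB, mem_filter]
        exact ⟨fun h => h.2, fun h => ⟨mem_univ _, h⟩⟩
      have hcol : ∃ c : V → ℕ, (∀ x ∈ B, c x < 2 * S.card - 1) ∧
          ∀ x ∈ B, ∀ y ∈ B, E x y → c x ≠ c y := by
        cases hd : R.dir t with
        | true =>
          refine degen_out hE (fun x hx => ?_)
          rw [hB, mem_filter] at hx
          exact lt_of_le_of_lt (card_le_card (filter_subset_filter _ (subset_univ _)))
            (hx.2.1 hd)
        | false =>
          refine degen_in hE (fun x hx => ?_)
          rw [hB, mem_filter] at hx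
          exact lt_of_le_of_lt (card_le_card (filter_subset_filter _ (subset_univ _)))
            (hx.2.2 hd)
      obtain ⟨c, hc1, hc2⟩ := hcol
      have hKC' : ¬ KC (fun a b : {x : V // x ∉ B} => E a b) n :=
        fun h => hKC (kc_union c hc1 hc2 h)
      obtain ⟨f, hf1, hf2⟩ := hn {x : V // x ∉ B} (fun a b => E a b)
        (fun a b h1 h2 => hE _ _ h1 h2) hKC'
      have hpt : R.p t ∈ S.erase t := by
        refine mem_erase.2 ⟨fun h => ?_, hp t htS htv⟩
        have h2 := R.dep_p t htv
        rw [h] at h2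
        omega
      have hS1 : (S.erase t).card < S.card := card_lt_card (erase_ssubset htS)
      have hy : ∃ y : V, R.arc E t (f (R.p t)) y ∧ ∀ t' ∈ S.erase t, (f t' : V) ≠ y := by
        have h1 := (f (R.p t)).2
        rw [hBm] at h1
        have himg := card_image_le (s := S.erase t) (f := fun t' => (f t' : V))
        cases hd : R.dir t with
        | true =>
          have h2 : S.card ≤ (outs E univ (f (R.p t) : V)).card := by
            by_contra h3
            exact h1 ⟨fun _ => not_le.1 h3, fun h4 => by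
              rw [hd] at h4
              exact Bool.noConfusion h4⟩
          obtain ⟨y, hy1, hy2⟩ := exists_mem_notMem_of_card_lt_card
            (lt_of_le_of_lt himg (lt_of_lt_of_le hS1 h2))
          rw [outs, mem_filter] at hy1
          refine ⟨y, ⟨fun _ => hy1.2, fun h4 => ?_⟩, fun t' ht' h => hy2
            (mem_image.2 ⟨t', ht', h⟩)⟩
          rw [hd] at h4
          exact Bool.noConfusion h4
        | false =>
          have h2 : S.card ≤ (ins E univ (f (R.p t) : V)).card := by
            by_contra h3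
            exact h1 ⟨fun h4 => by
              rw [hd] at h4
              exact Bool.noConfusion h4, fun _ => not_le.1 h3⟩
          obtain ⟨y, hy1, hy2⟩ := exists_mem_notMem_of_card_lt_card
            (lt_of_le_of_lt himg (lt_of_lt_of_le hS1 h2))
          rw [ins, mem_filter] at hy1
          refine ⟨y, ⟨fun h4 => ?_, fun _ => hy1.2⟩, fun t' ht' h => hy2
            (mem_image.2 ⟨t', ht', h⟩)⟩
          rw [hd] at h4
          exact Bool.noConfusion h4
      obtain ⟨y, hy1, hy2⟩ := hy
      have hupd : ∀ t' ∈ S.erase t, Function.update (fun t' => (f t' : V)) t y t' = f t' := by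
        intro t' ht'
        exact Function.update_of_ne (ne_of_mem_erase ht') _ _
      have hcase : ∀ t' ∈ S, t' = t ∨ t' ∈ S.erase t := by
        intro t' ht'
        by_cases h : t' = t
        · exact Or.inl h
        · exact Or.inr (mem_erase.2 ⟨h, ht'⟩)
      refine ⟨Function.update (fun t' => (f t' : V)) t y, ?_, ?_⟩
      · intro a ha b hb hab
        rcases hcase a ha with ha | ha <;> rcases hcase b hb with hb | hb
        · rw [ha, hb]
        · rw [ha, Function.update_self, hupd b hb] at hab
          exact absurd hab.symm (hy2 b hb)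
        · rw [hb, Function.update_self, hupd a ha] at hab
          exact absurd hab (hy2 a ha)
        · rw [hupd a ha, hupd b hb] at hab
          exact hf1 ha hb (Subtype.ext hab)
      · intro t' ht' ht'v
        rcases hcase t' ht' with h | h
        · rw [h, Function.update_self, hupd _ hpt]
          exact hy1
        · rw [hupd t' h, hupd _ (hpS' t' h ht'v)]
          exact hf2 t' h ht'v
    · push Not at hS
      refine ⟨0, fun V _ E hE hKC => ?_⟩
      obtain ⟨x⟩ := kc_zero hKC
      refine ⟨fun _ => x, ?_, fun t ht htv => absurd (hS t ht) htv⟩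
      intro a ha b hb _
      rw [hS a ha, hS b hb]

theorem cSet_ne {κ : Type} [Fintype κ] (R : RT κ) : (cSet R.pC).Nonempty := by
  obtain ⟨n, hn⟩ := finite_sub R univ (mem_univ _) (fun _ _ _ => mem_univ _)
  refine ⟨n + 1, fun m E hE hK => ?_⟩
  obtain ⟨f, hf1, hf2⟩ := hn (Fin m) E hE (hK n (Nat.lt_succ_self n))
  refine ⟨f, fun a b hab => hf1 (mem_coe.2 (mem_univ a)) (mem_coe.2 (mem_univ b)) hab,
    fun t ht => hf2 t (mem_univ _) ht⟩

theorem cSet_anc_ne {κ : Type} [Fintype κ] (R : RT κ) : (cSet R.pA).Nonempty := by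
  classical
  obtain ⟨n, hn⟩ := finite_sub R (univ.filter (fun t => R.Anc t))
    (mem_filter.2 ⟨mem_univ _, RT.Anc.root⟩)
    (fun t ht htv => mem_filter.2 ⟨mem_univ _, (R.anc_p (mem_filter.1 ht).2 htv).2⟩)
  refine ⟨n + 1, fun m E hE hK => ?_⟩
  obtain ⟨f, hf1, hf2⟩ := hn (Fin m) E hE (hK n (Nat.lt_succ_self n))
  refine ⟨f, ?_, ?_⟩
  · intro a ha b hb hab
    exact hf1 (mem_coe.2 (mem_filter.2 ⟨mem_univ _, ha⟩))
      (mem_coe.2 (mem_filter.2 ⟨mem_univ _, hb⟩)) hab
  · intro t ht hta
    exact (hf2 t (mem_filter.2 ⟨mem_univ _, hta⟩) ht).2 (R.anc_p hta ht).1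

theorem upper_c {κ : Type} [Fintype κ] (R : RT κ) (hΔ : 1 ≤ R.outCh.card) (h : Main R) :
    sInf (cSet R.pC) ≤ 2 * R.outCh.card - 1 + sInf (cSet R.pA) := by
  classical
  have ha := Nat.sInf_mem (cSet_anc_ne R)
  obtain ⟨a, hadef⟩ : ∃ a, a = sInf (cSet R.pA) := ⟨_, rfl⟩
  rw [← hadef] at ha ⊢
  apply Nat.sInf_le
  intro m E hE hK
  by_contra hno
  obtain ⟨Top, hT, c, hc1, hc2⟩ := h (Fin m) E hE hno
  obtain ⟨B, hB⟩ : ∃ B : Finset (Fin m), B = univ \ Top := ⟨_, rfl⟩
  have hBT : ∀ x, x ∉ B ↔ x ∈ Top := by
    intro x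
    rw [hB, mem_sdiff]
    simp
  obtain ⟨e⟩ : Nonempty (Fin (Fintype.card {x : Fin m // x ∉ B}) ≃ {x : Fin m // x ∉ B}) :=
    ⟨(Fintype.equivFin _).symm⟩
  have hex : ∃ k, k < a ∧ KC (fun a b : {x : Fin m // x ∉ B} => E a b) k := by
    by_contra hall
    push Not at hall
    have h1 := ha _ (fun x y => E (e x) (e y)) (fun x y h2 h3 => hE _ _ h2 h3)
      (fun k hk hkc => hall k hk (kc_pull (E := fun a b : {x : Fin m // x ∉ B} => E a b) e hkc))
    obtain ⟨f, hf⟩ := h1
    refine hT ⟨fun t => (e (f t) : Fin m), ?_, ?_⟩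
    · exact ancCopy_pull R (e := fun x => (e x : Fin m))
        (Subtype.val_injective.comp e.injective) hf
    · intro t _
      exact (hBT _).1 (e (f t)).2
  obtain ⟨k, hk, hkc⟩ := hex
  refine hK (k + (2 * R.outCh.card - 1)) (by omega) (kc_union c ?_ ?_ hkc)
  · intro x hx
    exact hc1 x (fun h2 => absurd hx ((hBT x).2 h2))
  · intro x hx y hy hxy
    exact hc2 x y (fun h2 => absurd hx ((hBT x).2 h2)) (fun h2 => absurd hy ((hBT y).2 h2)) hxy

theorem upper_t {κ : Type} [Fintype κ] (R : RT κ) (hΔ : 1 ≤ R.outCh.card) (h : Main R) :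
    sInf (tSet R.pC) ≤ 2 * R.outCh.card - 1 + sInf (tSet R.pA) := by
  classical
  have hne : (tSet R.pA).Nonempty := (cSet_anc_ne R).mono (cSet_sub_tSet _)
  have ha := Nat.sInf_mem hne
  obtain ⟨a, hadef⟩ : ∃ a, a = sInf (tSet R.pA) := ⟨_, rfl⟩
  rw [← hadef] at ha ⊢
  apply Nat.sInf_le
  intro E hE hTour
  by_contra hno
  obtain ⟨Top, hT, c, hc1, hc2⟩ := h _ E hE hno
  rcases Nat.lt_or_ge Top.card a with hlt | hge
  · -- the colouring is injective outside `Top`
    have h1 : (univ \ Top).card ≤ (range (2 * R.outCh.card - 1)).card := by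
      refine card_le_card_of_injOn c ?_ ?_
      · intro x hx
        rw [mem_coe, mem_range]
        exact hc1 x (mem_sdiff.1 (mem_coe.1 hx)).2
      · intro x hx y hy hxy
        by_contra hne'
        have hx' := (mem_sdiff.1 (mem_coe.1 hx)).2
        have hy' := (mem_sdiff.1 (mem_coe.1 hy)).2
        rcases hTour x y hne' with h2 | h2
        · exact hc2 x y hx' hy' h2 hxy
        · exact hc2 y x hy' hx' h2 hxy.symm
    rw [card_range, card_sdiff_of_subset (subset_univ _), card_univ, Fintype.card_fin] at h1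
    omega
  · obtain ⟨A, hA, hAc⟩ := exists_subset_card_eq hge
    have e := (A.equivFinOfCardEq hAc).symm
    have hinj : Function.Injective (fun x : Fin a => (e x : Fin (2 * R.outCh.card - 1 + a))) :=
      Subtype.val_injective.comp e.injective
    obtain ⟨f, hf⟩ := ha _ (asym_pull (fun x : Fin a => (e x : Fin (2 * R.outCh.card - 1 + a))) hE)
      (tour_pull hinj hTour)
    exact hT ⟨_, ancCopy_pull R hinj hf, fun t _ => hA (e (f t)).2⟩

end Pool.Agent.Work.MP_fcea8e_co.Dom
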