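import Pool.Agent.Work.MP_fcea8e_co.Dom.Bound
import Pool.Agent.Work.MP_fcea8e_co.Dom.Tree
import Pool.Agent.Work.MP_fcea8e_co.Dom.Desc
import Pool.Agent.Work.MP_fcea8e_co.Dom.Stack
import Pool.Agent.Work.MP_fcea8e_co.Dom.Upper
import Pool.Agent.Work.MP_fcea8e_co.Dom.Star
import Pool.Agent.Work.MP_fcea8e_co.Dom.Path
import Pool.Agent.Work.MP_fcea8e_co.Dom.Rev

/-!
Assembly of the theorem on oriented trees with a dominating vertex.
-/

set_option autoImplicit false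

namespace Pool.Agent.Work.MP_fcea8e_co.Dom

open Finset

variable {κ : Type} [Fintype κ] {T : Digraph κ} {v : κ}

/-- out-degree -/
noncomputable def outDeg (T : Digraph κ) (v : κ) : ℕ := Nat.card {x : κ // T.Adj v x}

/-- in-degree -/
noncomputable def inDeg (T : Digraph κ) (v : κ) : ℕ := Nat.card {x : κ // T.Adj x v}

theorem reduction {s : ℕ} (ho : Oriented T) (ht : (SimpleGraph.fromRel T.Adj).IsTree)
    (hΔ : 1000 ^ ((s + 4) ^ 2) ≤ outDeg T v) (hs : Fintype.card κ ≤ outDeg T v + 1 + s) :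
    tNum T = 2 * outDeg T v - 1 + tNum (anc T v) ∧
    cNum T = 2 * outDeg T v - 1 + cNum (anc T v) := by
  obtain ⟨R, hR⟩ := exists_rt T ho ht v
  have h1 : R.outCh.card = outDeg T v := outCh_card hR
  have h2 : 1 ≤ 1000 ^ ((s + 4) ^ 2) := Nat.one_le_pow _ _ (by norm_num)
  have hpos : 1 ≤ R.outCh.card := by omega
  have hmain : Main R := main_prop' s κ R (by omega) (by omega)
  have hc := cSet_ne R
  have ht' : (tSet R.pC).Nonempty := hc.mono (cSet_sub_tSet _)
  rw [tNum_eq hR, cNum_eq hR, tNum_anc_eq hR, cNum_anc_eq hR, ← h1]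
  exact ⟨le_antisymm (upper_t R hpos hmain) (lower_t R hpos ht'),
    le_antisymm (upper_c R hpos hmain) (lower_c R hpos hc)⟩

theorem anc_star (ho : Oriented T) (ht : (SimpleGraph.fromRel T.Adj).IsTree)
    (h : ∀ u w, T.Adj u v → ¬ T.Adj w u) :
    tNum (anc T v) = max 1 (2 * inDeg T v) ∧ cNum (anc T v) = max 1 (2 * inDeg T v) := by
  classical
  obtain ⟨R, hR⟩ := exists_rt T ho ht v
  rw [tNum_anc_eq hR, cNum_anc_eq hR]
  refine star_num R ?_ ?_
  · intro t hta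
    induction hta with
    | root => exact Or.inl rfl
    | step t h1 h2 h3 ih =>
      right
      by_contra hne
      rcases ih with ih | ih
      · exact hne ih
      · have h4 := R.anc_p h3 hne
        have h5 : T.Adj (R.p t) v :=
          (hR.2 _ _).2 (Or.inl ⟨hR.1 ▸ hne, ih.trans hR.1, h4.1⟩)
        have h6 : T.Adj t (R.p t) := (hR.2 _ _).2 (Or.inl ⟨hR.1 ▸ h1, rfl, h2⟩)
        exact h _ _ h5 h6
  · symm
    refine Nat.subtype_card _ (fun x => ?_)
    rw [mem_filter, hR.2]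
    constructor
    · rintro ⟨_, h1, h2, h3⟩
      exact Or.inl ⟨hR.1 ▸ h1, h2.trans hR.1, h3⟩
    · rintro (⟨h1, h2, h3⟩ | ⟨h1, _⟩)
      · exact ⟨mem_univ _, hR.1.symm ▸ h1, h2.trans hR.1.symm, h3⟩
      · exact absurd rfl h1

theorem anc_path (ho : Oriented T) (ht : (SimpleGraph.fromRel T.Adj).IsTree)
    (h : ∀ x y z, Relation.ReflTransGen T.Adj x v → T.Adj y x → T.Adj z x → y = z) :
    tNum (anc T v) = Nat.card {x : κ // Relation.ReflTransGen T.Adj x v} ∧
    cNum (anc T v) = Nat.card {x : κ // Relation.ReflTransGen T.Adj x v} := by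
  obtain ⟨R, hR⟩ := exists_rt T ho ht v
  rw [tNum_anc_eq hR, cNum_anc_eq hR,
    ← Nat.card_congr (Equiv.subtypeEquivRight (anc_iff hR))]
  refine path_num R ?_
  intro t t' h1 h2 h3 h4 h5
  have k1 := R.anc_p h3 h1
  have k2 := R.anc_p h4 h2
  refine h (R.p t) t t' ((anc_iff hR _).1 k1.2) ?_ ?_
  · exact (hR.2 _ _).2 (Or.inl ⟨hR.1 ▸ h1, rfl, k1.1⟩)
  · exact (hR.2 _ _).2 (Or.inl ⟨hR.1 ▸ h2, h5.symm, k2.1⟩)

end Pool.Agent.Work.MP_fcea8e_co.Dom
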