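import Pool.Agent.Work.MP_fcea8e_co.Dom.Final

/-!
The main proposition with an explicit threshold.
-/

set_option autoImplicit false

namespace Pool.Agent.Work.MP_fcea8e_co.Dom

open Finset

theorem cst_le (s h : ℕ) :
    cst s (2 * 1000 ^ (s + 3)) h ≤ 9 * s * (1000 ^ (s + 4)) ^ h := by
  induction h with
  | zero => simp [cst]; omega
  | succ h ih =>
    have h1 : (1 + 2 * (2 * 1000 ^ (s + 3))) + 1 ≤ 1000 ^ (s + 4) := by
      have h2 : 1000 ^ (s + 4) = 1000 * 1000 ^ (s + 3) := by ring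
      have h3 : 0 < 1000 ^ (s + 3) := by positivity
      omega
    have h4 : 2 * s ≤ 9 * s * (1000 ^ (s + 4)) ^ h := by
      have h5 : 1 ≤ (1000 ^ (s + 4)) ^ h := Nat.one_le_pow _ _ (by positivity)
      calc 2 * s ≤ 9 * s * 1 := by omega
        _ ≤ 9 * s * (1000 ^ (s + 4)) ^ h := Nat.mul_le_mul_left _ h5
    rw [cst]
    calc (1 + 2 * (2 * 1000 ^ (s + 3))) * cst s (2 * 1000 ^ (s + 3)) h + 2 * s
        ≤ (1 + 2 * (2 * 1000 ^ (s + 3))) * (9 * s * (1000 ^ (s + 4)) ^ h) +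
          9 * s * (1000 ^ (s + 4)) ^ h := Nat.add_le_add (Nat.mul_le_mul_left _ ih) h4
      _ = ((1 + 2 * (2 * 1000 ^ (s + 3))) + 1) * (9 * s * (1000 ^ (s + 4)) ^ h) := by ring
      _ ≤ 1000 ^ (s + 4) * (9 * s * (1000 ^ (s + 4)) ^ h) := Nat.mul_le_mul_right _ h1
      _ = 9 * s * (1000 ^ (s + 4)) ^ (h + 1) := by ring

theorem small_le (s : ℕ) : 18 * s * s + 33 * s + 60 + 24 * (s + 1) * (s + 2) ≤ 1000 ^ (s + 1) := by
  induction s with
  | zero => norm_num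
  | succ s ih =>
    have h1 : 1000 ^ (s + 1 + 1) = 1000 * 1000 ^ (s + 1) := by ring
    rw [h1]
    nlinarith

theorem D0_le (s : ℕ) : 1000 ^ (s + 3) * (2 * s * cst s (2 * 1000 ^ (s + 3)) (s + 2) + 3 * s + 3) +
    (s + (2 * s + 1) + 12 * (2 * s + 1) * (s + 2) + 1) ≤ 1000 ^ ((s + 4) ^ 2) := by
  have h1 := cst_le s (s + 2)
  obtain ⟨Q, hQ⟩ : ∃ Q, Q = (1000 ^ (s + 4)) ^ (s + 2) := ⟨_, rfl⟩
  obtain ⟨K, hK⟩ : ∃ K, K = 1000 ^ (s + 3) := ⟨_, rfl⟩
  obtain ⟨c, hc⟩ : ∃ c, c = cst s (2 * 1000 ^ (s + 3)) (s + 2) := ⟨_, rfl⟩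
  have hK1 : 1 ≤ K := by rw [hK]; exact Nat.one_le_pow _ _ (by norm_num)
  have hQ1 : 1 ≤ Q := by rw [hQ]; exact Nat.one_le_pow _ _ (by positivity)
  rw [← hQ, ← hc] at h1
  rw [← hc, ← hK]
  have h2 := small_le s
  have h3 : 2 * s * c + 3 * s + 3 ≤ (18 * s * s + 3 * s + 3) * Q := by
    have h4 : 2 * s * c ≤ 2 * s * (9 * s * Q) := Nat.mul_le_mul_left _ h1
    have h5 : 3 * s + 3 ≤ (3 * s + 3) * Q := Nat.le_mul_of_pos_right _ hQ1
    have h6 : 2 * s * (9 * s * Q) + (3 * s + 3) * Q = (18 * s * s + 3 * s + 3) * Q := by ring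
    omega
  have h7 : K * (2 * s * c + 3 * s + 3) + (s + (2 * s + 1) + 12 * (2 * s + 1) * (s + 2) + 1) ≤
      K * Q * 1000 ^ (s + 1) := by
    have h8 : K * (2 * s * c + 3 * s + 3) ≤ K * ((18 * s * s + 3 * s + 3) * Q) :=
      Nat.mul_le_mul_left _ h3
    have h9 : 1 ≤ K * Q := Nat.mul_pos hK1 hQ1
    have h10 : (s + (2 * s + 1) + 12 * (2 * s + 1) * (s + 2) + 1) ≤
        K * Q * (s + (2 * s + 1) + 12 * (2 * s + 1) * (s + 2) + 1) :=
      Nat.le_mul_of_pos_left _ h9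
    calc K * (2 * s * c + 3 * s + 3) + (s + (2 * s + 1) + 12 * (2 * s + 1) * (s + 2) + 1)
        ≤ K * ((18 * s * s + 3 * s + 3) * Q) +
          K * Q * (s + (2 * s + 1) + 12 * (2 * s + 1) * (s + 2) + 1) := Nat.add_le_add h8 h10
      _ = K * Q * ((18 * s * s + 3 * s + 3) +
          (s + (2 * s + 1) + 12 * (2 * s + 1) * (s + 2) + 1)) := by ring
      _ ≤ K * Q * 1000 ^ (s + 1) := by
          apply Nat.mul_le_mul_left
          refine le_trans ?_ h2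
          nlinarith
  refine h7.trans ?_
  rw [hK, hQ, ← pow_mul, ← pow_add, ← pow_add]
  apply Nat.pow_le_pow_right (by norm_num)
  nlinarith

theorem main_prop' (s : ℕ) (κ : Type) [Fintype κ] (R : RT κ)
    (hD : 1000 ^ ((s + 4) ^ 2) ≤ R.outCh.card)
    (hcard : Fintype.card κ ≤ R.outCh.card + 1 + s) : Main R := by
  have hD' := (D0_le s).trans hD
  intro V _ E hE hno
  by_contra hcon
  have hcon' : ∀ Top : Finset V, (¬ ∃ f : κ → V, R.AncCopy E f ∧ ∀ t, R.Anc t → f t ∈ Top) →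
      ¬ ∃ c : V → ℕ, (∀ x, x ∉ Top → c x < 2 * R.outCh.card - 1) ∧
        ∀ x y, x ∉ Top → y ∉ Top → E x y → c x ≠ c y := by
    intro Top h1 h2
    exact hcon ⟨Top, h1, h2⟩
  have hcore := R.card_core hcard
  obtain ⟨C⟩ := prop1 R hE hno (s := s) (q := 2 * s + 1) (by omega) hcore hcard (by omega) hcon'
  have hK : 0 < 1000 ^ (s + 3) := by positivity
  have h1 : 2 * s * cst s (2 * 1000 ^ (s + 3)) (s + 2) + 3 * s + 3 ≤
      R.outCh.card / 1000 ^ (s + 3) := by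
    rw [Nat.le_div_iff_mul_le hK, mul_comm]
    omega
  have h2 : 1000 ^ (s + 3) * (R.outCh.card / 1000 ^ (s + 3)) ≤ R.outCh.card :=
    Nat.mul_div_le _ _
  have h3 : R.outCh.card < 1000 ^ (s + 3) * (R.outCh.card / 1000 ^ (s + 3)) + 1000 ^ (s + 3) := by
    have := Nat.lt_mul_div_succ R.outCh.card hK
    rw [mul_add, mul_one] at this
    exact this
  have h4 : 1000 ^ (s + 3) ≤ 1000 ^ (s + 3) * (R.outCh.card / 1000 ^ (s + 3)) :=
    Nat.le_mul_of_pos_right _ (by omega)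
  refine hno ((prop2 R hE hcard (g := R.outCh.card / 1000 ^ (s + 3)) h2 ?_ ?_ ?_ C).imp
    (fun _ h => h.1))
  · rw [mul_assoc]
    omega
  · omega
  · omega

end Pool.Agent.Work.MP_fcea8e_co.Dom
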