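import Pool.Agent.Work.MP_fcea8e_co.Dom.Recolor

/-!
# Module CLAIMM: few vertices have almost all their out-neighbours (in-neighbours) in `N`

Suppose `|A| > 200 e`; take `M ⊆ A` with `|M| = m = 200 e` (`Finset.exists_subset_card_eq`). Let
`N0 = (N ∩ W) \ I`, `|N0| ≤ D + g`. For `u ∈ A` (first case): `|outs W u| ≥ D - 2g`, fewer than `e` of them are
outside `N`, at most `g` in `N ∩ W ∩ I`, so `u` has at least `D - 3g - e` neighbours in `N0`, and at most
`4g + e` non-neighbours. Let `N1 = {y ∈ N0 : 3 m ≤ 4 |{u ∈ M : H y u}|}`. Every `y ∈ N0 \ N1` has more than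
`m / 4` non-neighbours in `M`, so `|N0 \ N1| ≤ 16 g + 4 e`. Apply `recolor` with `n = 2D - 1`,
`R = D - 20 g - 5 e`:
* `hdeg`: for `S ⊆ M` the sum of the degrees in `S` is twice the sum of `|outs S u| ≤ |outs (W \ N) u| < e`
  (`S ⊆ W \ N`; in the second case use `ins`), `hE`: a neighbour is an out- or an in-neighbour, not both.
* `hMres`: `deg_X u ≤ 2D + g - 1` and `u` has at least `D - 19 g - 5 e` neighbours in `N1`.
* `hR`: `2D - 1 + 400 e ≤ 4D - 80 g - 20 e`. * `hNres`: `2 (2D + g - 1) + 200 e + 2 ≤ 2 (2D - 1) + 300 e`.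
The statement uses `H x y ↔ E x y ∨ E y x` for `x ∈ W`, `y ∈ X`; so `|filter (H u) X| = |outs X u| + |ins X u|`.
-/

set_option autoImplicit false

namespace Pool.Agent.Work.MP_fcea8e_co.Dom

open Finset

private theorem sum_deg_le {V : Type} {E H : V → V → Prop} {S : Finset V} {e : ℕ}
    (hH : ∀ x ∈ S, ∀ y ∈ S, (H x y ↔ E x y ∨ E y x)) (hne : S.Nonempty)
    (hcase : (∀ u ∈ S, (outs E S u).card < e) ∨ (∀ u ∈ S, (ins E S u).card < e)) :
    ∃ u ∈ S, (open Classical in S.filter (fun y => H u y)).card ≤ 2 * e := by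
  classical
  by_contra hcon
  push Not at hcon
  have hsum : ∑ x ∈ S, (outs E S x).card = ∑ y ∈ S, (ins E S y).card :=
    sum_card_bipartiteAbove_eq_sum_card_bipartiteBelow (s := S) (t := S) (fun a b => E a b)
  have h1 : ∀ u ∈ S, (S.filter (fun y => H u y)).card ≤ (outs E S u).card + (ins E S u).card := by
    intro u hu
    refine le_trans (card_le_card ?_) (card_union_le _ _)
    intro y hy
    rw [mem_filter] at hy
    rw [mem_union, outs, ins, mem_filter, mem_filter]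
    rcases (hH u hu y hy.1).1 hy.2 with h | h
    · exact Or.inl ⟨hy.1, h⟩
    · exact Or.inr ⟨hy.1, h⟩
  have h2 : S.card * (2 * e + 1) ≤
      ∑ u ∈ S, (outs E S u).card + ∑ u ∈ S, (ins E S u).card := by
    rw [← sum_add_distrib, ← smul_eq_mul, ← sum_const]
    exact sum_le_sum fun u hu => (Nat.succ_le_of_lt (hcon u hu)).trans (h1 u hu)
  have hpos : 0 < S.card := hne.card_pos
  rcases hcase with hc | hc
  · have h3 : ∑ u ∈ S, (outs E S u).card ≤ ∑ u ∈ S, e := sum_le_sum fun u hu => (hc u hu).le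
    rw [sum_const, smul_eq_mul] at h3
    have h4 : S.card * (2 * e + 1) = 2 * (S.card * e) + S.card := by ring
    omega
  · have h3 : ∑ u ∈ S, (ins E S u).card ≤ ∑ u ∈ S, e := sum_le_sum fun u hu => (hc u hu).le
    rw [sum_const, smul_eq_mul] at h3
    have h4 : S.card * (2 * e + 1) = 2 * (S.card * e) + S.card := by ring
    omega

open Classical in
private theorem deg_N0 {V : Type} {E H : V → V → Prop} {X W I N : Finset V} (hWX : W ⊆ X)
    (hH : ∀ x ∈ W, ∀ y ∈ X, (H x y ↔ E x y ∨ E y x)) {D g e : ℕ}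
    (hNI : (N ∩ W ∩ I).card ≤ g) {u : V} (hu : u ∈ W)
    (hcase : (D ≤ (outs E W u).card + 2 * g ∧ (outs E (W \ N) u).card < e) ∨
      (D ≤ (ins E W u).card + 2 * g ∧ (ins E (W \ N) u).card < e)) :
    D ≤ (((N ∩ W) \ I).filter (fun y => H u y)).card + 3 * g + e := by
  rcases hcase with ⟨h1, h2⟩ | ⟨h1, h2⟩
  · have h3 : outs E W u ⊆ outs E (W \ N) u ∪ (N ∩ W ∩ I) ∪
        ((N ∩ W) \ I).filter (fun y => H u y) := by
      intro y hy
      rw [outs, mem_filter] at hy
      rw [mem_union, mem_union, outs, mem_filter, mem_filter, mem_sdiff, mem_sdiff, mem_inter,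
        mem_inter]
      by_cases hyN : y ∈ N
      · by_cases hyI : y ∈ I
        · exact Or.inl (Or.inr ⟨⟨hyN, hy.1⟩, hyI⟩)
        · exact Or.inr ⟨⟨⟨hyN, hy.1⟩, hyI⟩, (hH u hu y (hWX hy.1)).2 (Or.inl hy.2)⟩
      · exact Or.inl (Or.inl ⟨⟨hy.1, hyN⟩, hy.2⟩)
    have h4 := card_le_card h3
    have h5 := card_union_le (outs E (W \ N) u ∪ (N ∩ W ∩ I))
      (((N ∩ W) \ I).filter (fun y => H u y))
    have h6 := card_union_le (outs E (W \ N) u) (N ∩ W ∩ I)
    omega
  · have h3 : ins E W u ⊆ ins E (W \ N) u ∪ (N ∩ W ∩ I) ∪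
        ((N ∩ W) \ I).filter (fun y => H u y) := by
      intro y hy
      rw [ins, mem_filter] at hy
      rw [mem_union, mem_union, ins, mem_filter, mem_filter, mem_sdiff, mem_sdiff, mem_inter,
        mem_inter]
      by_cases hyN : y ∈ N
      · by_cases hyI : y ∈ I
        · exact Or.inl (Or.inr ⟨⟨hyN, hy.1⟩, hyI⟩)
        · exact Or.inr ⟨⟨⟨hyN, hy.1⟩, hyI⟩, (hH u hu y (hWX hy.1)).2 (Or.inr hy.2)⟩
      · exact Or.inl (Or.inl ⟨⟨hy.1, hyN⟩, hy.2⟩)
    have h4 := card_le_card h3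
    have h5 := card_union_le (ins E (W \ N) u ∪ (N ∩ W ∩ I))
      (((N ∩ W) \ I).filter (fun y => H u y))
    have h6 := card_union_le (ins E (W \ N) u) (N ∩ W ∩ I)
    omega

open Classical in
theorem claimM {V : Type} {E : V → V → Prop} (hE : Asym E) {H : V → V → Prop} {L : V → Finset ℕ}
    (hs : ∀ x y, H x y → H y x) (hi : ∀ x, ¬ H x x) {X W I N A : Finset V} (hX : Crit H L X)
    (hWX : W ⊆ X) (hH : ∀ x ∈ W, ∀ y ∈ X, (H x y ↔ E x y ∨ E y x)) {D g e : ℕ}
    (hL : ∀ x ∈ W, L x = range (2 * D - 1)) (hg : 1 ≤ g) (hge : g ≤ e) (heD : 250 * e ≤ D)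
    (ha : ∀ u ∈ W, u ∉ I → D ≤ (outs E W u).card + 2 * g)
    (hb : ∀ u ∈ W, u ∉ I → D ≤ (ins E W u).card + 2 * g)
    (hc : ∀ u ∈ W, u ∉ I → (outs E X u).card + (ins E X u).card < 2 * D + g)
    (hN : N.card ≤ D + g) (hNI : (N ∩ W ∩ I).card ≤ g) (hAW : A ⊆ W) (hAI : Disjoint A I)
    (hAN : Disjoint A N)
    (hcase : (∀ u ∈ A, (outs E (W \ N) u).card < e) ∨ (∀ u ∈ A, (ins E (W \ N) u).card < e)) :
    A.card ≤ 200 * e := by
  by_contra hcon
  push Not at hcon
  obtain ⟨M, hMA, hMc⟩ := exists_subset_card_eq hcon.le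
  have hMW : M ⊆ W := hMA.trans hAW
  set N0 := (N ∩ W) \ I with hN0
  set N1 := N0.filter (fun y => 3 * (200 * e) ≤ 4 * (M.filter (fun u => H y u)).card) with hN1
  have hN0W : N0 ⊆ W := fun y hy => (mem_inter.1 (mem_sdiff.1 hy).1).2
  have hN1N0 : N1 ⊆ N0 := filter_subset _ _
  have hN0I : ∀ y ∈ N0, y ∉ I := fun y hy => (mem_sdiff.1 hy).2
  have hMI : ∀ u ∈ M, u ∉ I := fun u hu h => disjoint_left.1 hAI (hMA hu) h
  have hMN : ∀ u ∈ M, u ∉ N := fun u hu h => disjoint_left.1 hAN (hMA hu) h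
  have he : 1 ≤ e := hg.trans hge
  have hN0c : N0.card ≤ D + g :=
    (card_le_card (fun y hy => (mem_inter.1 (mem_sdiff.1 hy).1).1)).trans hN
  have hdeg0 : ∀ u ∈ M, D ≤ (N0.filter (fun y => H u y)).card + 3 * g + e := by
    intro u hu
    refine deg_N0 hWX hH hNI (hMW hu) ?_
    rcases hcase with hc | hc
    · exact Or.inl ⟨ha u (hMW hu) (hMI u hu), hc u (hMA hu)⟩
    · exact Or.inr ⟨hb u (hMW hu) (hMI u hu), hc u (hMA hu)⟩
  have hdegX : ∀ u ∈ W, u ∉ I → (X.filter (fun y => H u y)).card < 2 * D + g := by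
    intro u hu huI
    refine lt_of_le_of_lt (le_trans (card_le_card ?_) (card_union_le _ _)) (hc u hu huI)
    intro y hy
    rw [mem_filter] at hy
    rw [mem_union, outs, ins, mem_filter, mem_filter]
    rcases (hH u hu y hy.1).1 hy.2 with h | h
    · exact Or.inl ⟨hy.1, h⟩
    · exact Or.inr ⟨hy.1, h⟩
  -- few exceptional vertices in N0
  have hexc : (N0 \ N1).card ≤ 16 * g + 4 * e := by
    have h1 : ∀ y ∈ N0 \ N1, 200 * e ≤ 4 * (M.filter (fun u => ¬ H y u)).card := by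
      intro y hy
      rw [mem_sdiff, hN1, mem_filter, not_and, not_le] at hy
      have h2 := hy.2 hy.1
      have h3 := card_filter_add_card_filter_not (s := M) (fun u => H y u)
      omega
    have h2 : (N0 \ N1).card * (200 * e) ≤ 4 * ∑ y ∈ N0, (M.filter (fun u => ¬ H y u)).card := by
      rw [mul_sum, ← smul_eq_mul, ← sum_const]
      exact (sum_le_sum h1).trans (sum_le_sum_of_subset sdiff_subset)
    have h3 : ∑ y ∈ N0, (M.filter (fun u => ¬ H y u)).card =
        ∑ u ∈ M, (N0.filter (fun y => ¬ H y u)).card :=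
      sum_card_bipartiteAbove_eq_sum_card_bipartiteBelow (s := N0) (t := M) (fun a b => ¬ H a b)
    have h4 : ∀ u ∈ M, (N0.filter (fun y => ¬ H y u)).card ≤ 4 * g + e := by
      intro u hu
      have h5 := card_filter_add_card_filter_not (s := N0) (fun y => H u y)
      have h6 := hdeg0 u hu
      have h7 : N0.filter (fun y => ¬ H y u) = N0.filter (fun y => ¬ H u y) :=
        filter_congr fun y _ => not_congr ⟨hs _ _, hs _ _⟩
      rw [h7]
      omega
    have h5 : ∑ u ∈ M, (N0.filter (fun y => ¬ H y u)).card ≤ (200 * e) * (4 * g + e) := by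
      calc _ ≤ ∑ _u ∈ M, (4 * g + e) := sum_le_sum h4
        _ = _ := by rw [sum_const, smul_eq_mul, hMc]
    rw [h3] at h2
    have h6 : (N0 \ N1).card * (200 * e) ≤ (16 * g + 4 * e) * (200 * e) := by
      calc _ ≤ 4 * ((200 * e) * (4 * g + e)) := h2.trans (Nat.mul_le_mul_left 4 h5)
        _ = _ := by ring
    exact Nat.le_of_mul_le_mul_right h6 (by omega)
  have hdeg1 : ∀ u ∈ M, D ≤ (N1.filter (fun y => H u y)).card + 19 * g + 5 * e := by
    intro u hu
    have h1 := hdeg0 u hu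
    have h2 : N0.filter (fun y => H u y) ⊆ N1.filter (fun y => H u y) ∪ (N0 \ N1) := by
      intro y hy
      rw [mem_filter] at hy
      rw [mem_union, mem_filter, mem_sdiff]
      by_cases hy1 : y ∈ N1
      · exact Or.inl ⟨hy1, hy.2⟩
      · exact Or.inr ⟨hy.1, hy1⟩
    have h3 := (card_le_card h2).trans (card_union_le _ _)
    omega
  refine recolor hs hi hX (M := M) (N1 := N1) (n := 2 * D - 1) (m := 200 * e) (e := e)
    (R := D - 20 * g - 5 * e) (hMW.trans hWX) ((hN1N0.trans hN0W).trans hWX) ?_ ?_ hMc (by omega)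
    ?_ ?_ (by omega) ?_
  · rw [disjoint_left]
    intro x hx hx1
    exact hMN x hx (mem_inter.1 (mem_sdiff.1 (hN1N0 hx1)).1).1
  · intro x hx
    rcases mem_union.1 hx with hx | hx
    · exact hL x (hMW hx)
    · exact hL x (hN0W (hN1N0 hx))
  · intro S hS hne
    have hSW : S ⊆ W \ N := fun x hx => mem_sdiff.2 ⟨hMW (hS hx), hMN x (hS hx)⟩
    refine sum_deg_le (E := E) (fun x hx y hy => hH x (hMW (hS hx)) y (hWX (hMW (hS hy)))) hne ?_
    rcases hcase with hc' | hc'
    · exact Or.inl fun u hu => lt_of_le_of_lt (card_le_card (filter_subset_filter _ hSW))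
        (hc' u (hMA (hS hu)))
    · exact Or.inr fun u hu => lt_of_le_of_lt (card_le_card (filter_subset_filter _ hSW))
        (hc' u (hMA (hS hu)))
  · intro u hu
    have h1 := hdegX u (hMW hu) (hMI u hu)
    have h2 := hdeg1 u hu
    have h3 : (N1.filter (fun y => H u y)).card ≤ ((M ∪ N1).filter (fun y => H u y)).card :=
      card_le_card (filter_subset_filter _ subset_union_right)
    omega
  · intro y hy
    have h1 := hdegX y (hN0W (hN1N0 hy)) (hN0I y (hN1N0 hy))
    have h2 : 3 * (200 * e) ≤ 4 * (M.filter (fun u => H y u)).card := (mem_filter.1 hy).2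
    omega

end Pool.Agent.Work.MP_fcea8e_co.Dom
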