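import Mathlib

/-!
Definitions for the theorem on oriented trees with a dominating vertex (fixed, do not change).
Rooted oriented trees, copies, list colourings.
-/

set_option autoImplicit false

namespace Pool.Agent.Work.MP_fcea8e_co.Dom

open Finset

/-- no loops and no pairs of opposite arcs -/
def Asym {V : Type} (E : V → V → Prop) : Prop := ∀ a b, E a b → ¬ E b a

/-- A rooted tree with directed edges: `v` is the root, `p t` the parent of `t`, `dep t` the depth,
`dir t = true` if the edge between `p t` and `t` is the arc `p t → t`. -/
structure RT (κ : Type) where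
  v : κ
  p : κ → κ
  dir : κ → Bool
  dep : κ → ℕ
  dep_v : dep v = 0
  dep_p : ∀ t, t ≠ v → dep (p t) + 1 = dep t

namespace RT

variable {κ : Type} (R : RT κ)

/-- the arc of the edge above `t`, when `p t` is at `x` and `t` is at `y` -/
def arc {V : Type} (E : V → V → Prop) (t : κ) (x y : V) : Prop :=
  (R.dir t = true → E x y) ∧ (R.dir t = false → E y x)

/-- a copy of the tree in the digraph `E` -/
def Copy {V : Type} (E : V → V → Prop) (f : κ → V) : Prop :=
  Function.Injective f ∧ ∀ t, t ≠ R.v → R.arc E t (f (R.p t)) (f t)

/-- the ancestors of the root: the vertices with a directed path to the root -/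
inductive Anc : κ → Prop
  | root : Anc R.v
  | step (t : κ) : t ≠ R.v → R.dir t = false → Anc (R.p t) → Anc t

/-- a copy of the tree of the ancestors of the root (values of `f` outside do not matter) -/
def AncCopy {V : Type} (E : V → V → Prop) (f : κ → V) : Prop :=
  Set.InjOn f {t | R.Anc t} ∧ ∀ t, t ≠ R.v → R.Anc t → E (f t) (f (R.p t))

open Classical in
/-- the out-neighbours of the root in the tree -/
noncomputable def outCh [Fintype κ] : Finset κ :=
  univ.filter (fun t => t ≠ R.v ∧ R.p t = R.v ∧ R.dir t = true)

open Classical in
/-- the out-neighbours of the root which are leaves -/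
noncomputable def leaves [Fintype κ] : Finset κ :=
  univ.filter (fun t => t ≠ R.v ∧ R.p t = R.v ∧ R.dir t = true ∧ ∀ t', t' ≠ R.v → R.p t' ≠ t)

open Classical in
/-- all other vertices -/
noncomputable def core [Fintype κ] : Finset κ := univ.filter (fun t => t ∉ R.leaves)

end RT

section graph

variable {V : Type}

open Classical in
/-- out-neighbours in `S` -/
noncomputable def outs (E : V → V → Prop) (S : Finset V) (x : V) : Finset V :=
  S.filter (fun y => E x y)

open Classical in
/-- in-neighbours in `S` -/
noncomputable def ins (E : V → V → Prop) (S : Finset V) (x : V) : Finset V :=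
  S.filter (fun y => E y x)

/-- `S` can be coloured from the lists `L` so that `H`-adjacent vertices have different colours -/
def Col (H : V → V → Prop) (L : V → Finset ℕ) (S : Finset V) : Prop :=
  ∃ c : V → ℕ, (∀ x ∈ S, c x ∈ L x) ∧ ∀ x ∈ S, ∀ y ∈ S, H x y → c x ≠ c y

/-- `X` is minimal among the sets which cannot be coloured -/
def Crit (H : V → V → Prop) (L : V → Finset ℕ) (X : Finset V) : Prop :=
  ¬ Col H L X ∧ ∀ Y, Y ⊂ X → Col H L Y

end graph

end Pool.Agent.Work.MP_fcea8e_co.Dom
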