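import Pool.Agent.Work.MP_fcea8e_co.Dom.Defs

/-!
# Module EXT: greedy extension of an embedding

`K0 ⊆ K` are sets of vertices of the tree closed under taking parents, `P t x` says that `t` may be
mapped to `x`. If every allowed image `x` of `p t` has at least `|K|` neighbours `y` in the right
direction which are allowed images of `t`, then the embedding `f0` of `K0` extends to `K`.
Proof: prove for all `S`, `K0 ⊆ S ⊆ K`, `S` closed under parents, that `f0` extends to `S`, by
induction on `|S \ K0|`... or upwards: if `S ≠ K` take `t ∈ K \ S` of minimal depth; `t ≠ v` since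
`v ∈ K0`, `p t ∈ K` has smaller depth, so `p t ∈ S`; the set of possible images of `t` has at least
`|K| > |S|` elements, so one of them is not in `f '' S`; update `f` at `t`. (For
instance strong induction on `|K \ S|`: for all `S` and `f` on `S` there is an extension to `K`.)
-/

set_option autoImplicit false

namespace Pool.Agent.Work.MP_fcea8e_co.Dom

open Finset

open Classical in
theorem ext_emb {κ V : Type} [Fintype V] (R : RT κ) (E : V → V → Prop) (K0 K : Finset κ)
    (h0 : K0 ⊆ K) (hv : R.v ∈ K0) (hp0 : ∀ t ∈ K0, t ≠ R.v → R.p t ∈ K0)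
    (hp : ∀ t ∈ K, t ≠ R.v → R.p t ∈ K) (P : κ → V → Prop) (f0 : κ → V)
    (hinj : Set.InjOn f0 K0) (harc : ∀ t ∈ K0, t ≠ R.v → R.arc E t (f0 (R.p t)) (f0 t))
    (hP : ∀ t ∈ K0, P t (f0 t))
    (hext : ∀ t ∈ K, t ∉ K0 → ∀ x, P (R.p t) x →
      K.card ≤ (univ.filter (fun y => P t y ∧ R.arc E t x y)).card) :
    ∃ f : κ → V, Set.InjOn f K ∧ (∀ t ∈ K0, f t = f0 t) ∧
      (∀ t ∈ K, t ≠ R.v → R.arc E t (f (R.p t)) (f t)) ∧ ∀ t ∈ K, P t (f t) := by
  have key : ∀ n : ℕ, ∀ (S : Finset κ) (f : κ → V), (K \ S).card = n → K0 ⊆ S → S ⊆ K →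
      (∀ t ∈ S, t ≠ R.v → R.p t ∈ S) → Set.InjOn f S → (∀ t ∈ K0, f t = f0 t) →
      (∀ t ∈ S, t ≠ R.v → R.arc E t (f (R.p t)) (f t)) → (∀ t ∈ S, P t (f t)) →
      ∃ g : κ → V, Set.InjOn g K ∧ (∀ t ∈ K0, g t = f0 t) ∧
        (∀ t ∈ K, t ≠ R.v → R.arc E t (g (R.p t)) (g t)) ∧ ∀ t ∈ K, P t (g t) := by
    intro n
    induction n with
    | zero =>
      intro S f hn h1 h2 h3 h4 h5 h6 h7
      have hSK : S = K :=
        Subset.antisymm h2 (sdiff_eq_empty_iff_subset.1 (card_eq_zero.1 hn))
      subst hSK
      exact ⟨f, h4, h5, h6, h7⟩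
    | succ n ih =>
      intro S f hn h1 h2 h3 h4 h5 h6 h7
      have hne : (K \ S).Nonempty := card_pos.1 (by omega)
      obtain ⟨t, ht, hmin⟩ := exists_min_image (K \ S) R.dep hne
      rw [mem_sdiff] at ht
      have htv : t ≠ R.v := fun h => ht.2 (h1 (h ▸ hv))
      have hpt : R.p t ∈ S := by
        by_contra hps
        have k1 := hmin (R.p t) (mem_sdiff.2 ⟨hp t ht.1 htv, hps⟩)
        have k2 := R.dep_p t htv
        omega
      have hcard := hext t ht.1 (fun h => ht.2 (h1 h)) (f (R.p t)) (h7 _ hpt)
      have hlt : (S.image f).card <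
          (univ.filter (fun y => P t y ∧ R.arc E t (f (R.p t)) y)).card := by
        have k1 : S.card < K.card := card_lt_card ⟨h2, fun h => ht.2 (h ht.1)⟩
        have k2 := card_image_le (s := S) (f := f)
        omega
      obtain ⟨y, hy1, hy2⟩ := exists_mem_notMem_of_card_lt_card hlt
      rw [mem_filter] at hy1
      have hupd : ∀ t' ∈ S, Function.update f t y t' = f t' := by
        intro t' ht'
        have hne' : t' ≠ t := by
          intro h
          rw [h] at ht'
          exact ht.2 ht'
        exact Function.update_of_ne hne' _ _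
      have hys : ∀ t' ∈ S, f t' ≠ y := fun t' ht' h => hy2 (mem_image.2 ⟨t', ht', h⟩)
      refine ih (insert t S) (Function.update f t y) ?_ (h1.trans (subset_insert _ _))
        (insert_subset ht.1 h2) ?_ ?_ ?_ ?_ ?_
      · have k1 : K \ insert t S = (K \ S).erase t := by
          ext x
          simp only [mem_sdiff, mem_insert, mem_erase, not_or]
          tauto
        rw [k1, card_erase_of_mem (mem_sdiff.2 ht), hn]
        rfl
      · intro t' ht' ht'v
        rw [mem_insert] at ht' ⊢
        rcases ht' with h | h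
        · rw [h]
          exact Or.inr hpt
        · exact Or.inr (h3 t' h ht'v)
      · intro a ha b hb hab
        rw [mem_coe, mem_insert] at ha hb
        rcases ha with ha | ha <;> rcases hb with hb | hb
        · rw [ha, hb]
        · rw [ha, Function.update_self, hupd b hb] at hab
          exact absurd hab.symm (hys b hb)
        · rw [hb, Function.update_self, hupd a ha] at hab
          exact absurd hab (hys a ha)
        · rw [hupd a ha, hupd b hb] at hab
          exact h4 ha hb hab
      · intro t' ht'
        rw [hupd t' (h1 ht')]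
        exact h5 t' ht'
      · intro t' ht' ht'v
        rw [mem_insert] at ht'
        rcases ht' with h | h
        · subst h
          rw [Function.update_self, hupd _ hpt]
          exact hy1.2.2
        · rw [hupd t' h, hupd _ (h3 t' h ht'v)]
          exact h6 t' h ht'v
      · intro t' ht'
        rw [mem_insert] at ht'
        rcases ht' with h | h
        · subst h
          rw [Function.update_self]
          exact hy1.2.1
        · rw [hupd t' h]
          exact h7 t' h
  exact key _ K0 f0 rfl (Subset.refl _) h0 hp0 hinj (fun _ _ => rfl) harc hP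

end Pool.Agent.Work.MP_fcea8e_co.Dom
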