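import Pool.Agent.Work.MP_fcea8e_co.Dom.Facts

/-!
# Module LEAF: adding the leaves at the root

An embedding `f` of the core extends to the whole tree if there are enough out-neighbours of `f v`
outside the image of the core: take an injection of `leaves` into this set
(`Finset.exists_...`/`Function.Embedding` from the inequality of cardinalities) and glue. For `t`
in `leaves`: `p t = v`, `dir t = true`. For `t ≠ v` in the core: `p t` is in the core (`core_p`).
-/

set_option autoImplicit false

namespace Pool.Agent.Work.MP_fcea8e_co.Dom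

open Finset

open Classical in
theorem copy_of_core {κ V : Type} [Fintype κ] [Fintype V] (R : RT κ) (E : V → V → Prop) (f : κ → V)
    (hinj : Set.InjOn f R.core) (harc : ∀ t ∈ R.core, t ≠ R.v → R.arc E t (f (R.p t)) (f t))
    (hcard : R.leaves.card ≤ ((outs E univ (f R.v)) \ (R.core.image f)).card) :
    ∃ g : κ → V, R.Copy E g ∧ g R.v = f R.v := by
  have hc : Fintype.card R.leaves ≤ Fintype.card ((outs E univ (f R.v) \ R.core.image f) :
      Finset V) := by
    rw [Fintype.card_coe, Fintype.card_coe]
    exact hcard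
  obtain ⟨e⟩ := Function.Embedding.nonempty_of_card_le hc
  obtain ⟨g, hg⟩ : ∃ g : κ → V, g = fun t => if h : t ∈ R.leaves then (e ⟨t, h⟩ : V) else f t :=
    ⟨_, rfl⟩
  have hgl : ∀ t (h : t ∈ R.leaves), g t = e ⟨t, h⟩ := by
    intro t h
    rw [hg]
    simp only [h, dite_true]
  have hgc : ∀ t, t ∉ R.leaves → g t = f t := by
    intro t h
    rw [hg]
    simp only [h, dite_false]
  have hcore : ∀ t, t ∉ R.leaves → t ∈ R.core := by
    intro t ht
    rw [RT.core, mem_filter]
    exact ⟨mem_univ _, ht⟩
  have hcore' : ∀ t, t ∈ R.core → t ∉ R.leaves := by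
    intro t ht
    rw [RT.core, mem_filter] at ht
    exact ht.2
  have hmem : ∀ t (h : t ∈ R.leaves), E (f R.v) (g t) ∧ ∀ t' ∈ R.core, f t' ≠ g t := by
    intro t h
    have k1 := (e ⟨t, h⟩).2
    rw [← hgl t h, mem_sdiff, outs, mem_filter] at k1
    exact ⟨k1.1.2, fun t' ht' h' => k1.2 (mem_image.2 ⟨t', ht', h'⟩)⟩
  refine ⟨g, ⟨?_, ?_⟩, hgc R.v (hcore' _ R.v_mem_core)⟩
  · intro a b hab
    by_cases ha : a ∈ R.leaves
    · by_cases hb : b ∈ R.leaves
      · rw [hgl a ha, hgl b hb] at hab
        have k1 := e.injective (Subtype.ext hab)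
        exact congrArg Subtype.val k1
      · rw [hgc b hb] at hab
        exact absurd hab.symm ((hmem a ha).2 b (hcore b hb))
    · by_cases hb : b ∈ R.leaves
      · rw [hgc a ha] at hab
        exact absurd hab ((hmem b hb).2 a (hcore a ha))
      · rw [hgc a ha, hgc b hb] at hab
        exact hinj (hcore a ha) (hcore b hb) hab
  · intro t htv
    by_cases ht : t ∈ R.leaves
    · have k1 := (hmem t ht).1
      rw [RT.leaves, mem_filter] at ht
      rw [ht.2.2.1, hgc R.v (hcore' _ R.v_mem_core)]
      refine ⟨fun _ => k1, fun h => ?_⟩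
      rw [ht.2.2.2.1] at h
      exact Bool.noConfusion h
    · have k1 := harc t (hcore t ht) htv
      rw [hgc t ht, hgc _ (hcore' _ (R.core_p (hcore t ht) htv))]
      exact k1

end Pool.Agent.Work.MP_fcea8e_co.Dom
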