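import Pool.Agent.Work.MP_fcea8e_co.Dom.Facts
import Pool.Agent.Work.MP_fcea8e_co.Dom.Ext
import Pool.Agent.Work.MP_fcea8e_co.Dom.Leaf

/-!
# Module EMBEDZ: the embedding at a vertex `z` of large out-degree

`N = outs E univ z`. `G h` (`1 ≤ h ≤ J`) are sets such that every `u ∈ G (h+1)` has many out- and in-neighbours in
`G h \ N`, and `z` has many out- and in-neighbours in `G J`. Apply `ext_emb` with `K0 = {v}`, `K = core`,
`f0 = fun _ => z`, and `P t x := (t = v → x = z) ∧ (t ≠ v → x ∈ G (J + 1 - dep t) ∧ (t ∈ outCh ↔ x ∈ N))`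
(for `t ≠ v`: the vertices of `outCh` go to `N`, the others outside `N`). For `t ≠ v`:
* `p t = v`: `x = z`, `dep t = 1`. `dir t = true`: `t ∈ outCh`, images `outs E (G J) z` (in `N`);
  `dir t = false`: `t ∉ outCh`, images `ins E (G J) z` (not in `N` by `Asym`).
* `p t ≠ v`: `t ∉ outCh`, `J + 1 - dep (p t) = h + 1` with `h = J + 1 - dep t` (`dep t ≤ J`), use `hG` (`1 ≤ h < J`).
Then `copy_of_core`: the out-neighbours of `z` in the image of the core are images of `core ∩ outCh`
(`z` itself is not an out-neighbour), so at least `|N| - |core ∩ outCh| ≥ |leaves|` are free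
(`card_outCh`).
-/

set_option autoImplicit false

namespace Pool.Agent.Work.MP_fcea8e_co.Dom

open Finset

open Classical in
theorem embed_z {κ V : Type} [Fintype κ] [Fintype V] (R : RT κ) {E : V → V → Prop} (hE : Asym E)
    {J : ℕ} (hJ : ∀ t, R.dep t ≤ J) {z : V} (G : ℕ → Finset V)
    (hG : ∀ h, 1 ≤ h → h < J → ∀ u ∈ G (h + 1),
      R.core.card ≤ (outs E (G h \ outs E univ z) u).card ∧
      R.core.card ≤ (ins E (G h \ outs E univ z) u).card)
    (hz1 : R.core.card ≤ (outs E (G J) z).card) (hz2 : R.core.card ≤ (ins E (G J) z).card)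
    (hN : R.outCh.card ≤ (outs E univ z).card) : ∃ f : κ → V, R.Copy E f ∧ f R.v = z := by
  obtain ⟨P, hP⟩ : ∃ P : κ → V → Prop, ∀ t x, P t x ↔ ((t = R.v → x = z) ∧
      (t ≠ R.v → x ∈ G (J + 1 - R.dep t) ∧ (t ∈ R.outCh ↔ x ∈ outs E univ z))) :=
    ⟨_, fun _ _ => Iff.rfl⟩
  obtain ⟨f, hf1, hf2, hf3, hf4⟩ := ext_emb R E {R.v} R.core
    (singleton_subset_iff.2 R.v_mem_core) (mem_singleton_self _)
    (fun t ht htv => absurd (mem_singleton.1 ht) htv)
    (fun t ht htv => R.core_p ht htv)
    P (fun _ => z)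
    (by
      intro a ha b hb _
      rw [mem_coe, mem_singleton] at ha hb
      rw [ha, hb])
    (fun t ht htv => absurd (mem_singleton.1 ht) htv)
    (fun t ht => (hP t z).2 ⟨fun _ => rfl, fun h => absurd (mem_singleton.1 ht) h⟩)
    (by
      intro t _ ht0 x hx
      rw [hP] at hx
      have htv : t ≠ R.v := fun h => ht0 (mem_singleton.2 h)
      have hdp := R.dep_p t htv
      have hdt := hJ t
      by_cases hpv : R.p t = R.v
      · have hxz : x = z := hx.1 hpv
        rw [hpv, R.dep_v] at hdp
        have e1 : J + 1 - R.dep t = J := by omega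
        by_cases hdir : R.dir t = true
        · refine hz1.trans (card_le_card ?_)
          intro y hy
          rw [outs, mem_filter] at hy
          rw [mem_filter, hP, e1]
          refine ⟨mem_univ _, ⟨fun h => absurd h htv, fun _ => ⟨hy.1, ?_⟩⟩,
            ⟨fun _ => ?_, fun h => ?_⟩⟩
          · rw [RT.outCh, mem_filter, outs, mem_filter]
            exact ⟨fun _ => ⟨mem_univ _, hy.2⟩, fun _ => ⟨mem_univ _, htv, hpv, hdir⟩⟩
          · rw [hxz]
            exact hy.2
          · rw [hdir] at h
            exact Bool.noConfusion h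
        · refine hz2.trans (card_le_card ?_)
          intro y hy
          rw [ins, mem_filter] at hy
          rw [mem_filter, hP, e1]
          refine ⟨mem_univ _, ⟨fun h => absurd h htv, fun _ => ⟨hy.1, ?_⟩⟩,
            ⟨fun h => absurd h hdir, fun _ => ?_⟩⟩
          · rw [RT.outCh, mem_filter, outs, mem_filter]
            exact ⟨fun h => absurd h.2.2.2 hdir, fun h => absurd hy.2 (hE _ _ h.2)⟩
          · rw [hxz]
            exact hy.2
      · have hxG := (hx.2 hpv).1
        have hdp2 := R.dep_p _ hpv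
        have e1 : J + 1 - R.dep (R.p t) = (J + 1 - R.dep t) + 1 := by omega
        rw [e1] at hxG
        obtain ⟨k2, k3⟩ := hG (J + 1 - R.dep t) (by omega) (by omega) x hxG
        have hto : t ∉ R.outCh := by
          rw [RT.outCh, mem_filter]
          exact fun h => hpv h.2.2.1
        by_cases hdir : R.dir t = true
        · refine k2.trans (card_le_card ?_)
          intro y hy
          rw [outs, mem_filter, mem_sdiff] at hy
          rw [mem_filter, hP]
          refine ⟨mem_univ _, ⟨fun h => absurd h htv, fun _ => ⟨hy.1.1,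
            ⟨fun h => absurd h hto, fun h => absurd h hy.1.2⟩⟩⟩, ⟨fun _ => hy.2, fun h => ?_⟩⟩
          rw [hdir] at h
          exact Bool.noConfusion h
        · refine k3.trans (card_le_card ?_)
          intro y hy
          rw [ins, mem_filter, mem_sdiff] at hy
          rw [mem_filter, hP]
          exact ⟨mem_univ _, ⟨fun h => absurd h htv, fun _ => ⟨hy.1.1,
            ⟨fun h => absurd h hto, fun h => absurd h hy.1.2⟩⟩⟩,
            ⟨fun h => absurd h hdir, fun _ => hy.2⟩⟩)
  have hfv : f R.v = z := hf2 _ (mem_singleton_self _)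
  refine (copy_of_core R E f hf1 hf3 ?_).imp (fun _ h => ⟨h.1, h.2.trans hfv⟩)
  rw [hfv]
  have k1 : outs E univ z \ ((R.core.filter (fun t => t ∈ R.outCh)).image f) ⊆
      outs E univ z \ (R.core.image f) := by
    intro y hy
    rw [mem_sdiff] at hy ⊢
    refine ⟨hy.1, fun h => hy.2 ?_⟩
    rw [mem_image] at h ⊢
    obtain ⟨t, ht, hty⟩ := h
    refine ⟨t, mem_filter.2 ⟨ht, ?_⟩, hty⟩
    by_cases htv : t = R.v
    · exfalso
      rw [htv, hfv] at hty
      rw [outs, mem_filter, ← hty] at hy
      exact hE _ _ hy.1.2 hy.1.2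
    · refine ((((hP t (f t)).1 (hf4 t ht)).2 htv).2).2 ?_
      rw [hty]
      exact hy.1
  refine le_trans ?_ (card_le_card k1)
  have k2 := le_card_sdiff ((R.core.filter (fun t => t ∈ R.outCh)).image f) (outs E univ z)
  have k3 := card_image_le (s := R.core.filter (fun t => t ∈ R.outCh)) (f := f)
  have k5 := R.card_outCh
  omega

end Pool.Agent.Work.MP_fcea8e_co.Dom
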