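import Pool.Agent.Work.MP_fcea8e_co.Dom.Lev

/-!
# Module EXCL: the critical set contains no poor vertices outside `U`

Induction on `h ≤ J`: `W ∩ lev h = ∅`. Step: `u ∈ W ∩ lev (h+1)`, `h < J`: `u ∉ poor J`, so `u` has at least
`q` out-neighbours outside `lev J ⊇ lev h`, hence fewer than `q` in-neighbours outside `lev h`; the
in-neighbours of `u` in `W` are outside `lev h` by induction; and `u` has fewer than `D` out-neighbours;
contradiction to `hdeg`.
-/

set_option autoImplicit false

namespace Pool.Agent.Work.MP_fcea8e_co.Dom

open Finset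

open Classical in
theorem excl {V : Type} [Fintype V] {E : V → V → Prop} {q J D : ℕ} {W : Finset V}
    (hU : ∀ z ∈ W, z ∉ poor E q J) (hout : ∀ z ∈ W, (outs E univ z).card < D)
    (hdeg : ∀ z ∈ W, D + q ≤ (outs E W z).card + (ins E W z).card) :
    ∀ h, h ≤ J → ∀ z ∈ W, z ∉ lev E q h := by
  intro h
  induction h with
  | zero => intro _ z _; simp [lev]
  | succ h ih =>
    intro hh z hz hzl
    have ih' := ih (by omega)
    rw [lev, mem_filter] at hzl
    have hzU := hU z hz
    rw [mem_poor, not_lt] at hzU
    have hm : lev E q h ⊆ lev E q J := lev_mono (by omega)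
    have k1 : (outs E univ z \ lev E q J).card ≤ (outs E univ z \ lev E q h).card :=
      card_le_card (sdiff_subset_sdiff (Subset.refl _) hm)
    rcases hzl.2 with k | k
    · omega
    · have k2 : ins E W z ⊆ ins E univ z \ lev E q h := by
        intro y hy
        rw [ins, mem_filter] at hy
        rw [mem_sdiff, ins, mem_filter]
        exact ⟨⟨mem_univ _, hy.2⟩, ih' y hy.1⟩
      have k3 : outs E W z ⊆ outs E univ z := by
        intro y hy
        rw [outs, mem_filter] at hy ⊢
        exact ⟨mem_univ _, hy.2⟩
      have k4 := hdeg z hz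
      have k5 := hout z hz
      have k6 := card_le_card k2
      have k7 := card_le_card k3
      omega

end Pool.Agent.Work.MP_fcea8e_co.Dom
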