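import Pool.Agent.Work.MP_fcea8e_co.Dom.Prop2
import Pool.Agent.Work.MP_fcea8e_co.Dom.NumDefs

/-!
Assembly: the main proposition.
-/

set_option autoImplicit false

namespace Pool.Agent.Work.MP_fcea8e_co.Dom

open Finset

theorem main_prop (s : ℕ) : ∃ D0 : ℕ, ∀ (κ : Type) [Fintype κ] (R : RT κ),
    D0 ≤ R.outCh.card → Fintype.card κ ≤ R.outCh.card + 1 + s → Main R := by
  refine ⟨1000 ^ (s + 3) * (2 * s * cst s (2 * 1000 ^ (s + 3)) (s + 2) + 3 * s + 3) +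
    (s + (2 * s + 1) + 12 * (2 * s + 1) * (s + 2) + 1), ?_⟩
  intro κ _ R hD hcard V _ E hE hno
  by_contra hcon
  have hcon' : ∀ Top : Finset V, (¬ ∃ f : κ → V, R.AncCopy E f ∧ ∀ t, R.Anc t → f t ∈ Top) →
      ¬ ∃ c : V → ℕ, (∀ x, x ∉ Top → c x < 2 * R.outCh.card - 1) ∧
        ∀ x y, x ∉ Top → y ∉ Top → E x y → c x ≠ c y := by
    intro Top h1 h2
    exact hcon ⟨Top, h1, h2⟩
  have hcore := R.card_core hcard
  obtain ⟨C⟩ := prop1 R hE hno (s := s) (q := 2 * s + 1) (by omega) hcore hcard (by omega) hcon'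
  have hK : 0 < 1000 ^ (s + 3) := by positivity
  have h1 : 2 * s * cst s (2 * 1000 ^ (s + 3)) (s + 2) + 3 * s + 3 ≤
      R.outCh.card / 1000 ^ (s + 3) := by
    rw [Nat.le_div_iff_mul_le hK, mul_comm]
    omega
  have h2 : 1000 ^ (s + 3) * (R.outCh.card / 1000 ^ (s + 3)) ≤ R.outCh.card :=
    Nat.mul_div_le _ _
  have h3 : R.outCh.card < 1000 ^ (s + 3) * (R.outCh.card / 1000 ^ (s + 3)) + 1000 ^ (s + 3) := by
    have := Nat.lt_mul_div_succ R.outCh.card hK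
    rw [mul_add, mul_one] at this
    exact this
  have h4 : 1000 ^ (s + 3) ≤ 1000 ^ (s + 3) * (R.outCh.card / 1000 ^ (s + 3)) :=
    Nat.le_mul_of_pos_right _ (by omega)
  refine hno ((prop2 R hE hcard (g := R.outCh.card / 1000 ^ (s + 3)) h2 ?_ ?_ ?_ C).imp
    (fun _ h => h.1))
  · rw [mul_assoc]
    omega
  · omega
  · omega

end Pool.Agent.Work.MP_fcea8e_co.Dom
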