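import Pool.Agent.Work.MP_fcea8e_co.Dom.Defs

/-!
# Module LEV: the levels of poor vertices and the classes of `U`

`lev 0 = ∅`, `lev (h+1)` = the vertices with fewer than `q` out-neighbours outside `lev h` or fewer than
`q` in-neighbours outside `lev h`. `poor J` = `U` = the vertices with fewer than `q` out-neighbours
outside `lev J`. For `u` let `lv u` be the greatest `h ≤ J` with `u ∉ lev h` and `cls u = 2 lv u + 1` if
`u` has fewer than `q` out-neighbours outside `lev (lv u)`, `cls u = 2 lv u` otherwise.
* `lev_mono`: induction.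
* `cls_lt`: `lv u ≤ J`.
* `same_class`: for `S ⊆ poor J` the number of pairs `(u, y)` in `S` with `E u y` and `cls u = cls y` is at
  most `q |S|`. Let `c` be the common class, `h = c / 2`; `u, y ∉ lev h` (`Nat.findGreatest_spec`, `lev 0`
  is empty). If `c` is odd then `u` has fewer than `q` out-neighbours outside `lev h`, count by `u`.
  If `c` is even then `u` has at least `q` out-neighbours outside `lev h`; so `h < J`... (for `h = J` a
  vertex of `poor J` has odd class); `y ∈ lev (h+1)` by maximality of `h`, and `y` has even class, so it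
  has fewer than `q` in-neighbours outside `lev h`; count by `y`. So every pair is counted at its
  tail (odd class) or at its head (even class), at most `q` times at each vertex.
-/

set_option autoImplicit false

namespace Pool.Agent.Work.MP_fcea8e_co.Dom

open Finset

section

variable {V : Type} [Fintype V] (E : V → V → Prop) (q : ℕ)

open Classical in
/-- the levels of poor vertices -/
noncomputable def lev : ℕ → Finset V
  | 0 => ∅
  | h + 1 => univ.filter (fun u => (outs E univ u \ lev h).card < q ∨ (ins E univ u \ lev h).card < q)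

open Classical in
/-- the vertices with few rich out-neighbours -/
noncomputable def poor (J : ℕ) : Finset V :=
  univ.filter (fun u => (outs E univ u \ lev E q J).card < q)

open Classical in
/-- the level of a vertex -/
noncomputable def lv (J : ℕ) (u : V) : ℕ := Nat.findGreatest (fun h => u ∉ lev E q h) J

open Classical in
/-- the class of a vertex -/
noncomputable def cls (J : ℕ) (u : V) : ℕ :=
  2 * lv E q J u + if (outs E univ u \ lev E q (lv E q J u)).card < q then 1 else 0

end

variable {V : Type} [Fintype V] {E : V → V → Prop} {q : ℕ}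

theorem lev_mono {h h' : ℕ} (hh : h ≤ h') : lev E q h ⊆ lev E q h' := by
  classical
  refine monotone_nat_of_le_succ (f := fun h => lev E q h) (fun n => ?_) hh
  induction n with
  | zero => intro x hx; simp [lev] at hx
  | succ n ih =>
    intro u hu
    simp only [lev, mem_filter] at hu ⊢
    refine ⟨hu.1, ?_⟩
    rcases hu.2 with h | h
    · exact Or.inl (lt_of_le_of_lt (card_le_card (sdiff_subset_sdiff (Subset.refl _) ih)) h)
    · exact Or.inr (lt_of_le_of_lt (card_le_card (sdiff_subset_sdiff (Subset.refl _) ih)) h)

open Classical in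
theorem not_mem_lev_succ {h : ℕ} {u : V} (hu : u ∉ lev E q (h + 1)) :
    q ≤ (outs E univ u \ lev E q h).card ∧ q ≤ (ins E univ u \ lev E q h).card := by
  rw [lev, mem_filter] at hu
  push Not at hu
  exact hu (mem_univ _)

open Classical in
theorem mem_poor {J : ℕ} {u : V} : u ∈ poor E q J ↔ (outs E univ u \ lev E q J).card < q := by
  simp [poor]

theorem cls_lt (J : ℕ) (u : V) : cls E q J u < 2 * (J + 1) := by
  classical
  have h1 : lv E q J u ≤ J := by
    unfold lv
    exact Nat.findGreatest_le J
  rw [cls]
  split_ifs <;> omega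

open Classical in
theorem same_class {J : ℕ} {S : Finset V} (hS : S ⊆ poor E q J) :
    ∑ u ∈ S, (S.filter (fun y => E u y ∧ cls E q J u = cls E q J y)).card ≤ q * S.card := by
  have fA : ∀ u, u ∉ lev E q (lv E q J u) := by
    intro u
    exact Nat.findGreatest_spec (P := fun h => u ∉ lev E q h) (m := 0) (Nat.zero_le J)
      (by simp [lev])
  have fB : ∀ u, lv E q J u < J → u ∈ lev E q (lv E q J u + 1) := by
    intro u hu
    by_contra hn
    exact Nat.findGreatest_is_greatest (P := fun h => u ∉ lev E q h) (n := J)
      (k := lv E q J u + 1) (Nat.lt_succ_self _) hu hn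
  have fC : ∀ u y, cls E q J u = cls E q J y → lv E q J u = lv E q J y ∧
      ((outs E univ u \ lev E q (lv E q J u)).card < q ↔
        (outs E univ y \ lev E q (lv E q J y)).card < q) := by
    intro u y h
    rw [cls, cls] at h
    split_ifs at h with h1 h2 h2
    · exact ⟨by omega, by simp [h1, h2]⟩
    · omega
    · omega
    · exact ⟨by omega, by simp [h1, h2]⟩
  obtain ⟨S1, hS1⟩ : ∃ S1, S1 = S.filter
    (fun u => (outs E univ u \ lev E q (lv E q J u)).card < q) := ⟨_, rfl⟩
  obtain ⟨S0, hS0⟩ : ∃ S0, S0 = S.filter
    (fun u => ¬ (outs E univ u \ lev E q (lv E q J u)).card < q) := ⟨_, rfl⟩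
  have hsum : ∀ F : V → ℕ, ∑ u ∈ S, F u = ∑ u ∈ S1, F u + ∑ u ∈ S0, F u := by
    intro F
    rw [hS1, hS0, sum_filter_add_sum_filter_not]
  have hcard : S.card = S1.card + S0.card := by
    rw [hS1, hS0, card_filter_add_card_filter_not]
  have k1 : ∑ u ∈ S1, (S.filter (fun y => E u y ∧ cls E q J u = cls E q J y)).card ≤
      S1.card * q := by
    rw [← smul_eq_mul]
    refine sum_le_card_nsmul _ _ _ (fun u hu => ?_)
    rw [hS1, mem_filter] at hu
    refine le_trans (card_le_card ?_) hu.2.le
    intro y hy
    rw [mem_filter] at hy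
    rw [mem_sdiff, outs, mem_filter]
    refine ⟨⟨mem_univ _, hy.2.1⟩, ?_⟩
    rw [(fC u y hy.2.2).1]
    exact fA y
  have k2 : ∑ u ∈ S0, (S.filter (fun y => E u y ∧ cls E q J u = cls E q J y)).card ≤
      S0.card * q := by
    have e1 : ∀ u ∈ S0, (S.filter (fun y => E u y ∧ cls E q J u = cls E q J y)).card ≤
        (S0.filter (fun y => E u y ∧ cls E q J u = cls E q J y)).card := by
      intro u hu
      refine card_le_card ?_
      intro y hy
      rw [mem_filter] at hy ⊢
      refine ⟨?_, hy.2⟩
      rw [hS0, mem_filter] at hu ⊢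
      refine ⟨hy.1, ?_⟩
      rw [← (fC u y hy.2.2).2]
      exact hu.2
    refine (sum_le_sum e1).trans ?_
    have e2 : ∑ u ∈ S0, (S0.filter (fun y => E u y ∧ cls E q J u = cls E q J y)).card =
        ∑ y ∈ S0, (S0.filter (fun u => E u y ∧ cls E q J u = cls E q J y)).card := by
      simp only [card_filter]
      rw [sum_comm]
    rw [e2, ← smul_eq_mul]
    refine sum_le_card_nsmul _ _ _ (fun y hy => ?_)
    rw [hS0, mem_filter] at hy
    have hlv : lv E q J y < J := by
      have h1 : lv E q J y ≤ J := Nat.findGreatest_le J
      rcases Nat.lt_or_eq_of_le h1 with h | h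
      · exact h
      · exfalso
        apply hy.2
        rw [h]
        exact mem_poor.1 (hS hy.1)
    have hmem := fB y hlv
    rw [lev, mem_filter] at hmem
    rcases hmem.2 with h | h
    · exact absurd h hy.2
    · refine le_trans (card_le_card ?_) h.le
      intro u hu
      rw [mem_filter] at hu
      rw [mem_sdiff, ins, mem_filter]
      refine ⟨⟨mem_univ _, hu.2.1⟩, ?_⟩
      rw [← (fC u y hu.2.2).1]
      exact fA u
  rw [hsum, hcard, mul_add, mul_comm q, mul_comm q]
  exact Nat.add_le_add k1 k2

end Pool.Agent.Work.MP_fcea8e_co.Dom
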