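import Pool.Agent.Work.MP_fcea8e_co.Dom.Facts
import Pool.Agent.Work.MP_fcea8e_co.Dom.Ext
import Pool.Agent.Work.MP_fcea8e_co.Dom.Leaf
import Pool.Agent.Work.MP_fcea8e_co.Dom.Lev

/-!
# Module HEAVYOUT: a rich vertex with a copy of the ancestors has bounded out-degree

`f0` is a copy of the ancestor tree with all images outside `poor J`. If the digraph contains no
copy of the tree, then `f0 v` has fewer than `outCh.card + s` out-neighbours.
Proof: suppose not. Apply `ext_emb` with `K0 = core.filter Anc`, `K = core`,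
`P t x := (Anc t → x ∉ poor J) ∧ (¬ Anc t → x ∉ lev (J + 1 - dep t))`. For `t ∈ K \ K0`, so not `Anc`
(`anc_mem_core`), `t ≠ v`:
* `Anc (p t)`: `dir t = true` (`dir_of_not_anc`), `x ∉ poor J` has at least `q ≥ |core|` out-neighbours
  outside `lev J ⊇ lev (J + 1 - dep t)` (`dep t ≥ 1`, `lev_mono`);
* not `Anc (p t)`: `p t ≠ v`, so `dep (p t) ≥ 1`, `dep t = dep (p t) + 1 ≤ J`; with `h = J + 1 - dep t` we
  have `J + 1 - dep (p t) = h + 1`, and `not_mem_lev_succ` gives at least `q` out- and in-neighbours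
  outside `lev h`.
Then `copy_of_core`: the image of the core without `f v` has `|core| - 1` elements, `f v` is not an
out-neighbour of itself, so at least `outCh.card + s - (|core| - 1) ≥ |leaves|` out-neighbours are
free (`card_core_add` and `hcard`).
-/

set_option autoImplicit false

namespace Pool.Agent.Work.MP_fcea8e_co.Dom

open Finset

theorem heavy_out {κ V : Type} [Fintype κ] [Fintype V] (R : RT κ) (E : V → V → Prop) (hE : Asym E)
    (hno : ¬ ∃ f : κ → V, R.Copy E f) {s q J : ℕ} (hq : R.core.card ≤ q) (hJ : ∀ t, R.dep t ≤ J)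
    (hcard : Fintype.card κ ≤ R.outCh.card + 1 + s) {f0 : κ → V} (hf : R.AncCopy E f0)
    (hU : ∀ t, R.Anc t → f0 t ∉ poor E q J) :
    (outs E univ (f0 R.v)).card < R.outCh.card + s := by
  classical
  by_contra hlt
  rw [not_lt] at hlt
  apply hno
  obtain ⟨K0, hK0⟩ : ∃ K0, K0 = R.core.filter (fun t => R.Anc t) := ⟨_, rfl⟩
  have hmK0 : ∀ t, t ∈ K0 ↔ R.Anc t := by
    intro t
    rw [hK0, mem_filter]
    exact ⟨fun h => h.2, fun h => ⟨R.anc_mem_core h, h⟩⟩
  obtain ⟨P, hP⟩ : ∃ P : κ → V → Prop, ∀ t x, P t x ↔ ((R.Anc t → x ∉ poor E q J) ∧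
      (¬ R.Anc t → x ∉ lev E q (J + 1 - R.dep t))) := ⟨_, fun _ _ => Iff.rfl⟩
  obtain ⟨f, hf1, hf2, hf3, hf4⟩ := ext_emb R E K0 R.core (by rw [hK0]; exact filter_subset _ _)
    ((hmK0 _).2 RT.Anc.root)
    (fun t ht htv => (hmK0 _).2 (R.anc_p ((hmK0 _).1 ht) htv).2)
    (fun t ht htv => R.core_p ht htv)
    P f0
    (by
      intro a ha b hb hab
      exact hf.1 ((hmK0 _).1 ha) ((hmK0 _).1 hb) hab)
    (by
      intro t ht htv
      have k1 := (hmK0 _).1 ht
      have k2 := (R.anc_p k1 htv).1
      refine ⟨fun h => ?_, fun _ => hf.2 t htv k1⟩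
      rw [k2] at h
      exact Bool.noConfusion h)
    (by
      intro t ht
      rw [hP]
      exact ⟨fun _ => hU t ((hmK0 _).1 ht), fun h => absurd ((hmK0 _).1 ht) h⟩)
    (by
      intro t ht ht0 x hx
      rw [hP] at hx
      have hta : ¬ R.Anc t := fun h => ht0 ((hmK0 _).2 h)
      have htv : t ≠ R.v := fun h => hta (h ▸ RT.Anc.root)
      have hdp := R.dep_p t htv
      by_cases hpa : R.Anc (R.p t)
      · have hdir := R.dir_of_not_anc hta htv hpa
        have k1 := hx.1 hpa
        rw [mem_poor, not_lt] at k1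
        refine (hq.trans k1).trans (card_le_card ?_)
        intro y hy
        rw [mem_sdiff, outs, mem_filter] at hy
        rw [mem_filter, hP]
        refine ⟨mem_univ _, ⟨fun h => absurd h hta, fun _ h => hy.2 (lev_mono (by omega) h)⟩,
          ⟨fun _ => hy.1.2, fun h => ?_⟩⟩
        rw [hdir] at h
        exact Bool.noConfusion h
      · have k1 := hx.2 hpa
        have hpv : R.p t ≠ R.v := fun h => hpa (h ▸ RT.Anc.root)
        have hdp2 := R.dep_p _ hpv
        have hdt := hJ t
        have e1 : J + 1 - R.dep (R.p t) = (J + 1 - R.dep t) + 1 := by omega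
        rw [e1] at k1
        obtain ⟨k2, k3⟩ := not_mem_lev_succ k1
        by_cases hdir : R.dir t = true
        · refine (hq.trans k2).trans (card_le_card ?_)
          intro y hy
          rw [mem_sdiff, outs, mem_filter] at hy
          rw [mem_filter, hP]
          refine ⟨mem_univ _, ⟨fun h => absurd h hta, fun _ => hy.2⟩,
            ⟨fun _ => hy.1.2, fun h => ?_⟩⟩
          rw [hdir] at h
          exact Bool.noConfusion h
        · refine (hq.trans k3).trans (card_le_card ?_)
          intro y hy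
          rw [mem_sdiff, ins, mem_filter] at hy
          rw [mem_filter, hP]
          exact ⟨mem_univ _, ⟨fun h => absurd h hta, fun _ => hy.2⟩,
            ⟨fun h => absurd h hdir, fun _ => hy.1.2⟩⟩)
  have hfv : f R.v = f0 R.v := hf2 _ ((hmK0 _).2 RT.Anc.root)
  refine (copy_of_core R E f hf1 hf3 ?_).imp (fun _ h => h.1)
  rw [hfv]
  have k1 : outs E univ (f0 R.v) \ ((R.core.erase R.v).image f) ⊆
      outs E univ (f0 R.v) \ (R.core.image f) := by
    intro y hy
    rw [mem_sdiff] at hy ⊢
    refine ⟨hy.1, fun h => hy.2 ?_⟩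
    rw [mem_image] at h ⊢
    obtain ⟨t, ht, hty⟩ := h
    refine ⟨t, mem_erase.2 ⟨fun h => ?_, ht⟩, hty⟩
    rw [h, hfv] at hty
    rw [outs, mem_filter, ← hty] at hy
    exact hE _ _ hy.1.2 hy.1.2
  refine le_trans ?_ (card_le_card k1)
  have k2 := le_card_sdiff ((R.core.erase R.v).image f) (outs E univ (f0 R.v))
  have k3 := card_image_le (s := R.core.erase R.v) (f := f)
  have k4 := card_erase_of_mem R.v_mem_core
  have k5 := R.card_core_add
  have k6 : 0 < R.core.card := card_pos.2 ⟨_, R.v_mem_core⟩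
  omega

end Pool.Agent.Work.MP_fcea8e_co.Dom
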