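import Pool.Agent.Work.MP_fcea8e_co.Dom.Count

/-!
# Module INN: few vertices of `N` have almost all their out-neighbours (in-neighbours) in `N`

First case: for `u ∈ B` at least `D - 2g - e + 1` out-neighbours in `W ∩ N`. The sum over `u ∈ B` of
`|outs (W ∩ N) u|` is at most `b (b - 1) / 2 + b (|W ∩ N| - b)`, `b = |B|`: arcs inside `B` (at most one for each
pair, `Asym`: the sum of `|outs B u|` equals the sum of `|ins B u|` and `|outs B u| + |ins B u| ≤ b - 1`) and arcs
from `B` to `(W ∩ N) \ B`. Hence `2 (D - 2g - e + 1) ≤ (b - 1) + 2 (D + g - b)`, so `b ≤ 6 g + 2 e`.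
Second case in the same way.
-/

set_option autoImplicit false

namespace Pool.Agent.Work.MP_fcea8e_co.Dom

open Finset

open Classical in
theorem inN_aux {V : Type} {E : V → V → Prop} (hE : Asym E) {W N B : Finset V} {D g e : ℕ}
    (hN : N.card ≤ D + g) (hBW : B ⊆ W) (hBN : B ⊆ N)
    (h : ∀ u ∈ B, D ≤ (outs E W u).card + 2 * g ∧ (outs E (W \ N) u).card < e) :
    B.card ≤ 6 * g + 2 * e := by
  have hBM : B ⊆ W ∩ N := subset_inter hBW hBN
  have split1 : ∀ u, (outs E W u).card = (outs E (W ∩ N) u).card + (outs E (W \ N) u).card := by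
    intro u
    have h1 : outs E W u = outs E (W ∩ N) u ∪ outs E (W \ N) u := by
      rw [outs, outs, outs, ← filter_union]
      congr 1
      rw [union_comm, sdiff_union_inter]
    rw [h1, card_union_of_disjoint]
    refine disjoint_filter_filter ?_
    rw [Finset.disjoint_left]
    intro x h2 h3
    exact (mem_sdiff.1 h3).2 (mem_inter.1 h2).2
  have split2 : ∀ u, (outs E (W ∩ N) u).card ≤ (outs E B u).card + ((W ∩ N) \ B).card := by
    intro u
    have h1 : outs E (W ∩ N) u ⊆ outs E B u ∪ ((W ∩ N) \ B) := by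
      intro x hx
      rw [outs, mem_filter] at hx
      rw [mem_union, outs, mem_filter, mem_sdiff]
      by_cases hxB : x ∈ B
      · exact Or.inl ⟨hxB, hx.2⟩
      · exact Or.inr ⟨hx.1, hxB⟩
    exact (card_le_card h1).trans (card_union_le _ _)
  have hin : ∀ u ∈ B, (outs E B u).card + (ins E B u).card + 1 ≤ B.card := by
    intro u hu
    have hd : Disjoint (outs E B u) (ins E B u) := by
      rw [Finset.disjoint_left]
      intro x h2 h3
      rw [outs, mem_filter] at h2
      rw [ins, mem_filter] at h3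
      exact hE _ _ h2.2 h3.2
    rw [← card_union_of_disjoint hd]
    have hsub : outs E B u ∪ ins E B u ⊆ B.erase u := by
      intro x hx
      rw [mem_union, outs, ins, mem_filter, mem_filter] at hx
      rw [mem_erase]
      rcases hx with hx | hx
      · exact ⟨fun hxu => by rw [hxu] at hx; exact hE _ _ hx.2 hx.2, hx.1⟩
      · exact ⟨fun hxu => by rw [hxu] at hx; exact hE _ _ hx.2 hx.2, hx.1⟩
    have := card_le_card hsub
    rw [card_erase_of_mem hu] at this
    have hpos : 0 < B.card := card_pos.2 ⟨u, hu⟩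
    omega
  have s1 : ∑ u ∈ B, ((outs E B u).card + (ins E B u).card + 1) ≤ B.card * B.card := by
    rw [← smul_eq_mul]
    exact sum_le_card_nsmul _ _ _ hin
  rw [sum_add_distrib, sum_add_distrib, ← sum_outs_eq B B, sum_const, smul_eq_mul, mul_one] at s1
  have hM : (W ∩ N).card ≤ D + g := (card_le_card inter_subset_right).trans hN
  have hMB : ((W ∩ N) \ B).card + B.card = (W ∩ N).card := card_sdiff_add_card_eq_card hBM
  obtain ⟨m, hm⟩ : ∃ m, m = ((W ∩ N) \ B).card := ⟨_, rfl⟩
  have s2 : B.card * (D + 1) ≤ ∑ u ∈ B, ((outs E B u).card + (m + 2 * g + e)) := by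
    rw [← smul_eq_mul]
    refine card_nsmul_le_sum _ _ _ (fun u hu => ?_)
    have k1 := h u hu
    have k2 := split1 u
    have k3 := split2 u
    omega
  rw [sum_add_distrib, sum_const, smul_eq_mul] at s2
  rcases Nat.eq_zero_or_pos B.card with hb | hb
  · omega
  · have s3 : B.card * (2 * (D + 1)) + B.card ≤ B.card * (B.card + 2 * (m + 2 * g + e)) := by
      calc B.card * (2 * (D + 1)) + B.card = 2 * (B.card * (D + 1)) + B.card := by ring
        _ ≤ 2 * (∑ u ∈ B, (outs E B u).card + B.card * (m + 2 * g + e)) + B.card := by omega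
        _ = (∑ u ∈ B, (outs E B u).card + ∑ u ∈ B, (outs E B u).card + B.card) +
            B.card * (2 * (m + 2 * g + e)) := by ring
        _ ≤ B.card * B.card + B.card * (2 * (m + 2 * g + e)) := Nat.add_le_add_right s1 _
        _ = B.card * (B.card + 2 * (m + 2 * g + e)) := by ring
    have s4 : B.card * (2 * (D + 1) + 1) ≤ B.card * (B.card + 2 * (m + 2 * g + e)) := by
      rw [mul_add, mul_one]
      exact s3
    have s5 := Nat.le_of_mul_le_mul_left s4 hb
    omega

open Classical in
theorem inN {V : Type} {E : V → V → Prop} (hE : Asym E) {W N B : Finset V} {D g e : ℕ}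
    (hN : N.card ≤ D + g) (hBW : B ⊆ W) (hBN : B ⊆ N)
    (hcase : (∀ u ∈ B, D ≤ (outs E W u).card + 2 * g ∧ (outs E (W \ N) u).card < e) ∨
      (∀ u ∈ B, D ≤ (ins E W u).card + 2 * g ∧ (ins E (W \ N) u).card < e)) :
    B.card ≤ 6 * g + 2 * e := by
  rcases hcase with h | h
  · exact inN_aux hE hN hBW hBN h
  · exact inN_aux (E := fun a b => E b a) (fun a b h1 h2 => hE _ _ h1 h2) hN hBW hBN h

end Pool.Agent.Work.MP_fcea8e_co.Dom
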