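import Pool.Agent.Work.MP_fcea8e_co.Dom.Defs
import Pool.Agent.Work.MP_fcea8e_co.Dom.Count

/-!
# Module IRR: irregular vertices and the levels above them

`irr` = the vertices `z` of `W` with `|outs X z| + g < D`, or total degree in `X` at least `2D + g`, or more
than `g` neighbours in `Y`. `blv h`: `blv 0 = irr`, `blv (h+1) = blv h ∪` the vertices of `W` with more than `g`
neighbours in `blv h`.
* `irr_card`: `|irr| g ≤ 7 s w`. (i) `∑_W (D + s - 1 - |outs X z|) ≤ (D + s - 1) w - O` and
  `2 O ≥ (2D - 1) w`, so it is at most `s w` (twice it is at most `(2s - 1) w`); every vertex of type (i)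
  contributes at least `g`. (ii) `∑_W (|outs X z| + |ins X z| - (2D - 1)) ≤ 2 O - (2D-1) w ≤ (2s - 1) w`,
  all terms are nonnegative (h2), type (ii) contributes at least `g`. (iii) is c5: at most `4 s w`.
* `blv_card`: `|blv (h+1)| g ≤ |blv h| g +` (number of pairs (vertex of `W`, neighbour in `blv h`)), the
  latter is `∑_{b ∈ blv h} (|ins W b| + |outs W b|) ≤ 2D |blv h| + 2 s w` (degrees in `X`; the sum of the
  excess over `2D - 1` over all of `W` is at most `2 s w`, see (ii)), and `D ≤ P g`.
-/

set_option autoImplicit false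

namespace Pool.Agent.Work.MP_fcea8e_co.Dom

open Finset

section

variable {V : Type} (E : V → V → Prop) (X Y W : Finset V) (D g : ℕ)

open Classical in
/-- irregular vertices -/
noncomputable def irr : Finset V :=
  W.filter (fun z => (outs E X z).card + g < D ∨ 2 * D + g ≤ (outs E X z).card + (ins E X z).card ∨
    g < (outs E Y z).card + (ins E Y z).card)

open Classical in
/-- levels above the irregular vertices -/
noncomputable def blv : ℕ → Finset V
  | 0 => irr E X Y W D g
  | h + 1 => blv h ∪ W.filter (fun z => g < (outs E (blv h) z).card + (ins E (blv h) z).card)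

end

/-- the constants of `blv_card` -/
def cst (s P : ℕ) : ℕ → ℕ
  | 0 => 7 * s
  | h + 1 => (1 + 2 * P) * cst s P h + 2 * s

variable {V : Type} {E : V → V → Prop} {X Y W : Finset V} {D g s : ℕ}

theorem blv_sub (h : ℕ) : blv E X Y W D g h ⊆ W := by
  classical
  induction h with
  | zero => exact filter_subset _ _
  | succ h ih => exact union_subset ih (filter_subset _ _)

theorem blv_mono {h h' : ℕ} (hh : h ≤ h') : blv E X Y W D g h ⊆ blv E X Y W D g h' := by
  classical
  refine monotone_nat_of_le_succ (f := fun h => blv E X Y W D g h) (fun n => ?_) hh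
  exact subset_union_left

theorem outs_le [Fintype V] (S : Finset V) (z : V) :
    (outs E S z).card ≤ (outs E univ z).card := by
  classical
  refine card_le_card ?_
  intro y hy
  rw [outs, mem_filter] at hy ⊢
  exact ⟨mem_univ _, hy.2⟩

theorem sumO [Fintype V] (h1 : ∀ z ∈ W, (outs E univ z).card < D + s) :
    ∑ z ∈ W, (outs E X z).card + W.card ≤ (D + s) * W.card := by
  have h6 : ∑ z ∈ W, ((outs E X z).card + 1) ≤ ∑ z ∈ W, (D + s) := by
    refine sum_le_sum (fun z hz => ?_)
    have k1 := h1 z hz
    have k2 := outs_le (E := E) X z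
    omega
  rw [sum_add_distrib, sum_const, smul_eq_mul, mul_one, sum_const, smul_eq_mul,
    mul_comm _ (D + s)] at h6
  exact h6

theorem irr_card [Fintype V] (hWX : W ⊆ X) (hD : 1 ≤ D)
    (h1 : ∀ z ∈ W, (outs E univ z).card < D + s)
    (h2 : ∀ z ∈ W, 2 * D ≤ (outs E X z).card + (ins E X z).card + 1)
    (c3 : 2 * D * W.card ≤ 2 * ∑ z ∈ W, (outs E X z).card + W.card)
    (c4 : ∑ z ∈ W, (ins E X z).card ≤ ∑ z ∈ W, (outs E X z).card)
    (c5 : ∑ z ∈ W, ((outs E Y z).card + (ins E Y z).card) ≤ 4 * s * W.card) :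
    (irr E X Y W D g).card * g ≤ 7 * s * W.card := by
  classical
  have hO := sumO (X := X) h1
  have hirr : irr E X Y W D g ⊆ W := filter_subset _ _
  have key : ∑ z ∈ W, (D + if z ∈ irr E X Y W D g then g else 0) ≤
      ∑ z ∈ W, (s + (ins E X z).card + ((outs E Y z).card + (ins E Y z).card)) := by
    refine sum_le_sum (fun z hz => ?_)
    have k1 := h1 z hz
    have k2 := h2 z hz
    have k3 := outs_le (E := E) X z
    split_ifs with h
    · rw [irr, mem_filter] at h
      rcases h.2 with h | h | h <;> omega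
    · omega
  have e1 : ∑ z ∈ W, (D + if z ∈ irr E X Y W D g then g else 0) =
      D * W.card + (irr E X Y W D g).card * g := by
    rw [sum_add_distrib, sum_const, smul_eq_mul, mul_comm, ← sum_filter, sum_const, smul_eq_mul]
    congr 3
    ext z
    rw [mem_filter]
    exact ⟨fun h => h.2, fun h => ⟨hirr h, h⟩⟩
  rw [e1, sum_add_distrib, sum_add_distrib, sum_const, smul_eq_mul] at key
  have e2 : (D + s) * W.card = D * W.card + s * W.card := by ring
  rw [e2] at hO
  have e3 : 4 * s * W.card = 4 * (s * W.card) := by ring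
  have e4 : 7 * s * W.card = 7 * (s * W.card) := by ring
  rw [e3] at c5
  rw [e4]
  have e5 : W.card * s = s * W.card := mul_comm _ _
  omega

theorem blv_card [Fintype V] (hWX : W ⊆ X) (hD : 1 ≤ D)
    (h1 : ∀ z ∈ W, (outs E univ z).card < D + s)
    (h2 : ∀ z ∈ W, 2 * D ≤ (outs E X z).card + (ins E X z).card + 1)
    (c3 : 2 * D * W.card ≤ 2 * ∑ z ∈ W, (outs E X z).card + W.card)
    (c4 : ∑ z ∈ W, (ins E X z).card ≤ ∑ z ∈ W, (outs E X z).card)
    (c5 : ∑ z ∈ W, ((outs E Y z).card + (ins E Y z).card) ≤ 4 * s * W.card)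
    {P : ℕ} (hP : D ≤ P * g) (h : ℕ) :
    (blv E X Y W D g h).card * g ≤ cst s P h * W.card := by
  classical
  induction h with
  | zero => exact irr_card hWX hD h1 h2 c3 c4 c5
  | succ h ih =>
    obtain ⟨B, hB⟩ : ∃ B, B = blv E X Y W D g h := ⟨_, rfl⟩
    have hBW : B ⊆ W := by rw [hB]; exact blv_sub h
    obtain ⟨F, hF⟩ : ∃ F, F = W.filter (fun z => g < (outs E B z).card + (ins E B z).card) :=
      ⟨_, rfl⟩
    have hbl : blv E X Y W D g (h + 1) = B ∪ F := by
      rw [hF, hB, blv]
    have hO := sumO (X := X) h1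
    have f1 : F.card * g ≤ ∑ z ∈ F, ((outs E B z).card + (ins E B z).card) := by
      rw [← smul_eq_mul]
      refine card_nsmul_le_sum _ _ _ (fun z hz => ?_)
      rw [hF, mem_filter] at hz
      exact hz.2.le
    have f2 : ∑ z ∈ F, ((outs E B z).card + (ins E B z).card) ≤
        ∑ z ∈ W, ((outs E B z).card + (ins E B z).card) :=
      sum_le_sum_of_subset (by rw [hF]; exact filter_subset _ _)
    have f3 : ∑ z ∈ W, ((outs E B z).card + (ins E B z).card) =
        ∑ z ∈ B, ((ins E W z).card + (outs E W z).card) := by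
      rw [sum_add_distrib, sum_add_distrib, sum_outs_eq, ← sum_outs_eq B W]
    have f4 : ∑ z ∈ B, ((ins E W z).card + (outs E W z).card) ≤
        ∑ z ∈ B, (2 * D + ((outs E X z).card + (ins E X z).card + 1 - 2 * D)) := by
      refine sum_le_sum (fun z hz => ?_)
      have k1 : (outs E W z).card ≤ (outs E X z).card :=
        card_le_card (filter_subset_filter _ hWX)
      have k2 : (ins E W z).card ≤ (ins E X z).card :=
        card_le_card (filter_subset_filter _ hWX)
      omega
    have f5 : ∑ z ∈ B, ((outs E X z).card + (ins E X z).card + 1 - 2 * D) ≤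
        ∑ z ∈ W, ((outs E X z).card + (ins E X z).card + 1 - 2 * D) :=
      sum_le_sum_of_subset hBW
    have f6 : ∑ z ∈ W, ((outs E X z).card + (ins E X z).card + 1 - 2 * D) +
        2 * D * W.card ≤ 2 * ((D + s) * W.card) := by
      have f7 : ∑ z ∈ W, ((outs E X z).card + (ins E X z).card + 1 - 2 * D + 2 * D) =
          ∑ z ∈ W, ((outs E X z).card + (ins E X z).card + 1) := by
        refine sum_congr rfl (fun z hz => ?_)
        have k2 := h2 z hz
        omega
      rw [sum_add_distrib, sum_const, smul_eq_mul, sum_add_distrib, sum_add_distrib, sum_const,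
        smul_eq_mul, mul_one] at f7
      rw [mul_comm (2 * D)]
      omega
    have f4b : ∑ z ∈ B, (2 * D + ((outs E X z).card + (ins E X z).card + 1 - 2 * D)) =
        B.card * (2 * D) + ∑ z ∈ B, ((outs E X z).card + (ins E X z).card + 1 - 2 * D) := by
      rw [sum_add_distrib, sum_const, smul_eq_mul]
    rw [f4b] at f4
    rw [hbl]
    rw [← hB] at ih
    have f8 : (B ∪ F).card * g ≤ B.card * g + F.card * g := by
      rw [← add_mul]
      exact Nat.mul_le_mul_right _ (card_union_le _ _)
    have f9 : B.card * (2 * D) ≤ 2 * P * (B.card * g) := by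
      calc B.card * (2 * D) ≤ B.card * (2 * (P * g)) :=
            Nat.mul_le_mul_left _ (Nat.mul_le_mul_left _ hP)
        _ = 2 * P * (B.card * g) := by ring
    have f10 : (B.card * g) + 2 * P * (B.card * g) ≤ (1 + 2 * P) * cst s P h * W.card := by
      calc (B.card * g) + 2 * P * (B.card * g) = (1 + 2 * P) * (B.card * g) := by ring
        _ ≤ (1 + 2 * P) * (cst s P h * W.card) := Nat.mul_le_mul_left _ ih
        _ = (1 + 2 * P) * cst s P h * W.card := by ring
    have f11 : cst s P (h + 1) * W.card = (1 + 2 * P) * cst s P h * W.card + 2 * (s * W.card) := by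
      rw [cst]
      ring
    have f12 : 2 * D * W.card + 2 * (s * W.card) = 2 * ((D + s) * W.card) := by ring
    rw [f11]
    omega

end Pool.Agent.Work.MP_fcea8e_co.Dom
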