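import Pool.Agent.Work.MP_fcea8e_co.Dom.HeavyOut
import Pool.Agent.Work.MP_fcea8e_co.Dom.ListCol
import Pool.Agent.Work.MP_fcea8e_co.Dom.Excl
import Pool.Agent.Work.MP_fcea8e_co.Dom.Irr

/-!
# Module PROP1: the critical set (assembly)

`q ≥ 1` bounds the core, `J = s + 1`. `U = poor E q J`,
`Top` = vertices `x ∉ U` such that no copy `f` of the ancestor tree with `f v = x` has all its images
outside `U`. Lists: `L x = range (2D - 1)` for `x ∉ U` and, for `x ∈ U`,
`L x = Ico (6 q cls x) (6 q (cls x + 1)) ⊆ Pal = range (12 q (J + 1)) ⊆ range (2D - 1)` (`cls_lt`, `hD`). `H x y` = (`E x y` or `E y x`) and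
(both in `U` → equal classes). `D = outCh.card`. No copy of the tree.
* No copy of the ancestor tree has all its images in `Top` (its value at the root is in `Top`, and all
  images are outside `U`).
* If `univ \ Top` is `Col H L`, this is a colouring as wanted: for `E x y` with both in `U` and different
  classes the lists are disjoint.
* Otherwise `X` from `exists_crit`, `X ∩ Top = ∅`, `W = X \ U`, `Y = X ∩ U`. `z ∈ W`: there is a copy of the
  ancestor tree with value `z` at the root and all images outside `U`, so `|outs univ z| < D + s`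
  (`heavy_out`). `crit_deg'` (with `U` and `Pal`): `2D - 1 - 12 q (J+1) ≤` number of `H`-neighbours in `W`
  `= |outs W z| + |ins W z|`, so `excl` (with `D + s` for `D`) applies by `hD`: `W ∩ lev J = ∅`. For `u ∈ Y`:
  `outs W u ⊆ outs univ u \ lev J`, fewer than `q`. `h4` of `count_main` is `same_class`; `h5` is
  `crit_deg` at `u` (the `H`-neighbours of `u` in `X` are the neighbours in `W` and those in `Y` of the
  same class); `h2` is `crit_deg` at `z`. `W` is not empty by c7 and `crit_nonempty`.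
-/

set_option autoImplicit false

namespace Pool.Agent.Work.MP_fcea8e_co.Dom

open Finset

open Classical in
/-- the data of a critical set, see `prop1` -/
structure CritData {V : Type} [Fintype V] (E : V → V → Prop) (D s : ℕ) where
  H : V → V → Prop
  L : V → Finset ℕ
  X : Finset V
  Y : Finset V
  W : Finset V
  hs : ∀ x y, H x y → H y x
  hi : ∀ x, ¬ H x x
  crit : Crit H L X
  hWX : W ⊆ X
  hH : ∀ x ∈ W, ∀ y ∈ X, (H x y ↔ E x y ∨ E y x)
  hL : ∀ x ∈ W, L x = range (2 * D - 1)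
  hXW : X = W ∪ Y
  hdis : Disjoint W Y
  hW : 0 < W.card
  h1 : ∀ z ∈ W, (outs E univ z).card < D + s
  h2 : ∀ z ∈ W, 2 * D ≤ (outs E X z).card + (ins E X z).card + 1
  c3 : 2 * D * W.card ≤ 2 * ∑ z ∈ W, (outs E X z).card + W.card
  c4 : ∑ z ∈ W, (ins E X z).card ≤ ∑ z ∈ W, (outs E X z).card
  c5 : ∑ z ∈ W, ((outs E Y z).card + (ins E Y z).card) ≤ 4 * s * W.card
  c6 : W.card ≤ 2 * s * (W.filter (fun z => D ≤ (outs E univ z).card)).card

theorem prop1 {κ V : Type} [Fintype κ] [Fintype V] (R : RT κ) {E : V → V → Prop} (hE : Asym E)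
    (hno : ¬ ∃ f : κ → V, R.Copy E f) {s q : ℕ} (hq1 : 1 ≤ q) (hq : R.core.card ≤ q)
    (hcard : Fintype.card κ ≤ R.outCh.card + 1 + s)
    (hD : s + q + 12 * q * (s + 2) + 1 ≤ R.outCh.card)
    (hcon : ∀ Top : Finset V, (¬ ∃ f : κ → V, R.AncCopy E f ∧ ∀ t, R.Anc t → f t ∈ Top) →
      ¬ ∃ c : V → ℕ, (∀ x, x ∉ Top → c x < 2 * R.outCh.card - 1) ∧
        ∀ x y, x ∉ Top → y ∉ Top → E x y → c x ≠ c y) :
    Nonempty (CritData E R.outCh.card s) := by
  classical
  have hDq : 12 * q * (s + 2) + 1 ≤ R.outCh.card := by omega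
  have hclt : ∀ x : V, 6 * q * (cls E q (s + 1) x + 1) ≤ 12 * q * (s + 2) := by
    intro x
    have h1 := cls_lt (E := E) (q := q) (s + 1) x
    calc 6 * q * (cls E q (s + 1) x + 1) ≤ 6 * q * (2 * (s + 1 + 1)) :=
          Nat.mul_le_mul_left _ (by omega)
      _ = 12 * q * (s + 2) := by ring
  have hJ : ∀ t, R.dep t ≤ s + 1 := fun t => R.dep_le hcard t
  obtain ⟨U, hUdef⟩ : ∃ U, U = poor E q (s + 1) := ⟨_, rfl⟩
  obtain ⟨Top, hTop⟩ : ∃ Top : Finset V, Top = univ.filter (fun x => x ∉ U ∧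
      ¬ ∃ f : κ → V, R.AncCopy E f ∧ f R.v = x ∧ ∀ t, R.Anc t → f t ∉ U) := ⟨_, rfl⟩
  obtain ⟨L, hLdef⟩ : ∃ L : V → Finset ℕ, L = fun x => if x ∈ U then
      Ico (6 * q * cls E q (s + 1) x) (6 * q * (cls E q (s + 1) x + 1))
      else range (2 * R.outCh.card - 1) := ⟨_, rfl⟩
  obtain ⟨H, hHdef⟩ : ∃ H : V → V → Prop, H = fun x y => (E x y ∨ E y x) ∧
      (x ∈ U → y ∈ U → cls E q (s + 1) x = cls E q (s + 1) y) := ⟨_, rfl⟩
  have hLU : ∀ x, x ∈ U → L x =
      Ico (6 * q * cls E q (s + 1) x) (6 * q * (cls E q (s + 1) x + 1)) := by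
    intro x hx
    rw [hLdef]
    simp only [hx, if_true]
  have hLN : ∀ x, x ∉ U → L x = range (2 * R.outCh.card - 1) := by
    intro x hx
    rw [hLdef]
    simp only [hx, if_false]
  have hHiff : ∀ x y, H x y ↔ (E x y ∨ E y x) ∧
      (x ∈ U → y ∈ U → cls E q (s + 1) x = cls E q (s + 1) y) := by
    intro x y
    rw [hHdef]
  have hs : ∀ x y, H x y → H y x := by
    intro x y h
    rw [hHiff] at h ⊢
    exact ⟨h.1.symm, fun h1 h2 => (h.2 h2 h1).symm⟩
  have hi : ∀ x, ¬ H x x := by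
    intro x h
    rw [hHiff] at h
    rcases h.1 with h | h <;> exact hE _ _ h h
  have hT1 : ¬ ∃ f : κ → V, R.AncCopy E f ∧ ∀ t, R.Anc t → f t ∈ Top := by
    rintro ⟨f, hf, hfT⟩
    have h1 := hfT R.v RT.Anc.root
    rw [hTop, mem_filter] at h1
    refine h1.2.2 ⟨f, hf, rfl, fun t ht => ?_⟩
    have h2 := hfT t ht
    rw [hTop, mem_filter] at h2
    exact h2.2.1
  have hnc : ¬ Col H L (univ \ Top) := by
    rintro ⟨c, hc1, hc2⟩
    refine hcon Top hT1 ⟨c, ?_, ?_⟩
    · intro x hx
      have h1 := hc1 x (mem_sdiff.2 ⟨mem_univ _, hx⟩)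
      by_cases hxU : x ∈ U
      · rw [hLU x hxU, mem_Ico] at h1
        have h2 := hclt x
        omega
      · rw [hLN x hxU, mem_range] at h1
        exact h1
    · intro x y hx hy hxy
      have hx1 := hc1 x (mem_sdiff.2 ⟨mem_univ _, hx⟩)
      have hy1 := hc1 y (mem_sdiff.2 ⟨mem_univ _, hy⟩)
      by_cases h : H x y
      · exact hc2 x (mem_sdiff.2 ⟨mem_univ _, hx⟩) y (mem_sdiff.2 ⟨mem_univ _, hy⟩) h
      · rw [hHiff] at h
        push Not at h
        obtain ⟨hxU, hyU, hne⟩ := h (Or.inl hxy)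
        rw [hLU x hxU, mem_Ico] at hx1
        rw [hLU y hyU, mem_Ico] at hy1
        intro he
        rw [he] at hx1
        rcases Nat.lt_or_gt_of_ne hne with h1 | h1
        · have h2 : 6 * q * (cls E q (s + 1) x + 1) ≤ 6 * q * cls E q (s + 1) y :=
            Nat.mul_le_mul_left _ h1
          omega
        · have h2 : 6 * q * (cls E q (s + 1) y + 1) ≤ 6 * q * cls E q (s + 1) x :=
            Nat.mul_le_mul_left _ h1
          omega
  obtain ⟨X, hXT, hX⟩ := exists_crit hnc
  have hXW : X = (X \ U) ∪ (X ∩ U) := (sdiff_union_inter X U).symm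
  have hdis : Disjoint (X \ U) (X ∩ U) := by
    rw [Finset.disjoint_left]
    intro x h1 h2
    exact (mem_sdiff.1 h1).2 (mem_inter.1 h2).2
  have hWX : X \ U ⊆ X := sdiff_subset
  have h1 : ∀ z ∈ X \ U, (outs E univ z).card < R.outCh.card + s := by
    intro z hz
    obtain ⟨hzX, hzU⟩ := mem_sdiff.1 hz
    have hzT := (mem_sdiff.1 (hXT hzX)).2
    rw [hTop, mem_filter] at hzT
    push Not at hzT
    obtain ⟨f, hf, hfz, hfU⟩ := hzT (mem_univ _) hzU
    rw [← hfz]
    refine heavy_out R E hE hno hq hJ hcard hf ?_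
    rw [← hUdef]
    exact hfU
  have hUL : ∀ u ∈ X, u ∈ U → L u ⊆ range (12 * q * (s + 2)) := by
    intro u _ hu a ha
    rw [hLU u hu, mem_Ico] at ha
    rw [mem_range]
    exact lt_of_lt_of_le ha.2 (hclt u)
  have hHW : ∀ x ∈ X \ U, ∀ y ∈ X, (H x y ↔ E x y ∨ E y x) := by
    intro x hx y _
    rw [hHiff]
    exact ⟨fun h => h.1, fun h => ⟨h, fun h' => absurd h' (mem_sdiff.1 hx).2⟩⟩
  have hdeg : ∀ z ∈ X \ U, R.outCh.card + s + q ≤
      (outs E (X \ U) z).card + (ins E (X \ U) z).card := by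
    intro z hz
    have k1 := crit_deg' hs hi hX hUL (hWX hz)
    rw [hLN z (mem_sdiff.1 hz).2] at k1
    have k2 : 2 * R.outCh.card - 1 - 12 * q * (s + 2) ≤
        (range (2 * R.outCh.card - 1) \ range (12 * q * (s + 2))).card := by
      have := le_card_sdiff (range (12 * q * (s + 2))) (range (2 * R.outCh.card - 1))
      rw [card_range, card_range] at this
      exact this
    have k3 : (X \ U).filter (fun y => H z y) ⊆ outs E (X \ U) z ∪ ins E (X \ U) z := by
      intro y hy
      rw [mem_filter] at hy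
      rw [mem_union, outs, ins, mem_filter, mem_filter]
      rcases ((hHW z hz y (hWX hy.1)).1 hy.2) with h | h
      · exact Or.inl ⟨hy.1, h⟩
      · exact Or.inr ⟨hy.1, h⟩
    have k4 := (card_le_card k3).trans (card_union_le _ _)
    omega
  have hlev := excl (E := E) (q := q) (J := s + 1) (D := R.outCh.card + s) (W := X \ U)
    (fun z hz => by rw [← hUdef]; exact (mem_sdiff.1 hz).2) h1 hdeg (s + 1) le_rfl
  have h2 : ∀ z ∈ X \ U, 2 * R.outCh.card ≤ (outs E X z).card + (ins E X z).card + 1 := by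
    intro z hz
    have k1 := crit_deg hs hi hX (hWX hz)
    rw [hLN z (mem_sdiff.1 hz).2, card_range] at k1
    have k3 : X.filter (fun y => H z y) ⊆ outs E X z ∪ ins E X z := by
      intro y hy
      rw [mem_filter] at hy
      rw [mem_union, outs, ins, mem_filter, mem_filter]
      rcases ((hHW z hz y hy.1).1 hy.2) with h | h
      · exact Or.inl ⟨hy.1, h⟩
      · exact Or.inr ⟨hy.1, h⟩
    have k4 := (card_le_card k3).trans (card_union_le _ _)
    omega
  have h3 : ∀ u ∈ X ∩ U, (outs E (X \ U) u).card ≤ q := by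
    intro u hu
    have k1 := (mem_inter.1 hu).2
    rw [hUdef, mem_poor] at k1
    have k2 : outs E (X \ U) u ⊆ outs E univ u \ lev E q (s + 1) := by
      intro y hy
      rw [outs, mem_filter] at hy
      rw [mem_sdiff, outs, mem_filter]
      exact ⟨⟨mem_univ _, hy.2⟩, hlev y hy.1⟩
    exact (card_le_card k2).trans k1.le
  have h4 : ∑ u ∈ X ∩ U, ((X ∩ U).filter
      (fun y => E u y ∧ cls E q (s + 1) u = cls E q (s + 1) y)).card ≤ q * (X ∩ U).card := by
    refine same_class ?_
    rw [← hUdef]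
    exact inter_subset_right
  have h5 : ∀ u ∈ X ∩ U, 6 * q ≤ (outs E (X \ U) u).card + (ins E (X \ U) u).card +
      ((X ∩ U).filter (fun y => E u y ∧ cls E q (s + 1) u = cls E q (s + 1) y)).card +
      ((X ∩ U).filter (fun y => E y u ∧ cls E q (s + 1) u = cls E q (s + 1) y)).card := by
    intro u hu
    obtain ⟨huX, huU⟩ := mem_inter.1 hu
    have k1 := crit_deg hs hi hX huX
    rw [hLU u huU, Nat.card_Ico] at k1
    have k2 : 6 * q * (cls E q (s + 1) u + 1) - 6 * q * cls E q (s + 1) u = 6 * q := by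
      rw [Nat.mul_add, Nat.add_sub_cancel_left, mul_one]
    rw [k2] at k1
    have k3 : X.filter (fun y => H u y) ⊆ outs E (X \ U) u ∪ ins E (X \ U) u ∪
        (X ∩ U).filter (fun y => E u y ∧ cls E q (s + 1) u = cls E q (s + 1) y) ∪
        (X ∩ U).filter (fun y => E y u ∧ cls E q (s + 1) u = cls E q (s + 1) y) := by
      intro y hy
      rw [mem_filter] at hy
      obtain ⟨hyX, hy2⟩ := hy
      rw [hHiff] at hy2
      rw [mem_union, mem_union, mem_union, outs, ins, mem_filter, mem_filter, mem_filter,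
        mem_filter, mem_sdiff, mem_inter]
      by_cases hyU : y ∈ U
      · have hc := hy2.2 huU hyU
        rcases hy2.1 with h | h
        · exact Or.inl (Or.inr ⟨⟨hyX, hyU⟩, h, hc⟩)
        · exact Or.inr ⟨⟨hyX, hyU⟩, h, hc⟩
      · rcases hy2.1 with h | h
        · exact Or.inl (Or.inl (Or.inl ⟨⟨hyX, hyU⟩, h⟩))
        · exact Or.inl (Or.inl (Or.inr ⟨⟨hyX, hyU⟩, h⟩))
    have k4 := card_le_card k3
    have k5 := card_union_le (outs E (X \ U) u ∪ ins E (X \ U) u ∪
        (X ∩ U).filter (fun y => E u y ∧ cls E q (s + 1) u = cls E q (s + 1) y))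
      ((X ∩ U).filter (fun y => E y u ∧ cls E q (s + 1) u = cls E q (s + 1) y))
    have k6 := card_union_le (outs E (X \ U) u ∪ ins E (X \ U) u)
        ((X ∩ U).filter (fun y => E u y ∧ cls E q (s + 1) u = cls E q (s + 1) y))
    have k7 := card_union_le (outs E (X \ U) u) (ins E (X \ U) u)
    omega
  obtain ⟨c3, c4, c5, c6, c7⟩ := count_main (E := E) hXW hdis (D := R.outCh.card) (s := s) (q := q)
    (by omega) hq1 (cls E q (s + 1)) h1 h2 h3 h4 h5
  have hW : 0 < (X \ U).card := by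
    rw [Nat.pos_iff_ne_zero]
    intro h0
    have h00 := c7 h0
    have hne := crit_nonempty hX
    rw [hXW] at hne
    rw [card_eq_zero] at h0 h00
    rw [h0, h00, union_empty] at hne
    exact not_nonempty_empty hne
  exact ⟨{ H := H, L := L, X := X, Y := X ∩ U, W := X \ U, hs := hs, hi := hi, crit := hX,
           hWX := hWX, hH := hHW, hL := fun x hx => hLN x (mem_sdiff.1 hx).2, hXW := hXW,
           hdis := hdis, hW := hW, h1 := h1, h2 := h2, c3 := c3, c4 := c4, c5 := c5, c6 := c6 }⟩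

end Pool.Agent.Work.MP_fcea8e_co.Dom
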