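import Pool.Agent.Work.MP_fcea8e_co.Dom.Defs

/-!
# Module RECOLOR: a sparse set with few colours

`X` is critical, `M`, `N1` are disjoint subsets with full lists `range n`, `|M| = m`. `D[M]` is sparse
(`hdeg`), `R` is a lower bound for the residual lists of `M` after colouring `X \ (M ∪ N1)`, and the
vertices of `N1` have many neighbours in `M` (`hNres`: `deg_X y + m/2 + 1 ≤ n + deg_M y`). Contradiction:
colour `X \ (M ∪ N1)` by `c0` (`M` is not empty, so this is a proper subset). For `u ∈ M` let `Fb u` be the set
of the colours of the neighbours of `u` in `X \ (M ∪ N1)`; `|range n \ Fb u| ≥ R` by `hMres`.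
CLAIM (induction on `|S|`): for `S ⊆ M` and a finite set `used` of colours with `4 |used| + |S| ≤ m` there is
a colouring `cM` of `S`, `cM u ∈ range n`, `∉ Fb u`, `∉ used`, proper on `S`, with
`16 (|used| + |image of S|) ≤ 7 m`.
 - `4 |S| ≤ m`: distinct colours by Hall (`Finset.all_card_le_biUnion_card_iff_exists_injective`) or
   greedily, since `R - |used| ≥ |S|` (`4 R ≥ 2 m`, `4 |used| ≤ m`);
   `16 (|used| + |S|) ≤ 4 m - 4 |S| + 16 |S| ≤ 7 m`.
 - `4 |S| > m`: the sum over `u ∈ S` of `|range n \ Fb u \ used| ≥ R - m/4 ≥ n/4` is at least `|S| n / 4`, so there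
   is a colour `γ < n`, `γ ∉ used`, such that `T = {u ∈ S : γ ∉ Fb u}` has `4 |T| ≥ |S|`, so
   `16 |T| > m ≥ 96 e + 64`, `|T| ≥ 6 e + 4`. By `hdeg` (three times: take a vertex with at most `2 e`
   neighbours, delete it and them) `T` has an independent subset of 4 elements. Give them the colour
   `γ`, and apply the claim to `S` minus these 4 and `insert γ used`.
With `S = M`, `used = ∅`: at most `7 m / 16 ≤ m / 2` colours on `M`. Then colour `N1` greedily (induction on
subsets of `N1`): `y ∈ N1` sees at most `deg_X y - deg_M y - deg_N1 y` colours outside, at most `m / 2` on `M`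
and at most `deg_N1 y` on `N1`, less than `n` together. So `X` is colourable.
-/

set_option autoImplicit false

namespace Pool.Agent.Work.MP_fcea8e_co.Dom

open Finset

section

variable {V : Type} {H : V → V → Prop}

open Classical in
private theorem indep_step (hs : ∀ x y, H x y → H y x) (hi : ∀ x, ¬ H x x) {M : Finset V} {e : ℕ}
    (hdeg : ∀ S ⊆ M, S.Nonempty → ∃ u ∈ S, (S.filter (fun y => H u y)).card ≤ 2 * e) (k : ℕ) :
    ∀ T ⊆ M, k * (2 * e + 1) < T.card →
      ∃ I ⊆ T, I.card = k + 1 ∧ ∀ x ∈ I, ∀ y ∈ I, ¬ H x y := by
  induction k with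
  | zero =>
    intro T hT hc
    obtain ⟨x, hx⟩ := card_pos.1 (by omega : 0 < T.card)
    refine ⟨{x}, singleton_subset_iff.2 hx, by simp, ?_⟩
    intro a ha b hb
    rw [mem_singleton] at ha hb
    subst ha; subst hb
    exact hi _
  | succ k ih =>
    intro T hT hc
    have hne : T.Nonempty := card_pos.1 (by
      have : 0 < (k + 1) * (2 * e + 1) := by positivity
      omega)
    obtain ⟨u, hu, hd⟩ := hdeg T hT hne
    set T' := (T.erase u).filter (fun y => ¬ H u y) with hT'
    have hsub : T' ⊆ T := (filter_subset _ _).trans (erase_subset _ _)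
    have hcard : T.card ≤ T'.card + (2 * e + 1) := by
      have h1 : T ⊆ insert u (T' ∪ T.filter (fun y => H u y)) := by
        intro y hy
        rw [mem_insert, mem_union, mem_filter, mem_filter, mem_erase]
        by_cases hyu : y = u
        · exact Or.inl hyu
        · right
          by_cases hH : H u y
          · exact Or.inr ⟨hy, hH⟩
          · exact Or.inl ⟨⟨hyu, hy⟩, hH⟩
      have h2 := card_le_card h1
      have h3 := card_insert_le u (T' ∪ T.filter (fun y => H u y))
      have h4 := card_union_le T' (T.filter (fun y => H u y))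
      omega
    obtain ⟨I, hIT, hIc, hI⟩ := ih T' (hsub.trans hT) (by
      have : (k + 1) * (2 * e + 1) = k * (2 * e + 1) + (2 * e + 1) := by ring
      omega)
    have huI : u ∉ I := by
      intro h
      have := hIT h
      rw [hT', mem_filter, mem_erase] at this
      exact this.1.1 rfl
    refine ⟨insert u I, ?_, ?_, ?_⟩
    · intro y hy
      rcases mem_insert.1 hy with rfl | hy
      · exact hu
      · exact hsub (hIT hy)
    · rw [card_insert_of_notMem huI, hIc]
    · have hno : ∀ y ∈ I, ¬ H u y := by
        intro y hy
        have := hIT hy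
        rw [hT', mem_filter] at this
        exact this.2
      intro x hx y hy
      rcases mem_insert.1 hx with rfl | hx'
      · rcases mem_insert.1 hy with rfl | hy'
        · exact hi _
        · exact hno y hy'
      · rcases mem_insert.1 hy with rfl | hy'
        · intro h
          exact hno x hx' (hs _ _ h)
        · exact hI x hx' y hy'

open Classical in
private theorem distinct_col {S : Finset V} {A : V → Finset ℕ} (h : ∀ u ∈ S, S.card ≤ (A u).card) :
    ∃ c : V → ℕ, (∀ u ∈ S, c u ∈ A u) ∧ ∀ x ∈ S, ∀ y ∈ S, c x = c y → x = y := by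
  induction S using Finset.induction_on generalizing A with
  | empty => exact ⟨fun _ => 0, by simp, by simp⟩
  | insert a S ha ih =>
    rw [card_insert_of_notMem ha] at h
    obtain ⟨γ, hγ⟩ := card_pos.1 (lt_of_lt_of_le (by omega) (h a (mem_insert_self _ _)))
    obtain ⟨c, hc1, hc2⟩ := ih (A := fun u => (A u).erase γ) (by
      intro u hu
      have h1 := h u (mem_insert_of_mem hu)
      have h2 := pred_card_le_card_erase (s := A u) (a := γ)
      omega)
    refine ⟨fun x => if x = a then γ else c x, ?_, ?_⟩
    · intro u hu
      rcases mem_insert.1 hu with rfl | hu'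
      · simpa using hγ
      · have hua : u ≠ a := by rintro rfl; exact ha hu'
        simp only [hua, if_false]
        exact mem_of_mem_erase (hc1 u hu')
    · have hne : ∀ x ∈ S, c x ≠ γ := fun x hx => ne_of_mem_erase (hc1 x hx)
      intro x hx y hy hxy
      rcases mem_insert.1 hx with rfl | hx'
      · rcases mem_insert.1 hy with rfl | hy'
        · rfl
        · have hyx : y ≠ x := by rintro rfl; exact ha hy'
          simp only [if_true, hyx, if_false] at hxy
          exact absurd hxy.symm (hne y hy')
      · have hxa : x ≠ a := by rintro rfl; exact ha hx'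
        rcases mem_insert.1 hy with rfl | hy'
        · simp only [if_true, hxa, if_false] at hxy
          exact absurd hxy (hne x hx')
        · have hya : y ≠ a := by rintro rfl; exact ha hy'
          simp only [hxa, hya, if_false] at hxy
          exact hc2 x hx' y hy' hxy

open Classical in
private theorem popular {S : Finset V} {A : V → Finset ℕ} {n : ℕ} (hA : ∀ u ∈ S, A u ⊆ range n)
    (hc : ∀ u ∈ S, n ≤ 4 * (A u).card) (hn : ∀ u ∈ S, 0 < (A u).card) (hS : S.Nonempty) :
    ∃ γ, S.card ≤ 4 * (S.filter (fun u => γ ∈ A u)).card := by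
  by_contra hcon
  push Not at hcon
  have h1 : ∑ u ∈ S, (A u).card = ∑ γ ∈ range n, (S.filter (fun u => γ ∈ A u)).card := by
    have e1 : ∀ u ∈ S, (A u).card = ∑ γ ∈ range n, if γ ∈ A u then 1 else 0 := by
      intro u hu
      rw [← card_filter]
      congr 1
      ext γ
      rw [mem_filter]
      exact ⟨fun h => ⟨hA u hu h, h⟩, fun h => h.2⟩
    rw [sum_congr rfl e1, sum_comm]
    refine sum_congr rfl fun γ _ => ?_
    rw [card_filter]
  obtain ⟨u0, hu0⟩ := hS
  have hn0 : 0 < n := by
    obtain ⟨γ, hγ⟩ := card_pos.1 (hn u0 hu0)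
    have := mem_range.1 (hA u0 hu0 hγ)
    omega
  have h2 : S.card * n ≤ 4 * ∑ u ∈ S, (A u).card := by
    rw [mul_sum, ← smul_eq_mul, ← sum_const]
    exact sum_le_sum hc
  have h3 : 4 * ∑ γ ∈ range n, (S.filter (fun u => γ ∈ A u)).card < n * S.card := by
    rw [mul_sum]
    calc ∑ γ ∈ range n, 4 * (S.filter (fun u => γ ∈ A u)).card
        < ∑ _γ ∈ range n, S.card :=
          sum_lt_sum_of_nonempty (nonempty_range_iff.2 hn0.ne') (fun γ _ => hcon γ)
      _ = n * S.card := by rw [sum_const, card_range, smul_eq_mul]
  rw [h1] at h2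
  have : S.card * n = n * S.card := mul_comm _ _
  omega

open Classical in
private theorem claim (hs : ∀ x y, H x y → H y x) (hi : ∀ x, ¬ H x x) {M : Finset V}
    {n m e R : ℕ} (hm0 : 96 * e + 64 ≤ m)
    (hdeg : ∀ S ⊆ M, S.Nonempty → ∃ u ∈ S, (S.filter (fun y => H u y)).card ≤ 2 * e)
    (hR : n + 2 * m ≤ 4 * R) (A : V → Finset ℕ) (hA : ∀ u ∈ M, A u ⊆ range n)
    (hAR : ∀ u ∈ M, R ≤ (A u).card) (k : ℕ) :
    ∀ S ⊆ M, S.card ≤ k → ∀ used : Finset ℕ, 4 * used.card + S.card ≤ m →
      ∃ c : V → ℕ, (∀ u ∈ S, c u ∈ A u ∧ c u ∉ used) ∧ (∀ x ∈ S, ∀ y ∈ S, H x y → c x ≠ c y) ∧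
        16 * (used.card + (S.image c).card) ≤ 7 * m := by
  induction k with
  | zero =>
    intro S hS hk used hu
    have : S = ∅ := card_eq_zero.1 (by omega)
    subst this
    refine ⟨fun _ => 0, by simp, by simp, ?_⟩
    rw [image_empty, card_empty]
    rw [card_empty] at hu
    omega
  | succ k ih =>
    intro S hS hk used hu
    have hav : ∀ u ∈ S, R ≤ (A u \ used).card + used.card := by
      intro u hu'
      have h1 := hAR u (hS hu')
      have h2 := le_card_sdiff used (A u)
      omega
    by_cases hsm : 4 * S.card ≤ m
    · obtain ⟨c, hc1, hc2⟩ := distinct_col (S := S) (A := fun u => A u \ used) (by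
        intro u hu'
        have := hav u hu'
        omega)
      refine ⟨c, fun u hu' => mem_sdiff.1 (hc1 u hu'), ?_, ?_⟩
      · intro x hx y hy hxy h
        have := hc2 x hx y hy h
        subst this
        exact hi _ hxy
      · have := card_image_le (s := S) (f := c)
        omega
    · push Not at hsm
      have hne : S.Nonempty := card_pos.1 (by omega)
      obtain ⟨γ, hγ⟩ := popular (S := S) (A := fun u => A u \ used) (n := n)
        (fun u hu' => sdiff_subset.trans (hA u (hS hu')))
        (by
          intro u hu'
          have := hav u hu'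
          omega)
        (by
          intro u hu'
          have := hav u hu'
          omega) hne
      set T := S.filter (fun u => γ ∈ A u \ used) with hT
      have hTS : T ⊆ S := filter_subset _ _
      obtain ⟨I, hIT, hIc, hI⟩ := indep_step hs hi hdeg 3 T (hTS.trans hS) (by omega)
      have hIS : I ⊆ S := hIT.trans hTS
      have hγu : γ ∉ used := by
        obtain ⟨x, hx⟩ := card_pos.1 (by omega : 0 < I.card)
        have := hIT hx
        rw [hT, mem_filter, mem_sdiff] at this
        exact this.2.2
      have hcS : (S \ I).card + 4 = S.card := by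
        have := card_sdiff_add_card_eq_card hIS
        omega
      obtain ⟨c, hc1, hc2, hc3⟩ := ih (S \ I) (sdiff_subset.trans hS) (by omega) (insert γ used) (by
        rw [card_insert_of_notMem hγu]
        omega)
      refine ⟨fun x => if x ∈ I then γ else c x, ?_, ?_, ?_⟩
      · intro u hu'
        by_cases huI : u ∈ I
        · simp only [huI, if_true]
          have := hIT huI
          rw [hT, mem_filter, mem_sdiff] at this
          exact this.2
        · simp only [huI, if_false]
          have := hc1 u (mem_sdiff.2 ⟨hu', huI⟩)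
          exact ⟨this.1, fun h => this.2 (mem_insert_of_mem h)⟩
      · intro x hx y hy hxy
        by_cases hxI : x ∈ I
        · by_cases hyI : y ∈ I
          · exact absurd hxy (hI x hxI y hyI)
          · simp only [hxI, hyI, if_true, if_false]
            intro h
            exact (hc1 y (mem_sdiff.2 ⟨hy, hyI⟩)).2 (h ▸ mem_insert_self _ _)
        · by_cases hyI : y ∈ I
          · simp only [hxI, hyI, if_true, if_false]
            intro h
            exact (hc1 x (mem_sdiff.2 ⟨hx, hxI⟩)).2 (h.symm ▸ mem_insert_self _ _)
          · simp only [hxI, hyI, if_false]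
            exact hc2 x (mem_sdiff.2 ⟨hx, hxI⟩) y (mem_sdiff.2 ⟨hy, hyI⟩) hxy
      · rw [card_insert_of_notMem hγu] at hc3
        have h1 : S.image (fun x => if x ∈ I then γ else c x) ⊆ insert γ ((S \ I).image c) := by
          intro a ha
          obtain ⟨x, hx, rfl⟩ := mem_image.1 ha
          by_cases hxI : x ∈ I
          · simp only [hxI, if_true]
            exact mem_insert_self _ _
          · simp only [hxI, if_false]
            exact mem_insert_of_mem (mem_image_of_mem _ (mem_sdiff.2 ⟨hx, hxI⟩))
        have h2 := card_le_card h1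
        have h3 := card_insert_le γ ((S \ I).image c)
        omega

end

open Classical in
theorem recolor {V : Type} {H : V → V → Prop} {L : V → Finset ℕ} (hs : ∀ x y, H x y → H y x)
    (hi : ∀ x, ¬ H x x) {X M N1 : Finset V} (hX : Crit H L X) (hM : M ⊆ X) (hN : N1 ⊆ X)
    (hd : Disjoint M N1) {n m e R : ℕ} (hL : ∀ x ∈ M ∪ N1, L x = range n) (hm : M.card = m)
    (hm0 : 96 * e + 64 ≤ m)
    (hdeg : ∀ S ⊆ M, S.Nonempty → ∃ u ∈ S, (S.filter (fun y => H u y)).card ≤ 2 * e)
    (hMres : ∀ u ∈ M, (X.filter (fun y => H u y)).card + R ≤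
      n + ((M ∪ N1).filter (fun y => H u y)).card)
    (hR : n + 2 * m ≤ 4 * R)
    (hNres : ∀ y ∈ N1, 2 * (X.filter (fun x => H y x)).card + m + 2 ≤
      2 * n + 2 * (M.filter (fun x => H y x)).card) : False := by
  set Q := M ∪ N1 with hQ
  have hQX : Q ⊆ X := union_subset hM hN
  have hMne : M.Nonempty := card_pos.1 (by omega)
  have hss : X \ Q ⊂ X := by
    refine ⟨sdiff_subset, fun h => ?_⟩
    obtain ⟨x, hx⟩ := hMne
    have h1 := h (hM hx)
    rw [mem_sdiff] at h1
    exact h1.2 (mem_union_left _ hx)
  obtain ⟨c0, hc0, hc0p⟩ := hX.2 _ hss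
  -- splitting degrees
  have hsplit : ∀ u, (X.filter (fun y => H u y)).card =
      ((X \ Q).filter (fun y => H u y)).card + (Q.filter (fun y => H u y)).card := by
    intro u
    rw [← card_union_of_disjoint]
    · congr 1
      rw [← filter_union, sdiff_union_of_subset hQX]
    · exact (disjoint_filter_filter (sdiff_disjoint))
  set Fb : V → Finset ℕ := fun u => ((X \ Q).filter (fun y => H u y)).image c0 with hFb
  set A : V → Finset ℕ := fun u => range n \ Fb u with hAdef
  have hAR : ∀ u ∈ M, R ≤ (A u).card := by
    intro u hu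
    have h1 := hMres u hu
    rw [hsplit u] at h1
    have h2 : (Fb u).card ≤ ((X \ Q).filter (fun y => H u y)).card := card_image_le
    have h3 := le_card_sdiff (Fb u) (range n)
    rw [card_range] at h3
    show R ≤ (range n \ Fb u).card
    omega
  obtain ⟨cM, hcM1, hcM2, hcM3⟩ := claim hs hi hm0 hdeg hR A (fun u _ => sdiff_subset) hAR M.card M
    subset_rfl le_rfl ∅ (by rw [card_empty]; omega)
  rw [card_empty, zero_add] at hcM3
  -- greedy colouring of N1
  have hgreedy : ∀ S ⊆ N1, ∃ c : V → ℕ, (∀ x ∈ X \ Q, c x = c0 x) ∧ (∀ x ∈ M, c x = cM x) ∧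
      (∀ x ∈ (X \ Q) ∪ M ∪ S, c x ∈ L x) ∧
      ∀ x ∈ (X \ Q) ∪ M ∪ S, ∀ y ∈ (X \ Q) ∪ M ∪ S, H x y → c x ≠ c y := by
    intro S
    induction S using Finset.induction_on with
    | empty =>
      intro _
      have hdis : ∀ x ∈ M, x ∉ X \ Q := by
        intro x hx h
        exact (mem_sdiff.1 h).2 (mem_union_left _ hx)
      refine ⟨fun x => if x ∈ M then cM x else c0 x, ?_, ?_, ?_, ?_⟩
      · intro x hx
        have : x ∉ M := fun h => hdis x h hx
        simp only [this, if_false]
      · intro x hx
        simp only [hx, if_true]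
      · intro x hx
        rw [union_empty, mem_union] at hx
        by_cases hxM : x ∈ M
        · simp only [hxM, if_true]
          rw [hL x (mem_union_left _ hxM)]
          exact (mem_sdiff.1 (hcM1 x hxM).1).1
        · simp only [hxM, if_false]
          exact hc0 x (hx.resolve_right hxM)
      · intro x hx y hy hxy
        rw [union_empty, mem_union] at hx hy
        by_cases hxM : x ∈ M
        · by_cases hyM : y ∈ M
          · simp only [hxM, hyM, if_true]
            exact hcM2 x hxM y hyM hxy
          · simp only [hxM, hyM, if_true, if_false]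
            intro h
            have h1 := (mem_sdiff.1 (hcM1 x hxM).1).2
            apply h1
            rw [h]
            exact mem_image_of_mem _ (mem_filter.2 ⟨hy.resolve_right hyM, hxy⟩)
        · by_cases hyM : y ∈ M
          · simp only [hxM, hyM, if_true, if_false]
            intro h
            have h1 := (mem_sdiff.1 (hcM1 y hyM).1).2
            apply h1
            rw [← h]
            exact mem_image_of_mem _ (mem_filter.2 ⟨hx.resolve_right hxM, hs _ _ hxy⟩)
          · simp only [hxM, hyM, if_false]
            exact hc0p x (hx.resolve_right hxM) y (hy.resolve_right hyM) hxy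
    | insert a S ha ih =>
      intro hSN
      have haN : a ∈ N1 := hSN (mem_insert_self _ _)
      have haQ : a ∈ Q := mem_union_right _ haN
      have haM : a ∉ M := fun h => (disjoint_left.1 hd h haN)
      obtain ⟨c, hc1, hc2, hc3, hc4⟩ := ih (fun x hx => hSN (mem_insert_of_mem hx))
      have haX : a ∉ X \ Q := fun h => (mem_sdiff.1 h).2 haQ
      -- the forbidden colours
      set F1 := ((X \ Q).filter (fun y => H a y)).image c with hF1
      set F2 := M.image cM with hF2
      set F3 := (S.filter (fun y => H a y)).image c with hF3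
      have hSN' : S ⊆ N1 := fun x hx => hSN (mem_insert_of_mem hx)
      have hk1 : F1.card ≤ ((X \ Q).filter (fun y => H a y)).card := card_image_le
      have hk3 : F3.card ≤ (N1.filter (fun y => H a y)).card :=
        card_image_le.trans (card_le_card (filter_subset_filter _ hSN'))
      have hQs : (Q.filter (fun y => H a y)).card =
          (M.filter (fun y => H a y)).card + (N1.filter (fun y => H a y)).card := by
        rw [hQ, filter_union, card_union_of_disjoint (disjoint_filter_filter hd)]
      have hdX := hsplit a
      have hres := hNres a haN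
      have hlt : (F1 ∪ F2 ∪ F3).card < n := by
        have h1 := card_union_le (F1 ∪ F2) F3
        have h2 := card_union_le F1 F2
        have h3 : 16 * F2.card ≤ 7 * m := hcM3
        omega
      obtain ⟨γ, hγ⟩ : ∃ γ, γ ∈ range n \ (F1 ∪ F2 ∪ F3) := by
        have h1 := le_card_sdiff (F1 ∪ F2 ∪ F3) (range n)
        rw [card_range] at h1
        exact card_pos.1 (by omega)
      rw [mem_sdiff, mem_union, mem_union, not_or, not_or] at hγ
      obtain ⟨hγn, ⟨hγ1, hγ2⟩, hγ3⟩ := hγ
      have hne : ∀ x ∈ (X \ Q) ∪ M ∪ S, H a x → c x ≠ γ := by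
        intro x hx hax h
        rw [mem_union, mem_union] at hx
        rcases hx with (hx | hx) | hx
        · exact hγ1 (h ▸ mem_image_of_mem _ (mem_filter.2 ⟨hx, hax⟩))
        · rw [hc2 x hx] at h
          exact hγ2 (h ▸ mem_image_of_mem _ hx)
        · exact hγ3 (h ▸ mem_image_of_mem _ (mem_filter.2 ⟨hx, hax⟩))
      have hmem : ∀ x, x ∈ (X \ Q) ∪ M ∪ insert a S → x ≠ a → x ∈ (X \ Q) ∪ M ∪ S := by
        intro x hx hxa
        rw [mem_union, mem_insert] at hx
        rw [mem_union]
        rcases hx with hx | hx | hx
        · exact Or.inl hx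
        · exact absurd hx hxa
        · exact Or.inr hx
      refine ⟨fun x => if x = a then γ else c x, ?_, ?_, ?_, ?_⟩
      · intro x hx
        have hxa : x ≠ a := by rintro rfl; exact haX hx
        simp only [hxa, if_false]
        exact hc1 x hx
      · intro x hx
        have hxa : x ≠ a := by rintro rfl; exact haM hx
        simp only [hxa, if_false]
        exact hc2 x hx
      · intro x hx
        by_cases hxa : x = a
        · subst hxa
          simp only [if_true]
          rw [hL x haQ]
          exact hγn
        · simp only [hxa, if_false]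
          exact hc3 x (hmem x hx hxa)
      · intro x hx y hy hxy
        by_cases hxa : x = a
        · subst hxa
          by_cases hya : y = x
          · subst hya
            exact absurd hxy (hi _)
          · simp only [if_true, hya, if_false]
            exact (hne y (hmem y hy hya) hxy).symm
        · by_cases hya : y = a
          · subst hya
            simp only [if_true, hxa, if_false]
            exact hne x (hmem x hx hxa) (hs _ _ hxy)
          · simp only [hxa, hya, if_false]
            exact hc4 x (hmem x hx hxa) y (hmem y hy hya) hxy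
  obtain ⟨c, -, -, h3, h4⟩ := hgreedy N1 subset_rfl
  have hXeq : (X \ Q) ∪ M ∪ N1 = X := by
    rw [union_assoc, ← hQ, sdiff_union_of_subset hQX]
  rw [hXeq] at h3 h4
  exact hX.1 ⟨c, h3, h4⟩

end Pool.Agent.Work.MP_fcea8e_co.Dom
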